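import Pool.Agent.Krd.DefsA

/-!
# Krd KR14: one index for every direction and every functional

`finrank V = 2 * m`, `m ≥ 1`, `card I = 2 ^ (2 * m - 1)`, all `g i + g j` (`i ≠ j`) bent,
`IsA g x1 x2 γ`. Let `a ≠ 0`, `x1 a = x2 a = 0`, `i ∈ I`, `ν ∈ {x1, x2, x1 + x2}`. Then there is exactly
one `j` with `D x (D a (g i + g j)) z = ν x` for all `x, z`.

Proof. There are `b, c` with `x1 b * x2 c + x1 c * x2 b = 1` (`x1, x2` are linearly independent), so
`γ i j a + γ j k a = γ i k a` for all `i, j, k` (compare third derivatives). Let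
`P y = x1 y * x2 y`; `D c (D b P) z = x1 b * x2 c + x1 c * x2 b` for all `z`, and `D a P = 0`. For
`j ∈ I` put `F j = D a (g i + g j)` if `γ i j a = 0` and `F j = D a (g i + g j) + P` if
`γ i j a = 1`. By `third` all second derivatives of `F j` vanish: `F j` is affine, so there is a linear
functional `ψ j` with `D x (F j) z = ψ j x` (`Aff.exists_linear`). `ψ j a = 0` (`D_self`, `D a P = 0`),
`ψ i = 0`.
If `γ i j a = γ i k a`, `j ≠ k`: `D a (g j + g k)` is affine with functional `ψ j + ψ k`, and it is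
balanced (`Bent`), hence not constant: `ψ j ≠ ψ k`.
If `γ i j a ≠ γ i k a`: `D a (g j + g k) + P` is affine with functional `ψ j + ψ k`; claim:
`ψ j + ψ k ∉ {0, x1, x2, x1 + x2}`. Otherwise `D a (g j + g k) y = x1 y * x2 y + α * x1 y + β * x2 y + c
= (x1 y + β) * (x2 y + α) + c'`, and `∑ y, sg` of this is not zero (`(x1 y + β) * (x2 y + α) = 1` for
exactly a quarter of all `y`), contradiction to `Bent`.
So `ψ` is injective from `I` into `{φ | φ a = 0}`, which has `2 ^ (2 * m - 1) = card I` elements, hence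
bijective onto it. `ν a = 0`, so there is a unique `j` with `ψ j = ν`. By the claim with `k = i`
(`ψ i = 0`, `γ i i a = 0`) we have `γ i j a = 0` for this `j`, so
`D x (D a (g i + g j)) z = ψ j x = ν x`. Uniqueness: if `D x (D a (g i + g j')) z = ν x` for all `x, z`
then third derivatives vanish, `γ i j' a = 0` and `ψ j' = ν`.
-/

set_option autoImplicit false
set_option linter.unusedSectionVars false

namespace Pool.Agent.Krd

variable {V : Type*} [AddCommGroup V] [Module (ZMod 2) V] [Fintype V]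
variable {I : Type*} [Fintype I]

private theorem ao_det {x1 x2 : V →ₗ[ZMod 2] ZMod 2} (h1 : x1 ≠ 0) (h2 : x2 ≠ 0) (h : x1 ≠ x2) :
    (∃ b, x1 b = 1 ∧ x2 b = 0) ∧ ∃ c, x1 c = 0 ∧ x2 c = 1 := by
  have key : ∀ {y1 y2 : V →ₗ[ZMod 2] ZMod 2}, y1 ≠ 0 → y1 ≠ y2 → ∃ b, y1 b = 1 ∧ y2 b = 0 := by
    intro y1 y2 h1 h
    obtain ⟨b, hb⟩ : ∃ b, y1 b ≠ 0 := by
      by_contra hcon
      push Not at hcon
      exact h1 (LinearMap.ext hcon)
    obtain ⟨c, hc⟩ : ∃ c, y1 c ≠ y2 c := by
      by_contra hcon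
      push Not at hcon
      exact h (LinearMap.ext hcon)
    have e1 := z2_cases (y1 b)
    have e2 := z2_cases (y2 b)
    have e3 := z2_cases (y1 c)
    have e4 := z2_cases (y2 c)
    rcases e1 with e1 | e1
    · exact absurd e1 hb
    rcases e2 with e2 | e2
    · exact ⟨b, e1, e2⟩
    rcases e3 with e3 | e3 <;> rcases e4 with e4 | e4
    · exact absurd (e3.trans e4.symm) hc
    · refine ⟨b + c, ?_, ?_⟩
      · rw [map_add, e1, e3, add_zero]
      · rw [map_add, e2, e4]; decide
    · exact ⟨c, e3, e4⟩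
    · exact absurd (e3.trans e4.symm) hc
  refine ⟨key h1 h, ?_⟩
  obtain ⟨c, hc1, hc2⟩ := key h2 (Ne.symm h)
  exact ⟨c, hc2, hc1⟩

private theorem ao_sum {x1 x2 : V →ₗ[ZMod 2] ZMod 2} (h1 : x1 ≠ 0) (h2 : x2 ≠ 0) (h : x1 ≠ x2)
    (α β C : ZMod 2) : ∑ y, sg (x1 y * x2 y + α * x1 y + β * x2 y + C) ≠ 0 := by
  obtain ⟨⟨b, hb1, hb2⟩, c, hc1, hc2⟩ := ao_det h1 h2 h
  obtain ⟨f, hf⟩ : ∃ f : V → ℤ, f = fun y => sg (x1 y * x2 y + α * x1 y + β * x2 y + C) :=
    ⟨_, rfl⟩
  have hs : ∀ d : V, ∑ y, f (y + d) = ∑ y, f y := fun d =>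
    Fintype.sum_equiv (Equiv.addRight d) _ _ fun y => rfl
  have h4 : ∑ y, (f y + f (y + b) + f (y + c) + f (y + (b + c))) = 4 * ∑ y, f y := by
    rw [Finset.sum_add_distrib, Finset.sum_add_distrib, Finset.sum_add_distrib, hs, hs, hs]
    ring
  have h5 : ∀ y, f y + f (y + b) + f (y + c) + f (y + (b + c)) = 2 * sg (α * β + C) := by
    intro y
    have e1 : ∀ s t α β C : ZMod 2,
        sg (s * t + α * s + β * t + C) + sg ((s + 1) * (t + 0) + α * (s + 1) + β * (t + 0) + C) +
          sg ((s + 0) * (t + 1) + α * (s + 0) + β * (t + 1) + C) +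
          sg ((s + (1 + 0)) * (t + (0 + 1)) + α * (s + (1 + 0)) + β * (t + (0 + 1)) + C) =
        2 * sg (α * β + C) := by decide
    rw [hf]
    simp only [map_add, hb1, hb2, hc1, hc2]
    exact e1 (x1 y) (x2 y) α β C
  rw [Finset.sum_congr rfl fun y _ => h5 y, Finset.sum_const, Finset.card_univ] at h4
  intro h0
  have h6 : ∑ y, f y = 0 := by rw [hf]; exact h0
  rw [h6, mul_zero, nsmul_eq_mul] at h4
  have h7 : ((Fintype.card V : ℕ) : ℤ) ≠ 0 := by
    have : 0 < Fintype.card V := Fintype.card_pos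
    exact_mod_cast this.ne'
  have h8 : 2 * sg (α * β + C) ≠ 0 := by
    generalize α * β + C = t
    revert t
    decide
  exact mul_ne_zero h7 h8 h4

private theorem ao_card {m : ℕ} (hm : 1 ≤ m) (hV : Module.finrank (ZMod 2) V = 2 * m) {a : V}
    (ha : a ≠ 0) :
    Nat.card (LinearMap.ker (Module.Dual.eval (ZMod 2) V a)) = 2 ^ (2 * m - 1) := by
  have h0 : Module.Finite (ZMod 2) V := inferInstance
  have h1 := LinearMap.finrank_range_add_finrank_ker (Module.Dual.eval (ZMod 2) V a)
  have h2 : LinearMap.range (Module.Dual.eval (ZMod 2) V a) = ⊤ := by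
    rw [LinearMap.range_eq_top]
    have h3 : ∃ φ : Module.Dual (ZMod 2) V, φ a ≠ 0 := by
      by_contra hcon
      push Not at hcon
      exact ha ((Module.forall_dual_apply_eq_zero_iff (ZMod 2) a).1 hcon)
    obtain ⟨φ, hφ⟩ := h3
    intro t
    rcases z2_cases t with rfl | rfl
    · exact ⟨0, map_zero _⟩
    · refine ⟨φ, ?_⟩
      rcases z2_cases (φ a) with h4 | h4
      · exact absurd h4 hφ
      · exact h4
  rw [h2, finrank_top, Module.finrank_self, Subspace.dual_finrank_eq, hV] at h1
  rw [Module.natCard_eq_pow_finrank (K := ZMod 2), Nat.card_zmod]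
  congr 1
  omega

theorem exists_unique_of_isA {m : ℕ} (hm : 1 ≤ m) (hV : Module.finrank (ZMod 2) V = 2 * m)
    (hI : Fintype.card I = 2 ^ (2 * m - 1)) (g : I → V → ZMod 2)
    (hb : ∀ i j, i ≠ j → Bent (g i + g j)) {x1 x2 : V →ₗ[ZMod 2] ZMod 2}
    {γ : I → I → V →ₗ[ZMod 2] ZMod 2} (hA : IsA g x1 x2 γ) {a : V} (ha : a ≠ 0)
    (h1 : x1 a = 0) (h2 : x2 a = 0) (i : I) (ν : V →ₗ[ZMod 2] ZMod 2)
    (hν : ν = x1 ∨ ν = x2 ∨ ν = x1 + x2) :
    ∃! j, ∀ x z, D x (D a (g i + g j)) z = ν x := by
  classical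
  obtain ⟨⟨b, hb1, hb2⟩, c, hc1, hc2⟩ := ao_det hA.ne1 hA.ne2 hA.ne
  -- the second derivatives of the product
  have hP : ∀ u v z, D u (D v fun y => x1 y * x2 y) z = x1 v * x2 u + x1 u * x2 v := by
    intro u v z
    simp only [D, map_add]
    generalize x1 z = s
    generalize x2 z = t
    generalize x1 u = p
    generalize x2 u = q
    generalize x1 v = r
    generalize x2 v = w
    revert s t p q r w
    decide
  have hPa : ∀ z, D a (fun y => x1 y * x2 y) z = 0 := by
    intro z
    simp only [D, map_add, h1, h2, add_zero]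
    exact z2_add_self _
  -- the value of `γ i j a`
  have hγ : ∀ j k, γ j k a = D c (D b (D a (g j + g k))) 0 := by
    intro j k
    rw [hA.third j k a b c 0 h1 h2, hb1, hb2, hc1, hc2]
    ring
  have hγadd : ∀ j k, γ j k a = γ i j a + γ i k a := by
    intro j k
    rw [hγ, hγ i j, hγ i k]
    have e : D c (D b (D a (g j + g k))) = D c (D b (D a (g i + g j))) +
        D c (D b (D a (g i + g k))) := by
      rw [← D_add, ← D_add, ← D_add]
      congr 3
      funext y
      simp only [Pi.add_apply]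
      have := z2_add_self (g i y)
      linear_combination -this
    rw [e, Pi.add_apply]
  have hγi : γ i i a = 0 := by
    rw [hγadd i i]
    exact z2_add_self _
  obtain ⟨F, hF⟩ : ∃ F : I → V → ZMod 2,
      F = fun j => D a (g i + g j) + fun y => γ i j a * (x1 y * x2 y) := ⟨_, rfl⟩
  have hFaff : ∀ j, Aff (F j) := by
    intro j u v z
    have e1 : D u (D v (F j)) z = D u (D v (D a (g i + g j))) z +
        γ i j a * D u (D v fun y => x1 y * x2 y) z := by
      rw [hF]
      simp only [D, Pi.add_apply]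
      ring
    rw [e1, hA.third i j a v u z h1 h2, hP]
    exact z2_add_self _
  choose ψ hψ using fun j => (hFaff j).exists_linear
  have hψD : ∀ j x z, D x (F j) z = ψ j x := by
    intro j x z
    rw [D_apply, hψ j z, hψ j (z + x), map_add]
    have e1 := z2_add_self (ψ j z)
    have e2 := z2_add_self (F j 0)
    linear_combination e1 + e2
  have hψa : ∀ j, ψ j a = 0 := by
    intro j
    rw [← hψD j a 0]
    have e1 : D a (F j) 0 = D a (D a (g i + g j)) 0 + γ i j a * D a (fun y => x1 y * x2 y) 0 := by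
      rw [hF]
      simp only [D, Pi.add_apply]
      ring
    rw [e1, D_self, hPa, mul_zero, add_zero]
  -- the sum of two of the functions
  have hsum : ∀ j k y, D a (g j + g k) y = γ j k a * (x1 y * x2 y) + (ψ j + ψ k) y +
      (F j 0 + F k 0) := by
    intro j k y
    have e1 : D a (g j + g k) y = F j y + F k y + γ j k a * (x1 y * x2 y) := by
      rw [hγadd j k, hF]
      simp only [D, Pi.add_apply]
      have e2 := z2_add_self (g i y)
      have e3 := z2_add_self (g i (y + a))
      have e4 := z2_add_self (γ i j a * (x1 y * x2 y))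
      have e5 := z2_add_self (γ i k a * (x1 y * x2 y))
      linear_combination -e2 - e3 - e4 - e5
    rw [e1, hψ j y, hψ k y, LinearMap.add_apply]
    ring
  have hsp : ∀ j k, j ≠ k → γ j k a = 1 → ∀ α β : ZMod 2, ψ j + ψ k ≠ α • x1 + β • x2 := by
    intro j k hjk hg α β he
    refine ao_sum hA.ne1 hA.ne2 hA.ne α β (F j 0 + F k 0) ?_
    rw [← hb j k hjk a ha]
    refine Finset.sum_congr rfl fun y _ => ?_
    rw [hsum j k y, hg, he]
    simp only [LinearMap.add_apply, LinearMap.smul_apply, smul_eq_mul]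
    congr 1
    ring
  have hinj : Function.Injective ψ := by
    intro j k hjk
    by_contra hne
    have e0 : ψ j + ψ k = 0 := by
      rw [hjk]
      ext x
      exact z2_add_self _
    rcases z2_cases (γ j k a) with hg | hg
    · have e1 := hb j k hne a ha
      rw [Finset.sum_congr rfl fun y _ => by
        rw [hsum j k y, hg, e0, zero_mul, LinearMap.zero_apply, zero_add, zero_add],
        Finset.sum_const, Finset.card_univ, nsmul_eq_mul] at e1
      have h7 : ((Fintype.card V : ℕ) : ℤ) ≠ 0 := by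
        have : 0 < Fintype.card V := Fintype.card_pos
        exact_mod_cast this.ne'
      have h8 : sg (F j 0 + F k 0) ≠ 0 := by
        generalize F j 0 + F k 0 = t
        revert t
        decide
      exact mul_ne_zero h7 h8 e1
    · exact hsp j k hne hg 0 0 (by rw [e0, zero_smul, zero_smul, add_zero])
  have hFi : ∀ y, F i y = 0 := by
    intro y
    rw [hF]
    simp only [Pi.add_apply, hγi, zero_mul, add_zero, fun_add_self]
    rw [D_apply]
    simp
  have hψi : ψ i = 0 := by
    ext x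
    rw [← hψD i x 0, D_apply, hFi, hFi]
    simp
  have hνs : ∃ α β : ZMod 2, ν = α • x1 + β • x2 := by
    rcases hν with rfl | rfl | rfl
    · exact ⟨1, 0, by simp⟩
    · exact ⟨0, 1, by simp⟩
    · exact ⟨1, 1, by simp⟩
  obtain ⟨α, β, hαβ⟩ := hνs
  have hνa : ν a = 0 := by
    rw [hαβ]
    simp [h1, h2]
  -- bijectivity
  let ψ' : I → LinearMap.ker (Module.Dual.eval (ZMod 2) V a) := fun j => ⟨ψ j, by
    rw [LinearMap.mem_ker]
    exact hψa j⟩
  have hinj' : Function.Injective ψ' := fun j k h => hinj (congrArg Subtype.val h)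
  have hfin : Finite (LinearMap.ker (Module.Dual.eval (ZMod 2) V a)) :=
    Module.finite_of_finite (ZMod 2)
  have hbij : Function.Bijective ψ' := by
    rw [Nat.bijective_iff_injective_and_card]
    refine ⟨hinj', ?_⟩
    rw [ao_card hm hV ha, Nat.card_eq_fintype_card, hI]
  obtain ⟨j, hj⟩ := hbij.2 ⟨ν, by
    rw [LinearMap.mem_ker]
    exact hνa⟩
  have hj' : ψ j = ν := congrArg Subtype.val hj
  have hF0 : ∀ k, γ i k a = 0 → F k = D a (g i + g k) := by
    intro k hk
    rw [hF]
    funext y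
    simp only [Pi.add_apply, hk, zero_mul, add_zero]
  have hgj : γ i j a = 0 := by
    rcases z2_cases (γ i j a) with h | h
    · exact h
    · exfalso
      have hij : i ≠ j := by
        rintro rfl
        rw [hγi] at h
        exact absurd h (by decide)
      exact hsp i j hij h α β (by rw [hψi, zero_add, hj', hαβ])
  refine ⟨j, fun x z => ?_, fun k hk => ?_⟩
  · rw [← hF0 j hgj, hψD, hj']
  · have hgk : γ i k a = 0 := by
      rw [hγ i k, D_apply, hk, hk]
      exact z2_add_self _
    apply hinj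
    rw [hj']
    ext x
    rw [← hψD k x 0, hF0 k hgk]
    exact hk x 0

end Pool.Agent.Krd
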