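import Pool.Agent.Krd.Bil

/-!
# Krd KR4: parity

`V` finite vector space over `ZMod 2`, `U ≤ rad f`, `R = U ⊓ orth f U`. Then
`finrank U + finrank R` is even.

This is the evenness of the rank of the alternating form `B` restricted to `U × U` (`B` from
`exists_bil`, `bil_self`), whose radical is `R`. Either use Mathlib (rank of an alternating form) or:
Proof by induction on `finrank U`. If `B u v = 0` for all `u, v ∈ U` then `R = U`, clear. Otherwise
take `u, v ∈ U` with `B u v = 1` and put `U' = {x ∈ U | B x u = 0 ∧ B x v = 0}`. Then
`U = <u, v> ⊕ U'` (every `x ∈ U` equals `B x v • u + B x u • v + x'`), `finrank U' = finrank U - 2`,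
`U' ≤ rad f` and `U' ⊓ orth f U' = U ⊓ orth f U` (an element of `U'` orthogonal to `U'` is orthogonal
to `u`, `v` too). Apply induction.
Alternative: choose a linear functional `l` on `U` with `l r = f r + f 0` for `r ∈ R` (on `R` the
function `q r = f r + f 0` is additive) and put `S = ∑ u : U, sg (f u + f 0 + l u)`. Then
`S * S = ∑ u v, sg (q u + q (u + v) + l v) = ∑ v, sg (q v + l v) * ∑ u, sg (B u v)
= card U * ∑ v : R, sg (q v + l v) = card U * card R = 2 ^ (finrank U + finrank R)`, a square, so the
exponent is even.
-/

set_option autoImplicit false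
set_option linter.unusedSectionVars false

namespace Pool.Agent.Krd

private theorem even_aux {K : Type*} [Field K] (n : ℕ) : ∀ (W : Type*) [AddCommGroup W]
    [Module K W] [FiniteDimensional K W] (β : W →ₗ[K] W →ₗ[K] K), (∀ x, β x x = 0) →
    Module.finrank K W = n →
    Even (Module.finrank K W + Module.finrank K (LinearMap.ker β)) := by
  induction n using Nat.strong_induction_on with
  | _ n ih =>
    intro W _ _ _ β hβ hn
    have hsk : ∀ x y, β x y = -β y x := by
      intro x y
      have h := hβ (x + y)
      simp only [map_add, LinearMap.add_apply, hβ, zero_add, add_zero] at h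
      exact eq_neg_of_add_eq_zero_right h
    by_cases h0 : β = 0
    · rw [h0, LinearMap.ker_zero, finrank_top]
      exact ⟨_, rfl⟩
    · obtain ⟨u, hu⟩ : ∃ u, β u ≠ 0 := by
        by_contra hcon
        push Not at hcon
        exact h0 (LinearMap.ext hcon)
      obtain ⟨v, hv⟩ : ∃ v, β u v ≠ 0 := by
        by_contra hcon
        push Not at hcon
        exact hu (LinearMap.ext hcon)
      have hv' : β v u = -β u v := hsk v u
      set φ : W →ₗ[K] K × K := (β u).prod (β v) with hφ
      have hφa : ∀ x, φ x = (β u x, β v x) := fun x => rfl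
      have hsurj : Function.Surjective φ := by
        rintro ⟨a, b⟩
        refine ⟨(a / β u v) • v - (b / β u v) • u, ?_⟩
        rw [hφa]
        simp only [map_sub, map_smul, smul_eq_mul, hβ, mul_zero, sub_zero, zero_sub, hv']
        refine Prod.ext ?_ ?_
        · simp only
          field_simp
        · simp only
          field_simp
      have hrk := LinearMap.finrank_range_add_finrank_ker φ
      rw [LinearMap.range_eq_top.2 hsurj, finrank_top, Module.finrank_prod,
        Module.finrank_self] at hrk
      set W' := LinearMap.ker φ with hW'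
      have hW'm : ∀ x, x ∈ W' ↔ β u x = 0 ∧ β v x = 0 := by
        intro x
        rw [hW', LinearMap.mem_ker, hφa, Prod.mk_eq_zero]
      set γ : W' →ₗ[K] W' →ₗ[K] K := β.domRestrict₁₂ W' W' with hγ
      have hγa : ∀ x y : W', γ x y = β (x : W) (y : W) := fun x y => rfl
      have h1 := ih (Module.finrank K W') (by omega) W' γ (fun x => hβ x) rfl
      have hker : (LinearMap.ker γ).map W'.subtype = LinearMap.ker β := by
        ext x
        rw [Submodule.mem_map, LinearMap.mem_ker]
        constructor
        · rintro ⟨⟨z, hz⟩, hz1, rfl⟩
          rw [LinearMap.mem_ker] at hz1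
          have hz' := (hW'm z).1 hz
          refine LinearMap.ext fun w => ?_
          change β z w = 0
          obtain ⟨a, b, hw⟩ : ∃ a b : K, w - (a • v - b • u) ∈ W' := by
            refine ⟨β u w / β u v, β v w / β u v, ?_⟩
            rw [hW'm]
            simp only [map_sub, map_smul, smul_eq_mul, hβ, mul_zero, sub_zero, zero_sub, hv']
            constructor
            · field_simp
              ring
            · field_simp
              ring
          have h2 : β z (w - (a • v - b • u)) = 0 := by
            have h3 := LinearMap.congr_fun hz1 ⟨_, hw⟩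
            exact h3
          have h4 : β z u = 0 := by rw [hsk, hz'.1, neg_zero]
          have h5 : β z v = 0 := by rw [hsk, hz'.2, neg_zero]
          rw [map_sub, map_sub, map_smul, map_smul, h4, h5, smul_zero, smul_zero, sub_zero,
            sub_zero] at h2
          exact h2
        · intro hx
          have hxW : x ∈ W' := by
            rw [hW'm, hsk u x, hsk v x, hx]
            simp
          refine ⟨⟨x, hxW⟩, ?_, rfl⟩
          rw [LinearMap.mem_ker]
          refine LinearMap.ext fun y => ?_
          rw [hγa]
          change β x y = 0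
          rw [hx]
          rfl
      have hfr : Module.finrank K (LinearMap.ker β) = Module.finrank K (LinearMap.ker γ) := by
        rw [← hker, Submodule.finrank_map_subtype_eq]
      rw [hfr]
      have h6 : Module.finrank K W + Module.finrank K (LinearMap.ker γ) =
          (Module.finrank K W' + Module.finrank K (LinearMap.ker γ)) + 2 := by omega
      rw [h6]
      exact h1.add (by decide)

variable {V : Type*} [AddCommGroup V] [Module (ZMod 2) V] [Fintype V]

theorem even_finrank {f : V → ZMod 2} {U : Submodule (ZMod 2) V} (hU : U ≤ rad f) :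
    Even (Module.finrank (ZMod 2) U + Module.finrank (ZMod 2) ↥(U ⊓ orth f U)) := by
  obtain ⟨B, hB⟩ := exists_bil hU
  set β : U →ₗ[ZMod 2] U →ₗ[ZMod 2] ZMod 2 := B.compl₂ U.subtype with hβ
  have hβa : ∀ u v : U, β u v = B u (v : V) := fun u v => rfl
  have h1 := even_aux (Module.finrank (ZMod 2) U) U β (fun u => bil_self hB u) rfl
  have hker : (LinearMap.ker β).map U.subtype = U ⊓ orth f U := by
    ext x
    rw [Submodule.mem_map, Submodule.mem_inf, mem_orth]
    constructor
    · rintro ⟨u, hu, rfl⟩
      refine ⟨u.2, fun w hw y => ?_⟩
      rw [LinearMap.mem_ker] at hu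
      have h2 := hB ⟨w, hw⟩ (u : V) y
      have h3 : B ⟨w, hw⟩ (u : V) = B u (w : V) := bil_symm hB ⟨w, hw⟩ u
      have h4 := LinearMap.congr_fun hu ⟨w, hw⟩
      rw [hβa] at h4
      change D (u : V) (D w f) y = 0
      rw [h2, h3]
      exact h4
    · rintro ⟨hx, hx'⟩
      refine ⟨⟨x, hx⟩, ?_, rfl⟩
      rw [LinearMap.mem_ker]
      refine LinearMap.ext fun w => ?_
      have h2 := hB w x 0
      rw [hx' w w.2 0] at h2
      rw [hβa]
      have h3 : B ⟨x, hx⟩ (w : V) = B w x := bil_symm hB ⟨x, hx⟩ w
      rw [h3, ← h2]
      rfl
  rw [← hker, Submodule.finrank_map_subtype_eq]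
  exact h1

end Pool.Agent.Krd
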