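import Pool.Agent.Krd.Key
import Pool.Agent.Krd.Parity

/-! # Krd KR6: codimension three

`finrank V = 2 * m`, `f` bent, `U ≤ rad f`, `finrank V = finrank U + 3`. If `f` is not `Quad` then
`orth f U ≤ U`.

Proof. `W = orth f U` has dimension 3 (`finrank_orth`), `R = U ⊓ W`, `d = finrank R`. By
`even_finrank` and `finrank U = 2 * m - 3` odd, `d` is odd, so `d = 1` or `d = 3`. If `d = 3` then
`R = W` and `W ≤ U`. Suppose `d = 1`; we show `Quad f`. Choose `w ∈ W`, `w ∉ U`, and `w₂ ∈ W` such
that `W = R + <w, w₂>` (dimension 3). By `key_sum`, for every `y`: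
`0 = ∑ w' : W, sg (D w f (y + w'))`. The function `D w f` is invariant under `R ≤ U`
(`D r (D w f) = D w (D r f) = 0`) and under `w` (`D_shift`), and `W / (R + <w>)` has two elements,
so the sum is `4 * (sg (D w f y) + sg (D w f (y + w₂)))`. Hence `D w₂ (D w f) y = 1` for all `y`. In
particular for all `a`: `D a (D w₂ (D w f)) = 0`. Put `X = U ⊔ W`, of dimension
`finrank U + 3 - 1 = finrank V - 1`. Claim: for `x, x' ∈ X` and all `a, z`:
`D a (D x (D x' f)) z = 0`. Indeed for `x ∈ U` or `x' ∈ U` this holds since `U ≤ rad f`, for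
`x, x' ∈ <w, w₂>` it was just shown (`D_self`, `D_comm`), and `D a (D · (D · f)) z` is additive in
each of the two directions when the rest vanishes (use `D_add_dir`; all third derivatives
`D a D x D x' f` with `x, x'` in the spanning set vanish identically, so shifts of the argument do
not matter; formally: the set of `x` with `∀ x' ∈ S, ∀ a z, D a (D x (D x' f)) z = 0` is a
subspace). Finally `Quad f`: let `e ∉ X`, so every vector is in `X` or in `e + X`. For `b, c ∉ X`:
`c = b + x` with `x ∈ X` and `D b (D c f) z = D b (D b f) (z + x) + D b (D x f) z = D b (D x f) z`.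
So a third derivative `D a (D b (D c f))` may be rewritten with at least one direction in `X` (if
all three are outside) and then again (if the remaining two are outside) until two of the directions
are in `X`. -/

set_option autoImplicit false
set_option linter.unusedSectionVars false

namespace Pool.Agent.Krd

variable {V : Type*} [AddCommGroup V] [Module (ZMod 2) V] [Fintype V]

/-- the directions in which `g` is invariant -/
private def inv (g : V → ZMod 2) : Submodule (ZMod 2) V where
  carrier := {c | ∀ z, D c g z = 0}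
  zero_mem' := fun z => D_zero g z
  add_mem' := by
    intro c c' hc hc' z
    rw [D_add_dir, hc, hc', add_zero]
  smul_mem' := by
    intro r c hc
    rcases z2_cases r with rfl | rfl
    · rw [zero_smul]
      exact fun z => D_zero g z
    · rwa [one_smul]

/-- the directions in which the derivative of `g` is constant -/
private def cst (g : V → ZMod 2) : Submodule (ZMod 2) V where
  carrier := {c | ∀ a z, D a (D c g) z = 0}
  zero_mem' := by
    intro a z
    rw [D_comm]
    exact D_zero _ z
  add_mem' := by
    intro c c' hc hc' a z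
    have h1 := hc a (z + c')
    have h2 := hc' a z
    rw [D_apply] at h1 h2 ⊢
    rw [D_add_dir, D_add_dir, add_right_comm z a c']
    linear_combination h1 + h2
  smul_mem' := by
    intro r c hc
    rcases z2_cases r with rfl | rfl
    · rw [zero_smul]
      intro a z
      rw [D_comm]
      exact D_zero _ z
    · rwa [one_smul]

private theorem mem_inv {g : V → ZMod 2} {c : V} : c ∈ inv g ↔ ∀ z, D c g z = 0 := Iff.rfl

private theorem mem_cst {g : V → ZMod 2} {c : V} : c ∈ cst g ↔ ∀ a z, D a (D c g) z = 0 :=
  Iff.rfl

private theorem D_fun_zero {g : V → ZMod 2} (h : ∀ z, g z = 0) (a z : V) : D a g z = 0 := by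
  rw [D_apply, h, h, add_zero]

private theorem quad_of_gen {f : V → ZMod 2} {X : Submodule (ZMod 2) V} {e : V}
    (hXe : ∀ M : Submodule (ZMod 2) V, X ≤ M → e ∈ M → M = ⊤)
    (hX : ∀ x ∈ X, ∀ x' ∈ X, ∀ a z, D a (D x (D x' f)) z = 0) : Quad f := by
  have ss : ∀ x : V, ∀ z, D x (D e (D e f)) z = 0 := fun x z =>
    D_fun_zero (fun z => D_self e f z) x z
  have c1 : ∀ x ∈ X, ∀ c z, D c (D x (D e f)) z = 0 := by
    intro x hx c
    have h1 : inv (D x (D e f)) = ⊤ := by
      apply hXe
      · intro x' hx' z
        rw [D_comm x e f, D_comm x' e]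
        exact hX x' hx' x hx e z
      · intro z
        rw [D_comm e x (D e f)]
        exact ss x z
    have h2 : c ∈ inv (D x (D e f)) := by
      rw [h1]
      exact Submodule.mem_top
    exact h2
  have c2 : ∀ x ∈ X, ∀ c b z, D b (D x (D c f)) z = 0 := by
    intro x hx c b
    have h1 : inv (D x (D c f)) = ⊤ := by
      apply hXe
      · intro x' hx' z
        rw [D_comm x c f, D_comm x' c]
        exact hX x' hx' x hx c z
      · intro z
        rw [D_comm e x (D c f), D_comm e c f, D_comm x c (D e f)]
        exact c1 x hx c z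
    have h2 : b ∈ inv (D x (D c f)) := by
      rw [h1]
      exact Submodule.mem_top
    exact h2
  have c3 : ∀ c b z, D b (D e (D c f)) z = 0 := by
    intro c b
    have h1 : inv (D e (D c f)) = ⊤ := by
      apply hXe
      · intro x hx z
        rw [D_comm x e (D c f)]
        exact c2 x hx c e z
      · intro z
        exact D_self e (D c f) z
    have h2 : b ∈ inv (D e (D c f)) := by
      rw [h1]
      exact Submodule.mem_top
    exact h2
  intro a b c
  have h1 : inv (D b (D c f)) = ⊤ := by
    apply hXe
    · intro x hx z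
      rw [D_comm x b (D c f)]
      exact c2 x hx c b z
    · intro z
      rw [D_comm e b (D c f)]
      exact c3 c b z
  have h2 : a ∈ inv (D b (D c f)) := by
    rw [h1]
    exact Submodule.mem_top
  exact h2

theorem orth_le_of_not_quad {m : ℕ} (hV : Module.finrank (ZMod 2) V = 2 * m) {f : V → ZMod 2}
    (hf : Bent f) {U : Submodule (ZMod 2) V} (hU : U ≤ rad f)
    (hc : Module.finrank (ZMod 2) V = Module.finrank (ZMod 2) U + 3) (hq : ¬ Quad f) :
    orth f U ≤ U := by
  classical
  have hWd := finrank_orth hf hU
  set W := orth f U with hWdef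
  have hW3 : Module.finrank (ZMod 2) W = 3 := by omega
  have hpar := even_finrank hU
  rw [← hWdef] at hpar
  have hRW : Module.finrank (ZMod 2) ↥(U ⊓ W) ≤ 3 := by
    rw [← hW3]
    exact Submodule.finrank_mono inf_le_right
  by_contra hnot
  -- the intersection has dimension one
  have hR1 : Module.finrank (ZMod 2) ↥(U ⊓ W) = 1 := by
    have hne : Module.finrank (ZMod 2) ↥(U ⊓ W) ≠ 3 := by
      intro h3
      apply hnot
      have h4 : U ⊓ W = W :=
        Submodule.eq_of_le_of_finrank_eq inf_le_right (by rw [h3, hW3])
      rw [← h4]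
      exact inf_le_left
    obtain ⟨k, hk⟩ := hpar
    omega
  obtain ⟨w, hw, hwU⟩ := SetLike.not_le_iff_exists.1 hnot
  -- the plane `R + <w>`
  set S := (U ⊓ W) ⊔ Submodule.span (ZMod 2) {w} with hSdef
  have hSW : S ≤ W := sup_le inf_le_right ((Submodule.span_singleton_le_iff_mem _ _).2 hw)
  have hwS : w ∈ S := Submodule.mem_sup_right (Submodule.mem_span_singleton_self w)
  have hRS : U ⊓ W ≤ S := le_sup_left
  have hS2 : Module.finrank (ZMod 2) S = 2 := by
    have h1 : Module.finrank (ZMod 2) S ≤ 2 := by
      have h2 := Submodule.finrank_add_le_finrank_add_finrank (U ⊓ W)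
        (Submodule.span (ZMod 2) {w})
      have hw0 : w ≠ 0 := by
        rintro rfl
        exact hwU U.zero_mem
      have h3 := finrank_span_singleton (K := ZMod 2) hw0
      rw [hR1] at h2
      exact h2.trans (by omega)
    have h2 : Module.finrank (ZMod 2) ↥(U ⊓ W) < Module.finrank (ZMod 2) S := by
      apply Submodule.finrank_lt_finrank_of_lt
      refine lt_of_le_of_ne hRS ?_
      intro h3
      apply hwU
      rw [← h3] at hwS
      exact hwS.1
    omega
  have hSW' : ¬ W ≤ S := by
    intro h
    have := Submodule.finrank_mono h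
    omega
  obtain ⟨w₂, hw₂, hw₂S⟩ := SetLike.not_le_iff_exists.1 hSW'
  have hWtop : ∀ M : Submodule (ZMod 2) V, S ≤ M → w₂ ∈ M → W ≤ M := by
    intro M hM1 hM2
    have h1 : S ⊔ Submodule.span (ZMod 2) {w₂} = W := by
      apply Submodule.eq_of_le_of_finrank_le
      · exact sup_le hSW ((Submodule.span_singleton_le_iff_mem _ _).2 hw₂)
      · have h2 : Module.finrank (ZMod 2) S <
            Module.finrank (ZMod 2) ↥(S ⊔ Submodule.span (ZMod 2) {w₂}) := by
          apply Submodule.finrank_lt_finrank_of_lt
          refine lt_of_le_of_ne le_sup_left ?_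
          intro h3
          apply hw₂S
          rw [h3]
          exact Submodule.mem_sup_right (Submodule.mem_span_singleton_self w₂)
        omega
    rw [← h1]
    exact sup_le hM1 ((Submodule.span_singleton_le_iff_mem _ _).2 hM2)
  -- cosets
  have hcos : ∀ v ∈ W, v ∉ S → v + w₂ ∈ S := by
    intro v hv hvS
    have h1 : S ⊔ Submodule.span (ZMod 2) {w₂} = W := by
      apply le_antisymm
      · exact sup_le hSW ((Submodule.span_singleton_le_iff_mem _ _).2 hw₂)
      · exact hWtop _ le_sup_left
          (Submodule.mem_sup_right (Submodule.mem_span_singleton_self w₂))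
    rw [← h1, Submodule.mem_sup] at hv
    obtain ⟨x, hx, y, hy, rfl⟩ := hv
    obtain ⟨c, rfl⟩ := Submodule.mem_span_singleton.1 hy
    rcases z2_cases c with rfl | rfl
    · rw [zero_smul, add_zero] at hvS
      exact absurd hx hvS
    · rw [one_smul, add_assoc, add_self', add_zero]
      exact hx
  -- invariance
  have hinvS : S ≤ inv (D w f) := by
    refine sup_le ?_ ((Submodule.span_singleton_le_iff_mem _ _).2 ?_)
    · intro r hr z
      rw [D_comm]
      exact hw r hr.1 z
    · intro z
      exact D_self w f z
  have hone : ∀ y, D w₂ (D w f) y = 1 := by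
    intro y
    have hsum := key_sum hf hU hw hwU y
    have hval : ∀ v : W, sg (D w f (y + (v : V))) =
        if (v : V) ∈ S then sg (D w f y) else sg (D w f (y + w₂)) := by
      intro v
      by_cases hv : (v : V) ∈ S
      · rw [if_pos hv, shift_eq (v : V) (D w f) y, hinvS hv y, add_zero]
      · rw [if_neg hv]
        have h1 := hcos v v.2 hv
        have h2 : y + (v : V) = y + w₂ + ((v : V) + w₂) := by
          have h3 : y + w₂ + ((v : V) + w₂) = y + (v : V) + (w₂ + w₂) := by abel
          rw [h3, add_self', add_zero]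
        rw [h2, shift_eq ((v : V) + w₂) (D w f) (y + w₂), hinvS h1 (y + w₂), add_zero]
    rw [Finset.sum_congr rfl (fun v _ => hval v), Finset.sum_ite, Finset.sum_const,
      Finset.sum_const] at hsum
    have hcW : Fintype.card W = 8 := by
      have h := Module.card_eq_pow_finrank (K := ZMod 2) (V := W)
      rw [hW3, ZMod.card] at h
      exact h
    have hcS : Fintype.card S = 4 := by
      have h := Module.card_eq_pow_finrank (K := ZMod 2) (V := S)
      rw [hS2, ZMod.card] at h
      exact h
    have hc1 : (Finset.univ.filter fun v : W => (v : V) ∈ S).card = 4 := by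
      rw [← hcS]
      refine Finset.card_bij' (s := Finset.univ.filter fun v : W => (v : V) ∈ S)
        (t := (Finset.univ : Finset S))
        (fun v hv => ⟨(v : V), (Finset.mem_filter.1 hv).2⟩)
        (fun v _ => ⟨(v : V), hSW v.2⟩) ?_ ?_ ?_ ?_
      · intro v _; exact Finset.mem_univ _
      · intro v _; exact Finset.mem_filter.2 ⟨Finset.mem_univ _, v.2⟩
      · intro v _; rfl
      · intro v _; rfl
    have hc2 : (Finset.univ.filter fun v : W => ¬ (v : V) ∈ S).card = 4 := by
      have h := Finset.card_filter_add_card_filter_not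
        (s := (Finset.univ : Finset W)) (fun v : W => (v : V) ∈ S)
      rw [hc1, Finset.card_univ, hcW] at h
      omega
    rw [hc1, hc2] at hsum
    rw [D_apply]
    rcases z2_cases (D w f y) with h1 | h1 <;> rcases z2_cases (D w f (y + w₂)) with h2 | h2
    · rw [h1, h2] at hsum
      simp [sg] at hsum
    · rw [h1, h2, zero_add]
    · rw [h1, h2, add_zero]
    · rw [h1, h2] at hsum
      simp [sg] at hsum
  have hcross : ∀ a z, D a (D w₂ (D w f)) z = 0 := by
    intro a z
    rw [D_apply, hone, hone]
    exact z2_add_self 1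
  have hUc : ∀ x : V, U ≤ cst (D x f) := by
    intro x u hu a z
    rw [D_comm u x f]
    exact mem_rad.1 (hU hu) a x z
  have hSc : ∀ x : V, w ∈ cst (D x f) → w₂ ∈ cst (D x f) → U ⊔ W ≤ cst (D x f) := by
    intro x h1 h2
    refine sup_le (hUc x) (hWtop _ ?_ h2)
    exact sup_le (inf_le_left.trans (hUc x)) ((Submodule.span_singleton_le_iff_mem _ _).2 h1)
  have hXw : U ⊔ W ≤ cst (D w f) :=
    hSc w (fun a z => D_fun_zero (fun z => D_self w f z) a z) hcross
  have hXw₂ : U ⊔ W ≤ cst (D w₂ f) := by
    refine hSc w₂ (fun a z => ?_) (fun a z => D_fun_zero (fun z => D_self w₂ f z) a z)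
    rw [D_comm w w₂ f]
    exact hcross a z
  have hX : ∀ x ∈ U ⊔ W, ∀ x' ∈ U ⊔ W, ∀ a z, D a (D x (D x' f)) z = 0 := by
    intro x hx x' hx'
    have h1 : U ⊔ W ≤ cst (D x' f) := by
      refine hSc x' (fun a z => ?_) (fun a z => ?_)
      · rw [D_comm w x' f]
        exact hXw hx' a z
      · rw [D_comm w₂ x' f]
        exact hXw₂ hx' a z
    exact h1 hx
  have hXd : Module.finrank (ZMod 2) ↥(U ⊔ W) + 1 = Module.finrank (ZMod 2) V := by
    have h := Submodule.finrank_sup_add_finrank_inf_eq U W
    omega
  have hXne : U ⊔ W ≠ ⊤ := by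
    intro h
    rw [h, finrank_top] at hXd
    omega
  obtain ⟨e, he⟩ : ∃ e, e ∉ U ⊔ W := by
    by_contra hcon
    push Not at hcon
    exact hXne (Submodule.eq_top_iff'.2 hcon)
  apply hq
  refine quad_of_gen (X := U ⊔ W) (e := e) ?_ hX
  intro M hM heM
  have h1 : Module.finrank (ZMod 2) ↥(U ⊔ W) < Module.finrank (ZMod 2) M := by
    apply Submodule.finrank_lt_finrank_of_lt
    refine lt_of_le_of_ne hM ?_
    intro h
    apply he
    rw [h]
    exact heM
  apply Submodule.eq_top_of_finrank_eq
  have h2 := Submodule.finrank_le M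
  omega

end Pool.Agent.Krd
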