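import Pool.Agent.Krd.DefsA
import Pool.Agent.Krd.QThree

/-!
# Krd KR15: zero or three directions for every pair

`finrank V = 2 * m`, all `g i + g j` (`i ≠ j`) bent, `IsA g x1 x2 γ`, `i ≠ j`. Let `S` be the set of all
`a` with `x1 a = x2 a = 0` for which there is `ν ∈ {x1, x2, x1 + x2}` with
`D x (D a (g i + g j)) z = ν x` for all `x, z`. Then `S` has three elements, or `S` is empty and
`g i + g j` is `Quad`.

Proof. `f = g i + g j`. Note that `a ∈ S` implies `a ∈ rad f` and `a ≠ 0`.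
Case 1: `f` is not `Quad`. `U = rad f = {a | x1 a = 0 ∧ x2 a = 0 ∧ γ i j a = 0}` (`rad_iff`) has
codimension at most 3; if it were at most 2 then `f` would be `Quad` (or: use
`quad`: `γ i j` does not vanish on `ker x1 ⊓ ker x2`), so it is 3. By `orth_le_of_not_quad`,
`W = orth f U ≤ U`, `finrank W = 3` (`finrank_orth`). With `B` from `exists_bil`: for `w ∈ W` the
functional `B w` vanishes on `U`; `B` is injective (`bil_ne_zero`), and the functionals vanishing on `U`
form a space of dimension 3, so `w ↦ B w` is a bijection from `W` onto it. `x1, x2, x1 + x2` vanish on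
`U`, so there are `w` in `W` with `B w = ν` for each of the three `ν`. Elements of `S` lie in
`rad f = U` and by injectivity of `B` on `U` they are exactly these three elements (all elements of
`U` satisfy `x1 a = x2 a = 0`).
Case 2: `f` is `Quad`: `rad f = ⊤`, `B` (for `U = ⊤`) is injective `V → Dual V`, hence bijective. Let
`B a1 = x1`, `B a2 = x2`; `B (a1 + a2) = x1 + x2`. `x1 a1 = B a1 a1 = 0`, `x2 a2 = 0`,
`x1 a2 = B a1 a2 = B a2 a1 = x2 a1 =: β`. If `β = 0` then `S = {a1, a2, a1 + a2}`. If `β = 1` then `S` is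
empty: `x2 a1 = 1`, `x1 a2 = 1`, `x1 (a1 + a2) = 1`.
-/

set_option autoImplicit false
set_option linter.unusedSectionVars false

namespace Pool.Agent.Krd

variable {V : Type*} [AddCommGroup V] [Module (ZMod 2) V] [Fintype V]
variable {I : Type*}

private theorem exists_one_zero {x1 x2 : V →ₗ[ZMod 2] ZMod 2} (h1 : x1 ≠ 0) (h : x1 ≠ x2) :
    ∃ b, x1 b = 1 ∧ x2 b = 0 := by
  have hv : ∃ v, x1 v ≠ x2 v := by
    by_contra hc
    push Not at hc
    exact h (LinearMap.ext hc)
  have hw : ∃ w, x1 w = 1 := by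
    by_contra hc
    push Not at hc
    refine h1 (LinearMap.ext fun w => ?_)
    rcases z2_cases (x1 w) with h2 | h2
    · exact h2
    · exact absurd h2 (hc w)
  obtain ⟨v, hv⟩ := hv
  obtain ⟨w, hw⟩ := hw
  rcases z2_cases (x1 v) with a | a <;> rcases z2_cases (x2 v) with b | b
  · exact absurd (a.trans b.symm) hv
  · rcases z2_cases (x2 w) with c | c
    · exact ⟨w, hw, c⟩
    · refine ⟨v + w, ?_, ?_⟩
      · rw [map_add, a, hw, zero_add]
      · rw [map_add, b, c]
        rfl
  · exact ⟨v, a, b⟩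
  · exact absurd (a.trans b.symm) hv

private theorem finrank_three {x1 x2 γ : V →ₗ[ZMod 2] ZMod 2} (h1 : x1 ≠ 0) (h2 : x2 ≠ 0)
    (h : x1 ≠ x2) {a : V} (ha1 : x1 a = 0) (ha2 : x2 a = 0) (ha : γ a ≠ 0)
    {U : Submodule (ZMod 2) V} (hU : ∀ a, a ∈ U ↔ x1 a = 0 ∧ x2 a = 0 ∧ γ a = 0) :
    Module.finrank (ZMod 2) V = Module.finrank (ZMod 2) U + 3 := by
  have hγ : γ a = 1 := (z2_cases (γ a)).resolve_left ha
  obtain ⟨b, hb1, hb2⟩ := exists_one_zero h1 h
  obtain ⟨c, hc2, hc1⟩ := exists_one_zero h2 h.symm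
  let T : V →ₗ[ZMod 2] (ZMod 2 × ZMod 2 × ZMod 2) := x1.prod (x2.prod γ)
  have hker : LinearMap.ker T = U := by
    ext v
    rw [LinearMap.mem_ker, hU]
    change (x1 v, x2 v, γ v) = ((0 : ZMod 2), (0 : ZMod 2), (0 : ZMod 2)) ↔ _
    rw [Prod.mk.injEq, Prod.mk.injEq]
  have hsurj : Function.Surjective T := by
    rintro ⟨p, q, r⟩
    refine ⟨p • b + q • c + (r - p * γ b - q * γ c) • a, ?_⟩
    change (x1 _, x2 _, γ _) = _
    simp only [map_add, map_smul, smul_eq_mul, hb1, hb2, hc1, hc2, ha1, ha2, hγ]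
    refine Prod.ext ?_ (Prod.ext ?_ ?_)
    · change p * 1 + q * 0 + _ * 0 = p
      ring
    · change p * 0 + q * 1 + _ * 0 = q
      ring
    · change p * γ b + q * γ c + _ * 1 = r
      ring
  have h3 := LinearMap.finrank_range_add_finrank_ker T
  rw [LinearMap.range_eq_top.2 hsurj, finrank_top, hker] at h3
  have h4 : Module.finrank (ZMod 2) (ZMod 2 × ZMod 2 × ZMod 2) = 3 := by
    rw [Module.finrank_prod, Module.finrank_prod, Module.finrank_self]
  omega

theorem card_directions {m : ℕ} (hV : Module.finrank (ZMod 2) V = 2 * m)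
    (g : I → V → ZMod 2) (hb : ∀ i j, i ≠ j → Bent (g i + g j)) {x1 x2 : V →ₗ[ZMod 2] ZMod 2}
    {γ : I → I → V →ₗ[ZMod 2] ZMod 2} (hA : IsA g x1 x2 γ) {i j : I} (hij : i ≠ j) :
    Nat.card {a : V // x1 a = 0 ∧ x2 a = 0 ∧ ∃ ν : V →ₗ[ZMod 2] ZMod 2,
      (ν = x1 ∨ ν = x2 ∨ ν = x1 + x2) ∧ ∀ x z, D x (D a (g i + g j)) z = ν x} = 3 ∨
    (Nat.card {a : V // x1 a = 0 ∧ x2 a = 0 ∧ ∃ ν : V →ₗ[ZMod 2] ZMod 2,
      (ν = x1 ∨ ν = x2 ∨ ν = x1 + x2) ∧ ∀ x z, D x (D a (g i + g j)) z = ν x} = 0 ∧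
      Quad (g i + g j)) := by
  have hf : Bent (g i + g j) := hb i j hij
  have hrad := hA.rad_iff i j
  have hqu := hA.quad i j
  generalize g i + g j = f at hf hrad hqu
  obtain ⟨B, hB⟩ := exists_bil (le_refl (rad f))
  have hinj : Function.Injective B := by
    rw [← LinearMap.ker_eq_bot, LinearMap.ker_eq_bot']
    intro u hu
    by_contra h
    exact bil_ne_zero hf hB h hu
  have hco : (LinearMap.range B).dualCoannihilator = orth f (rad f) := by
    ext w
    rw [Submodule.mem_dualCoannihilator, mem_orth]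
    constructor
    · intro h u hu y
      have h2 := hB ⟨u, hu⟩ w y
      rw [h2]
      exact h _ ⟨_, rfl⟩
    · rintro h _ ⟨u, rfl⟩
      rw [← hB u w 0]
      exact h u u.2 0
  have hrange : LinearMap.range B = (orth f (rad f)).dualAnnihilator := by
    rw [← hco, Subspace.dualCoannihilator_dualAnnihilator_eq]
  have horth : ∀ ν : V →ₗ[ZMod 2] ZMod 2, (ν = x1 ∨ ν = x2) →
      ∀ w ∈ orth f (rad f), ν w = 0 := by
    intro ν hν w hw
    by_cases hq : Quad f
    · have h1 := finrank_orth hf (le_refl (rad f))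
      have h2 := quad_iff_rad_eq_top.1 hq
      have h3 : orth f (rad f) = ⊥ := by
        rw [← Submodule.finrank_eq_zero (R := ZMod 2)]
        rw [h2, finrank_top] at h1
        rw [h2]
        omega
      rw [h3, Submodule.mem_bot] at hw
      rw [hw, map_zero]
    · have h2 : ∃ a, x1 a = 0 ∧ x2 a = 0 ∧ γ i j a ≠ 0 := by
        by_contra hc
        push Not at hc
        exact hq (hqu hc)
      obtain ⟨a, ha1, ha2, ha⟩ := h2
      have h3 := orth_le_of_not_quad hV hf le_rfl
        (finrank_three hA.ne1 hA.ne2 hA.ne ha1 ha2 ha (hrad hq)) hq hw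
      have h4 := (hrad hq w).1 h3
      rcases hν with rfl | rfl
      · exact h4.1
      · exact h4.2.1
  have hex : ∀ ν : V →ₗ[ZMod 2] ZMod 2, (ν = x1 ∨ ν = x2) → ∃ u, B u = ν := by
    intro ν hν
    have h1 : ν ∈ LinearMap.range B := by
      rw [hrange, Submodule.mem_dualAnnihilator]
      exact horth ν hν
    exact h1
  obtain ⟨a1, ha1⟩ := hex x1 (Or.inl rfl)
  obtain ⟨a2, ha2⟩ := hex x2 (Or.inr rfl)
  have ha3 : B (a1 + a2) = x1 + x2 := by rw [map_add, ha1, ha2]
  have e1 : x1 a1 = 0 := by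
    rw [← ha1]
    exact bil_self hB a1
  have e2 : x2 a2 = 0 := by
    rw [← ha2]
    exact bil_self hB a2
  have e3 : x1 a2 = x2 a1 := by
    have h1 := bil_symm hB a1 a2
    rwa [ha1, ha2] at h1
  have hval : ∀ a : V, (∃ ν : V →ₗ[ZMod 2] ZMod 2, (ν = x1 ∨ ν = x2 ∨ ν = x1 + x2) ∧
      ∀ x z, D x (D a f) z = ν x) ↔ a = a1 ∨ a = a2 ∨ a = a1 + a2 := by
    intro a
    constructor
    · rintro ⟨ν, hν, h⟩
      have har : a ∈ rad f := by
        intro c b z
        rw [D_apply, h, h, z2_add_self]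
      have hBa : B ⟨a, har⟩ = ν := LinearMap.ext fun x => (hB ⟨a, har⟩ x 0).symm.trans (h x 0)
      rcases hν with h1 | h1 | h1
      · have h2 := hinj ((hBa.trans h1).trans ha1.symm)
        exact Or.inl (congrArg Subtype.val h2)
      · have h2 := hinj ((hBa.trans h1).trans ha2.symm)
        exact Or.inr (Or.inl (congrArg Subtype.val h2))
      · have h2 := hinj ((hBa.trans h1).trans ha3.symm)
        exact Or.inr (Or.inr (congrArg Subtype.val h2))
    · rintro (rfl | rfl | rfl)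
      · exact ⟨x1, Or.inl rfl, fun x z => by rw [hB a1 x z, ha1]⟩
      · exact ⟨x2, Or.inr (Or.inl rfl), fun x z => by rw [hB a2 x z, ha2]⟩
      · exact ⟨x1 + x2, Or.inr (Or.inr rfl), fun x z => by
          have h1 := hB (a1 + a2) x z
          rw [ha3] at h1
          exact h1⟩
  rcases z2_cases (x2 a1) with hβ | hβ
  · left
    rw [← Set.coe_ofPred, Nat.card_coe_set_eq, Set.ncard_eq_three]
    refine ⟨a1, a2, a1 + a2, ?_, ?_, ?_, ?_⟩
    · intro h
      have h1 : a1 = a2 := Subtype.ext h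
      rw [h1, ha2] at ha1
      exact hA.ne ha1.symm
    · intro h
      have h1 : (a2 : V) = 0 := left_eq_add.1 h
      have h2 : a2 = 0 := Subtype.ext h1
      rw [h2, map_zero] at ha2
      exact hA.ne2 ha2.symm
    · intro h
      have h1 : (a1 : V) = 0 := right_eq_add.1 h
      have h2 : a1 = 0 := Subtype.ext h1
      rw [h2, map_zero] at ha1
      exact hA.ne1 ha1.symm
    · ext a
      rw [Set.mem_ofPred_eq, hval a, Set.mem_insert_iff, Set.mem_insert_iff,
        Set.mem_singleton_iff]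
      constructor
      · rintro ⟨-, -, h⟩
        exact h
      · rintro (rfl | rfl | rfl)
        · exact ⟨e1, hβ, Or.inl rfl⟩
        · exact ⟨e3.trans hβ, e2, Or.inr (Or.inl rfl)⟩
        · refine ⟨?_, ?_, Or.inr (Or.inr rfl)⟩
          · rw [map_add, e1, e3, hβ, add_zero]
          · rw [map_add, e2, hβ, add_zero]
  · right
    refine ⟨?_, ?_⟩
    · have hE : IsEmpty {a : V // x1 a = 0 ∧ x2 a = 0 ∧ ∃ ν : V →ₗ[ZMod 2] ZMod 2,
          (ν = x1 ∨ ν = x2 ∨ ν = x1 + x2) ∧ ∀ x z, D x (D a f) z = ν x} := by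
        constructor
        rintro ⟨a, h1, h2, h3⟩
        rw [hval a] at h3
        rcases h3 with rfl | rfl | rfl
        · rw [hβ] at h2
          exact one_ne_zero h2
        · rw [e3, hβ] at h1
          exact one_ne_zero h1
        · rw [map_add, e1, e3, hβ, zero_add] at h1
          exact one_ne_zero h1
      exact Nat.card_of_isEmpty
    · by_contra hq
      have h1 := ((hrad hq a1).1 a1.2).2.1
      rw [hβ] at h1
      exact one_ne_zero h1

end Pool.Agent.Krd
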