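import Pool.Agent.Krd.Defs

/-!
# Krd KR5: bent functions in dimension four have degree two

Let `W` be a vector space over `ZMod 2` with 16 elements and `f : W → ZMod 2` bent. Then `f` is
`Quad`.

Proof. Write `S l = ∑ x, sg (f x + l x)` for `l ∈ Dual W`. Then
`S l ^ 2 = ∑ x, ∑ a, sg (f x + f (x + a) + l a) = ∑ a, sg (l a) * ∑ x, sg (D a f x) = 16` (only `a
= 0`
contributes). So `S l = 4` or `-4`. Now let `a, b, c ∈ W`, `x ∈ W`; claim `D a (D b (D c f)) x = 0`.
If `a, b, c` are linearly dependent this is formal (one of `a, b, c` is `0`, or two are equal, or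
`c = a + b`; use `D_comm`, `D_self`, `D_add_dir`). If they are independent they span a subspace `H`
with 8 elements and there is a linear functional `l ≠ 0` with kernel `H`. `D a (D b (D c f)) x` is
the
sum of the eight values of `f` on `x + H`. The sum of `sg (f y)` over `y ∈ x + H = {y | l y = l
x}` is
`(S 0 + sg (l x) * S l) / 2 ∈ {-4, 0, 4}`, and it equals `8 - 2 * (number of ones)`; so the number
of
ones is `2`, `4` or `6`, which is even, and the sum in `ZMod 2` is `0`.
-/

set_option autoImplicit false
set_option linter.unusedSectionVars false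

namespace Pool.Agent.Krd

section aux

variable {W : Type*} [AddCommGroup W] [Module (ZMod 2) W]

private def e3 (a b c x : W) (t : ZMod 2 × ZMod 2 × ZMod 2) : W :=
  x + (t.1 • a + (t.2.1 • b + t.2.2 • c))

private theorem sum_z2 {M : Type*} [AddCommMonoid M] (g : ZMod 2 → M) :
    ∑ t, g t = g 0 + g 1 := by
  have h : (Finset.univ : Finset (ZMod 2)) = {0, 1} := by decide
  rw [h, Finset.sum_pair (by decide)]

/-- The third derivative is the sum of eight values. -/
private theorem D3_sum (f : W → ZMod 2) (a b c x : W) :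
    D a (D b (D c f)) x = ∑ t : ZMod 2 × ZMod 2 × ZMod 2, f (e3 a b c x t) := by
  simp only [Fintype.sum_prod_type, sum_z2, e3, D, zero_smul, one_smul, zero_add, add_zero,
    add_assoc]

/-- The third derivative vanishes in dependent directions. -/
private theorem D3_dep (f : W → ZMod 2) (a b c x : W) {t : ZMod 2 × ZMod 2 × ZMod 2}
    (ht : t ≠ 0) (h : t.1 • a + (t.2.1 • b + t.2.2 • c) = 0) : D a (D b (D c f)) x = 0 := by
  have hself : ∀ (v : W) (g : W → ZMod 2), D v (D v g) = fun _ => 0 := fun v g => by
    funext y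
    exact D_self v g y
  have hconst : ∀ v y : W, D v (fun _ : W => (0 : ZMod 2)) y = 0 := fun v y => by
    simp [D]
  have hz : ∀ (g : W → ZMod 2), D 0 g = fun _ => 0 := fun g => by
    funext y
    exact D_zero g y
  have heq : ∀ u v : W, u + v = 0 → u = v := fun u v huv => by
    have h1 := add_self' v
    exact add_right_cancel (huv.trans h1.symm)
  obtain ⟨i, j, k⟩ := t
  rcases z2_cases i with rfl | rfl <;> rcases z2_cases j with rfl | rfl <;>
    rcases z2_cases k with rfl | rfl <;>
    simp only [zero_smul, one_smul, zero_add, add_zero] at h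
  · exact absurd rfl ht
  · rw [h, D_comm b 0, D_comm a 0]
    exact D_zero _ x
  · rw [h, D_comm a 0]
    exact D_zero _ x
  · rw [heq b c h, hself]
    exact hconst a x
  · rw [h]
    exact D_zero _ x
  · rw [heq a c h, D_comm b c]
    exact D_self c _ x
  · rw [heq a b h]
    exact D_self b _ x
  · rw [heq a (b + c) h, D_add_dir, hself]
    rw [D_comm b c, hself]
    rfl

end aux

theorem quad_of_card_sixteen {W : Type*} [AddCommGroup W] [Module (ZMod 2) W] [Fintype W]
    (hW : Fintype.card W = 16) {f : W → ZMod 2} (hf : Bent f) : Quad f := by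
  classical
  intro a b c x
  by_cases hinj : ∃ t : ZMod 2 × ZMod 2 × ZMod 2, t ≠ 0 ∧ t.1 • a + (t.2.1 • b + t.2.2 • c) = 0
  · obtain ⟨t, ht, h⟩ := hinj
    exact D3_dep f a b c x ht h
  push Not at hinj
  -- the linear map
  have hadd : ∀ s t : ZMod 2 × ZMod 2 × ZMod 2, e3 a b c x s = e3 a b c x t → s = t := by
    intro s t hst
    by_contra hne
    refine hinj (s - t) (sub_ne_zero.2 hne) ?_
    have h1 := add_left_cancel hst
    simp only [Prod.fst_sub, Prod.snd_sub, sub_smul]
    have h2 : s.1 • a - t.1 • a + (s.2.1 • b - t.2.1 • b + (s.2.2 • c - t.2.2 • c)) =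
        (s.1 • a + (s.2.1 • b + s.2.2 • c)) - (t.1 • a + (t.2.1 • b + t.2.2 • c)) := by abel
    rw [h2, h1, sub_self]
  -- the functional
  have hH : Submodule.span (ZMod 2) ({a, b, c} : Set W) < ⊤ := by
    rw [lt_top_iff_ne_top]
    intro htop
    have hsurj : Function.Surjective (e3 a b c 0) := by
      intro w
      have hw : w ∈ Submodule.span (ZMod 2) ({a, b, c} : Set W) := by rw [htop]; trivial
      rw [Submodule.mem_span_insert] at hw
      obtain ⟨i, z, hz, rfl⟩ := hw
      rw [Submodule.mem_span_pair] at hz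
      obtain ⟨j, k, rfl⟩ := hz
      exact ⟨(i, j, k), by simp [e3]⟩
    have h1 := Fintype.card_le_of_surjective _ hsurj
    rw [hW] at h1
    simp [ZMod.card] at h1
  obtain ⟨l, hl0, hl⟩ := Submodule.exists_le_ker_of_lt_top _ hH
  have hla : l a = 0 := hl (Submodule.subset_span (by simp))
  have hlb : l b = 0 := hl (Submodule.subset_span (by simp))
  have hlc : l c = 0 := hl (Submodule.subset_span (by simp))
  -- character sums
  have hS : ∀ m : W →ₗ[ZMod 2] ZMod 2, (∑ y, sg (f y + m y)) = 4 ∨ (∑ y, sg (f y + m y)) = -4 := by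
    intro m
    have h1 : (∑ y, sg (f y + m y)) * (∑ y, sg (f y + m y)) = 16 := by
      rw [Finset.sum_mul_sum]
      have h2 : ∀ y, ∑ z, sg (f y + m y) * sg (f z + m z) =
          ∑ v, sg (m v) * sg (D v f y) := by
        intro y
        rw [← Equiv.sum_comp (Equiv.addLeft y)]
        refine Finset.sum_congr rfl fun v _ => ?_
        rw [Equiv.coe_addLeft, ← sg_add, ← sg_add, D_apply, map_add]
        congr 1
        have h3 := z2_add_self (m y)
        linear_combination h3
      rw [Finset.sum_congr rfl fun y _ => h2 y, Finset.sum_comm]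
      have h4 : ∀ v, ∑ y, sg (m v) * sg (D v f y) = if v = 0 then 16 else 0 := by
        intro v
        rw [← Finset.mul_sum]
        split_ifs with hv
        · subst hv
          rw [map_zero, sg_zero, one_mul, Finset.sum_congr rfl fun y _ => by
            rw [D_zero f y, sg_zero]]
          rw [Finset.sum_const, Finset.card_univ, hW]
          norm_num
        · rw [hf v hv, mul_zero]
      rw [Finset.sum_congr rfl fun v _ => h4 v, Finset.sum_ite_eq' Finset.univ (0 : W)]
      simp
    have h5 : ((∑ y, sg (f y + m y)) - 4) * ((∑ y, sg (f y + m y)) + 4) = 0 := by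
      linear_combination h1
    rcases mul_eq_zero.1 h5 with h6 | h6
    · left; linarith
    · right; linarith
  -- the class of x
  obtain ⟨T, hT⟩ : ∃ T : Finset W, T = Finset.univ.filter fun y => l y = l x := ⟨_, rfl⟩
  have hcount : (∑ y, sg (l y)) = 0 := by
    obtain ⟨w, hw⟩ : ∃ w, l w ≠ 0 := by
      by_contra hcon
      push Not at hcon
      exact hl0 (LinearMap.ext hcon)
    have hw1 : l w = 1 := by
      rcases z2_cases (l w) with h | h
      · exact absurd h hw
      · exact h
    have h1 : (∑ y, sg (l y)) = ∑ y, sg (l (w + y)) :=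
      (Equiv.sum_comp (Equiv.addLeft w) fun y => sg (l y)).symm
    have h2 : ∀ y, sg (l (w + y)) = - sg (l y) := fun y => by
      rw [map_add, sg_add, hw1, sg_one, neg_one_mul]
    rw [Finset.sum_congr rfl fun y _ => h2 y, Finset.sum_neg_distrib] at h1
    linarith
  have hind : ∀ g : W → ℤ, 2 * ∑ y ∈ T, g y = ∑ y, g y + sg (l x) * ∑ y, sg (l y) * g y := by
    intro g
    rw [hT, Finset.sum_filter, Finset.mul_sum, Finset.mul_sum, ← Finset.sum_add_distrib]
    refine Finset.sum_congr rfl fun y _ => ?_
    have h1 : sg (l x) * (sg (l y) * g y) = (if l y = l x then 1 else -1) * g y := by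
      rw [← mul_assoc]
      congr 1
      have : ∀ s t : ZMod 2, sg s * sg t = if t = s then 1 else -1 := by decide
      exact this _ _
    rw [h1]
    split_ifs <;> ring
  have hTcard : T.card = 8 := by
    have h1 := hind fun _ => 1
    simp only [Finset.sum_const, Finset.card_univ, hW, mul_one, hcount,
      mul_zero, add_zero, nsmul_eq_mul] at h1
    push_cast at h1
    omega
  have hsgT : (∑ y ∈ T, sg (f y)) = 4 ∨ (∑ y ∈ T, sg (f y)) = 0 ∨
      (∑ y ∈ T, sg (f y)) = -4 := by
    have h1 := hind fun y => sg (f y)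
    have h2 : ∑ y, sg (l y) * sg (f y) = ∑ y, sg (f y + l y) :=
      Finset.sum_congr rfl fun y _ => by rw [sg_add, mul_comm]
    have h3 : ∑ y, sg (f y) = ∑ y, sg (f y + (0 : W →ₗ[ZMod 2] ZMod 2) y) :=
      Finset.sum_congr rfl fun y _ => by rw [LinearMap.zero_apply, add_zero]
    rw [h2, h3] at h1
    have h4 : sg (l x) = 1 ∨ sg (l x) = -1 := by
      rcases z2_cases (l x) with h | h
      · left; rw [h, sg_zero]
      · right; rw [h, sg_one]
    rcases hS 0 with h5 | h5 <;> rcases hS l with h6 | h6 <;> rcases h4 with h7 | h7 <;>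
      rw [h5, h6, h7] at h1 <;> omega
  -- the sum of the values
  have hcnt : (∑ y ∈ T, sg (f y)) = 8 - 2 * ((T.filter fun y => f y = 1).card : ℤ) := by
    have h1 : ∀ y, sg (f y) = 1 - 2 * (if f y = 1 then 1 else 0) := by
      intro y
      rcases z2_cases (f y) with h | h <;> rw [h] <;> decide
    rw [Finset.sum_congr rfl fun y _ => h1 y, Finset.sum_sub_distrib, ← Finset.mul_sum,
      Finset.sum_boole, Finset.sum_const, hTcard]
    norm_num
  have heven : Even (T.filter fun y => f y = 1).card := by
    rw [Nat.even_iff]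
    rcases hsgT with h | h | h <;> rw [h] at hcnt <;> omega
  have hsum : ∑ y ∈ T, f y = 0 := by
    have h1 : ∀ y, f y = if f y = 1 then 1 else 0 := by
      intro y
      rcases z2_cases (f y) with h | h <;> rw [h] <;> decide
    rw [Finset.sum_congr rfl fun y _ => h1 y, Finset.sum_boole]
    obtain ⟨r, hr⟩ := heven
    rw [hr, Nat.cast_add, z2_add_self]
  -- the class is the set of the eight points
  have himg : Finset.univ.image (e3 a b c x) = T := by
    refine Finset.eq_of_subset_of_card_le ?_ ?_
    · intro y hy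
      obtain ⟨t, -, rfl⟩ := Finset.mem_image.1 hy
      rw [hT, Finset.mem_filter]
      refine ⟨Finset.mem_univ _, ?_⟩
      simp [e3, map_add, map_smul, hla, hlb, hlc]
    · rw [hTcard, Finset.card_image_of_injective _ hadd, Finset.card_univ]
      simp [ZMod.card]
  rw [D3_sum, ← hsum, ← himg, Finset.sum_image fun s _ t _ h => hadd s t h]

end Pool.Agent.Krd
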