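import Pool.Agent.Krd.Defs

/-!
# Krd KR1: the bilinear form of the second derivatives

`V` is a vector space over `ZMod 2`, `f : V → ZMod 2`, `U ≤ rad f` (so `D u f` is affine for all
`u ∈ U`).

* `exists_bil`. Put `B u x := D x (D u f) 0`. Since `D u f` is affine, `D x (D u f)` is constant (all
  `D a (D x (D u f)) y = 0`), so `D x (D u f) y = D x (D u f) 0` for all `y`. Additive in `x`:
  `D_add_dir`. Additive in `u`: use `D_comm` and `D_add_dir` again (`D x (D (u + v) f) y
  = D (u + v) (D x f) y = D u (D x f) (y + v) + D v (D x f) y`). Homogeneity: `z2_cases`.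
* `bil_symm`, `bil_self`: `D_comm`, `D_self`.
* `bil_ne_zero`. Let `f` be bent and `u ≠ 0` in `U`. If `B u = 0` then all `D x (D u f) y = 0`, so
  `D u f` is constant, `D u f x = D u f 0`, and `∑ x, sg (D u f x) = card V * sg (D u f 0) ≠ 0`,
  contradiction to `Bent`.
-/

set_option autoImplicit false
set_option linter.unusedSectionVars false

namespace Pool.Agent.Krd

variable {V : Type*} [AddCommGroup V] [Module (ZMod 2) V]

private theorem D_const {f : V → ZMod 2} {u : V} (hu : u ∈ rad f) (x y : V) :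
    D x (D u f) y = D x (D u f) 0 := by
  have h := mem_rad.1 hu y x 0
  rw [D_apply, zero_add] at h
  have h2 := z2_add_self (D x (D u f) y)
  linear_combination h2 - h

private theorem D_zero_fun (x : V) (g : V → ZMod 2) (hg : ∀ y, g y = 0) (y : V) :
    D x g y = 0 := by
  rw [D_apply, hg, hg, add_zero]

theorem exists_bil {f : V → ZMod 2} {U : Submodule (ZMod 2) V} (hU : U ≤ rad f) :
    ∃ B : U →ₗ[ZMod 2] V →ₗ[ZMod 2] ZMod 2, ∀ (u : U) (x y : V),
      D x (D (u : V) f) y = B u x := by
  refine ⟨LinearMap.mk₂ (ZMod 2) (fun (u : U) (x : V) => D x (D (u : V) f) 0) ?_ ?_ ?_ ?_, ?_⟩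
  · intro u v x
    change D x (D ((u : V) + v) f) 0 = _
    rw [D_comm, D_add_dir, D_comm (u : V), D_comm (v : V), D_const (hU u.2) x (0 + v)]
  · intro c u x
    change D x (D (c • (u : V)) f) 0 = c • D x (D (u : V) f) 0
    rcases z2_cases c with rfl | rfl
    · rw [zero_smul, zero_smul]
      exact D_zero_fun x _ (D_zero f) 0
    · rw [one_smul, one_smul]
  · intro u x y
    change D (x + y) (D (u : V) f) 0 = _
    rw [D_add_dir, D_const (hU u.2) x (0 + y)]
  · intro c u x
    change D (c • x) (D (u : V) f) 0 = c • D x (D (u : V) f) 0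
    rcases z2_cases c with rfl | rfl
    · rw [zero_smul, zero_smul]
      exact D_zero _ _
    · rw [one_smul, one_smul]
  · intro u x y
    exact D_const (hU u.2) x y

theorem bil_symm {f : V → ZMod 2} {U : Submodule (ZMod 2) V}
    {B : U →ₗ[ZMod 2] V →ₗ[ZMod 2] ZMod 2} (hB : ∀ (u : U) (x y : V), D x (D (u : V) f) y = B u x)
    (u v : U) : B u v = B v u := by
  rw [← hB u v 0, ← hB v u 0, D_comm]

theorem bil_self {f : V → ZMod 2} {U : Submodule (ZMod 2) V}
    {B : U →ₗ[ZMod 2] V →ₗ[ZMod 2] ZMod 2} (hB : ∀ (u : U) (x y : V), D x (D (u : V) f) y = B u x)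
    (u : U) : B u u = 0 := by
  rw [← hB u u 0, D_self]

theorem bil_ne_zero [Fintype V] {f : V → ZMod 2} (hf : Bent f) {U : Submodule (ZMod 2) V}
    {B : U →ₗ[ZMod 2] V →ₗ[ZMod 2] ZMod 2} (hB : ∀ (u : U) (x y : V), D x (D (u : V) f) y = B u x)
    {u : U} (hu : u ≠ 0) : B u ≠ 0 := by
  intro h
  have h1 : ∀ x, D (u : V) f x = D (u : V) f 0 := by
    intro x
    have h2 := hB u x 0
    rw [h, LinearMap.zero_apply, D_apply, zero_add] at h2
    have h3 := z2_add_self (D (u : V) f x)
    linear_combination h3 - h2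
  have h4 := hf (u : V) fun h5 => hu (Subtype.ext h5)
  rw [Finset.sum_congr rfl fun x _ => by rw [h1 x], Finset.sum_const, Finset.card_univ,
    nsmul_eq_mul] at h4
  rcases mul_eq_zero.1 h4 with h5 | h5
  · exact Fintype.card_ne_zero (Nat.cast_eq_zero.1 h5)
  · have h6 := sg_mul_self (D (u : V) f 0)
    rw [h5, mul_zero] at h6
    exact zero_ne_one h6

end Pool.Agent.Krd
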