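import Mathlib

/-!
# Krd KR11: families of subspaces of codimension three with large intersections (Mathlib only)

`V` finite dimensional over `ZMod 2` (any field), `U : ι → Submodule`, all of codimension exactly 3,
all pairwise intersections of codimension at most 4. Then there is a subspace `K` of codimension
exactly 2 containing all `U i`, or a subspace `N` of codimension at most 4 contained in all `U i`.

Proof. `n = finrank V`; use `Submodule.finrank_sup_add_finrank_inf_eq`. If all `U i` are equal take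
`N = U i`. Otherwise let `U i ≠ U j`. For `U i ≠ U j`: `U i ⊓ U j` has codimension exactly 4 (it is a
proper subspace of `U i`) and `U i ⊔ U j` has codimension exactly 2. Put `K = U i ⊔ U j`,
`N = U i ⊓ U j`. If all `U l ≤ K` we are done. Let `U l` be not contained in `K`; so `U l ≠ U i, U j`.
Claim A: for every `p` with `U p` not contained in `K` we have `N ≤ U p`. Proof: `U p ⊔ U i` and
`U p ⊔ U j` have codimension 2. `X = (U p ⊔ U i) ⊓ (U p ⊔ U j) ≥ U p`. If `X` had codimension 2 then
`U p ⊔ U i = X = U p ⊔ U j`, which contains `U i ⊔ U j = K` of codimension 2, so `X = K` and `U p ≤ K`,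
contradiction. So `X` has codimension at least 3 and contains `U p` of codimension 3: `X = U p`.
`N ≤ U i` and `N ≤ U j` give `N ≤ X = U p`.
Now `N ≤ U l`, hence `U i ⊓ U l ≥ N` has codimension 4 (as `U l ≠ U i`) and equals `N`, similarly
`U j ⊓ U l = N`. Let `p` be arbitrary; claim `N ≤ U p`. If `U p` is not contained in `K`: Claim A. If
`U p` is not contained in `K' = U i ⊔ U l`: Claim A for the pair `i, l` gives
`U i ⊓ U l = N ≤ U p`. So let `U p ≤ K ⊓ K'`. `K ≠ K'` (as `U l ≤ K'` but not `≤ K`), so `K ⊓ K'` has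
codimension at least 3 and equals `U p`; it contains `U i`, so `U p = U i ≥ N`.
-/

set_option autoImplicit false
set_option linter.unusedSectionVars false

namespace Pool.Agent.Krd

theorem exists_K_or_N {V : Type*} [AddCommGroup V] [Module (ZMod 2) V]
    [FiniteDimensional (ZMod 2) V] {ι : Type*} [Nonempty ι] (U : ι → Submodule (ZMod 2) V)
    (h3 : ∀ i, Module.finrank (ZMod 2) V = Module.finrank (ZMod 2) (U i) + 3)
    (h4 : ∀ i j, Module.finrank (ZMod 2) V ≤ Module.finrank (ZMod 2) ↥(U i ⊓ U j) + 4) :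
    (∃ K : Submodule (ZMod 2) V, Module.finrank (ZMod 2) V = Module.finrank (ZMod 2) K + 2 ∧
      ∀ i, U i ≤ K) ∨
    ∃ N : Submodule (ZMod 2) V, Module.finrank (ZMod 2) V ≤ Module.finrank (ZMod 2) N + 4 ∧
      ∀ i, N ≤ U i := by
  classical
  have key : ∀ i j, U i ≠ U j →
      Module.finrank (ZMod 2) ↥(U i ⊓ U j) + 4 = Module.finrank (ZMod 2) V ∧
      Module.finrank (ZMod 2) ↥(U i ⊔ U j) + 2 = Module.finrank (ZMod 2) V := by
    intro i j hne
    have e1 := Submodule.finrank_sup_add_finrank_inf_eq (U i) (U j)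
    have e2 := h3 i
    have e3 := h3 j
    have e4 := h4 i j
    have e5 : Module.finrank (ZMod 2) ↥(U i ⊓ U j) < Module.finrank (ZMod 2) (U i) := by
      by_contra hlt
      have h1 : U i ⊓ U j = U i := Submodule.eq_of_le_of_finrank_le inf_le_left (not_lt.1 hlt)
      have h2 : U i ≤ U j := inf_eq_left.1 h1
      exact hne (Submodule.eq_of_le_of_finrank_le h2 (by omega))
    constructor <;> omega
  have claimA : ∀ i j, U i ≠ U j → ∀ p, ¬ U p ≤ U i ⊔ U j → U i ⊓ U j ≤ U p := by
    intro i j hne p hp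
    have hpi : U p ≠ U i := fun h => hp (h ▸ le_sup_left)
    have hpj : U p ≠ U j := fun h => hp (h ▸ le_sup_right)
    have a1 := (key p i hpi).2
    have a2 := (key p j hpj).2
    have a3 := (key i j hne).2
    have a4 := h3 p
    have hX : (U p ⊔ U i) ⊓ (U p ⊔ U j) = U p := by
      symm
      refine Submodule.eq_of_le_of_finrank_le (le_inf le_sup_left le_sup_left) ?_
      by_contra hlt
      have h1 : (U p ⊔ U i) ⊓ (U p ⊔ U j) = U p ⊔ U i :=
        Submodule.eq_of_le_of_finrank_le inf_le_left (by omega)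
      have h2 : (U p ⊔ U i) ⊓ (U p ⊔ U j) = U p ⊔ U j :=
        Submodule.eq_of_le_of_finrank_le inf_le_right (by omega)
      have h3' : U p ⊔ U i = U p ⊔ U j := h1.symm.trans h2
      have h4' : U i ⊔ U j ≤ U p ⊔ U i := sup_le le_sup_right (h3' ▸ le_sup_right)
      have h5 : U i ⊔ U j = U p ⊔ U i :=
        Submodule.eq_of_le_of_finrank_le h4' (by omega)
      exact hp (h5 ▸ le_sup_left)
    calc U i ⊓ U j ≤ (U p ⊔ U i) ⊓ (U p ⊔ U j) :=
          le_inf (inf_le_left.trans le_sup_right) (inf_le_right.trans le_sup_right)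
      _ = U p := hX
  by_cases hall : ∀ i j, U i = U j
  · right
    obtain ⟨i0⟩ := ‹Nonempty ι›
    refine ⟨U i0, ?_, fun i => (hall i0 i).le⟩
    have := h3 i0
    omega
  push Not at hall
  obtain ⟨i, j, hij⟩ := hall
  by_cases hK : ∀ l, U l ≤ U i ⊔ U j
  · left
    exact ⟨U i ⊔ U j, (key i j hij).2.symm, hK⟩
  push Not at hK
  obtain ⟨l, hl⟩ := hK
  right
  have hil : U i ≠ U l := fun h => hl (h ▸ le_sup_left)
  have hNl : U i ⊓ U j ≤ U l := claimA i j hij l hl
  have b1 := (key i j hij).1
  have b2 := (key i l hil).1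
  have hN2 : U i ⊓ U j = U i ⊓ U l :=
    Submodule.eq_of_le_of_finrank_le (le_inf inf_le_left hNl) (by omega)
  refine ⟨U i ⊓ U j, by omega, fun p => ?_⟩
  by_cases hp1 : U p ≤ U i ⊔ U j
  swap
  · exact claimA i j hij p hp1
  by_cases hp2 : U p ≤ U i ⊔ U l
  swap
  · rw [hN2]; exact claimA i l hil p hp2
  have c1 := (key i j hij).2
  have c2 := (key i l hil).2
  have c3 := h3 i
  have c4 := h3 p
  have hKK : U i = (U i ⊔ U j) ⊓ (U i ⊔ U l) := by
    refine Submodule.eq_of_le_of_finrank_le (le_inf le_sup_left le_sup_left) ?_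
    by_contra hlt
    have h1 : (U i ⊔ U j) ⊓ (U i ⊔ U l) = U i ⊔ U j :=
      Submodule.eq_of_le_of_finrank_le inf_le_left (by omega)
    have h2 : (U i ⊔ U j) ⊓ (U i ⊔ U l) = U i ⊔ U l :=
      Submodule.eq_of_le_of_finrank_le inf_le_right (by omega)
    exact hl ((le_sup_right : U l ≤ U i ⊔ U l).trans (h2.symm.trans h1).le)
  have hpi : U p ≤ U i := by
    rw [hKK]
    exact le_inf hp1 hp2
  have hpi' : U p = U i := Submodule.eq_of_le_of_finrank_le hpi (by omega)
  rw [hpi']
  exact inf_le_left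

end Pool.Agent.Krd
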