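import Pool.Agent.Krd.Defs

/-! # Krd KR12: functions with a radical of codimension three

`V` finite dimensional over `ZMod 2`, `f : V → ZMod 2`, `finrank V ≤ finrank (rad f) + 3`, `f` not
`Quad`.

* `third_const`: the third derivatives `D a (D b (D c f)) x` do not depend on `x`. Proof: the
fourth derivative `D d (D a (D b (D c f))) x` vanishes: modulo `rad f` the four vectors lie in a
space of dimension at most 3, so they are linearly dependent modulo `rad f`: one of them is a sum
of others plus an element of `rad f`; use `D_add_dir`, `D_comm`, `D_self` and `rad f` (a third or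
higher derivative with one direction in `rad f` vanishes). (This part does not need `f` not
`Quad`.) * `exists_det`: `finrank V = finrank (rad f) + 3` and there are linear functionals `x1,
x2, x3` such that `rad f = {a | x1 a = 0 ∧ x2 a = 0 ∧ x3 a = 0}` and `D a (D b (D c f)) z = det` of
the matrix with rows `(x1 a, x2 a, x3 a)`, `(x1 b, ...)`, `(x1 c, ...)`. Proof: `T a b c = D a (D b
(D c f)) 0` is additive in each variable (`D_add_dir` and `third_const`), symmetric (`D_comm`),
zero if two arguments are equal (`D_self`) or if one argument is in `rad f`. If `V / rad f` had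
dimension at most 2, `T` would vanish (`f` would be `Quad`). So the dimension is 3. Let `e1, e2,
e3` be a basis of `V` modulo `rad f` with dual functionals `x1, x2, x3` (vanishing on `rad f`). If
`T e1 e2 e3 = 0` then `T = 0` and `f` is `Quad`; so `T e1 e2 e3 = 1` and `T` is the determinant. *
`exists_det'`: the functionals can be chosen with `x1, x2` prescribed: if `K` is a subspace of
codimension 2 with `rad f ≤ K` and `K = {a | y1 a = 0 ∧ y2 a = 0}` then there is `γ` with `rad f =
{a | y1 a = 0 ∧ y2 a = 0 ∧ γ a = 0}` and for `a ∈ K`: `D c (D b (D a f)) z = γ a * (y1 b * y2 c +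
y1 c * y2 b)`. Proof: same with `y1, y2` part of the dual basis (`y1, y2` are linearly independent
because `K` has codimension 2, and vanish on `rad f`). -/

set_option autoImplicit false
set_option linter.unusedSectionVars false

namespace Pool.Agent.Krd

variable {V : Type*} [AddCommGroup V] [Module (ZMod 2) V] [FiniteDimensional (ZMod 2) V]

/-- the submodule of the periods of `F` -/
private def per (F : V → ZMod 2) : Submodule (ZMod 2) V where
  carrier := {d | ∀ x, D d F x = 0}
  zero_mem' := fun x => D_zero F x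
  add_mem' := by
    intro a b ha hb x
    rw [D_add_dir, ha (x + b), hb x, add_zero]
  smul_mem' := by
    intro t a ha
    rcases z2_cases t with rfl | rfl
    · rw [zero_smul]
      exact fun x => D_zero F x
    · rwa [one_smul]

private theorem mem_per {F : V → ZMod 2} {d : V} : d ∈ per F ↔ ∀ x, D d F x = 0 := Iff.rfl

private theorem D_fun_zero (a : V) {F : V → ZMod 2} (h : ∀ x, F x = 0) (x : V) : D a F x = 0 := by
  rw [D_apply, h, h, add_zero]

private theorem rad_le_per {f : V → ZMod 2} (a b c : V) : rad f ≤ per (D a (D b (D c f))) := by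
  intro r hr x
  rw [D_comm r a, D_comm r b, D_comm r c]
  have h : ∀ y, D b (D c (D r f)) y = 0 := fun y => mem_rad.1 hr b c y
  exact D_fun_zero a h x

private theorem self_mem_per (a b c : V) (f : V → ZMod 2) : a ∈ per (D a (D b (D c f))) :=
  fun x => D_self a _ x

private theorem dep {f : V → ZMod 2}
    (hr : Module.finrank (ZMod 2) V ≤ Module.finrank (ZMod 2) (rad f) + 3) (v : Fin 4 → V) :
    ∃ g : Fin 4 → ZMod 2, (∑ i, g i • v i) ∈ rad f ∧ ∃ i, g i ≠ 0 := by
  have h1 : ¬ LinearIndependent (ZMod 2) (fun i => (rad f).mkQ (v i)) := by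
    intro h
    have h2 := h.fintype_card_le_finrank
    have h3 := Submodule.finrank_quotient_add_finrank (rad f)
    rw [Fintype.card_fin] at h2
    omega
  rw [Fintype.not_linearIndependent_iff] at h1
  obtain ⟨g, hg, i, hi⟩ := h1
  refine ⟨g, ?_, i, hi⟩
  rw [← Submodule.Quotient.mk_eq_zero, ← Submodule.mkQ_apply, map_sum]
  simpa only [map_smul] using hg

private theorem four {f : V → ZMod 2}
    (hr : Module.finrank (ZMod 2) V ≤ Module.finrank (ZMod 2) (rad f) + 3) (a b c d x : V) :
    D d (D a (D b (D c f))) x = 0 := by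
  obtain ⟨g, hg, i, hi⟩ := dep hr ![a, b, c, d]
  have hgi : g i = 1 := (z2_cases (g i)).resolve_left hi
  rw [Fin.sum_univ_four] at hg
  simp only [Matrix.cons_val] at hg
  have key : ∀ (P : Submodule (ZMod 2) V) (u w : V), u + w ∈ P → w ∈ P → u ∈ P := by
    intro P u w h1 h2
    have h3 := P.sub_mem h1 h2
    rwa [add_sub_cancel_right] at h3
  fin_cases i
  · have hgi : g 0 = 1 := hgi
    rw [hgi, one_smul] at hg
    have h1 : a ∈ per (D d (D b (D c f))) := by
      refine key _ a (g 1 • b + g 2 • c + g 3 • d) ?_ ?_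
      · have h2 := rad_le_per d b c hg
        have e : a + (g 1 • b + g 2 • c + g 3 • d) = a + g 1 • b + g 2 • c + g 3 • d := by abel
        rwa [e]
      · refine Submodule.add_mem _ (Submodule.add_mem _ ?_ ?_) ?_
        · refine Submodule.smul_mem _ _ ?_
          rw [D_comm d b]
          exact self_mem_per b d c f
        · refine Submodule.smul_mem _ _ ?_
          rw [D_comm b c, D_comm d c]
          exact self_mem_per c d b f
        · exact Submodule.smul_mem _ _ (self_mem_per d b c f)
    rw [D_comm d a]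
    exact h1 x
  · have hgi : g 1 = 1 := hgi
    rw [hgi, one_smul] at hg
    have h1 : b ∈ per (D d (D a (D c f))) := by
      refine key _ b (g 0 • a + g 2 • c + g 3 • d) ?_ ?_
      · have h2 := rad_le_per d a c hg
        have e : b + (g 0 • a + g 2 • c + g 3 • d) = g 0 • a + b + g 2 • c + g 3 • d := by abel
        rwa [e]
      · refine Submodule.add_mem _ (Submodule.add_mem _ ?_ ?_) ?_
        · refine Submodule.smul_mem _ _ ?_
          rw [D_comm d a]
          exact self_mem_per a d c f
        · refine Submodule.smul_mem _ _ ?_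
          rw [D_comm a c, D_comm d c]
          exact self_mem_per c d a f
        · exact Submodule.smul_mem _ _ (self_mem_per d a c f)
    rw [D_comm a b, D_comm d b]
    exact h1 x
  · have hgi : g 2 = 1 := hgi
    rw [hgi, one_smul] at hg
    have h1 : c ∈ per (D d (D a (D b f))) := by
      refine key _ c (g 0 • a + g 1 • b + g 3 • d) ?_ ?_
      · have h2 := rad_le_per d a b hg
        have e : c + (g 0 • a + g 1 • b + g 3 • d) = g 0 • a + g 1 • b + c + g 3 • d := by abel
        rwa [e]
      · refine Submodule.add_mem _ (Submodule.add_mem _ ?_ ?_) ?_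
        · refine Submodule.smul_mem _ _ ?_
          rw [D_comm d a]
          exact self_mem_per a d b f
        · refine Submodule.smul_mem _ _ ?_
          rw [D_comm a b, D_comm d b]
          exact self_mem_per b d a f
        · exact Submodule.smul_mem _ _ (self_mem_per d a b f)
    rw [D_comm b c, D_comm a c, D_comm d c]
    exact h1 x
  · have hgi : g 3 = 1 := hgi
    rw [hgi, one_smul] at hg
    have h1 : d ∈ per (D a (D b (D c f))) := by
      refine key _ d (g 0 • a + g 1 • b + g 2 • c) ?_ ?_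
      · have h2 := rad_le_per a b c hg
        have e : d + (g 0 • a + g 1 • b + g 2 • c) = g 0 • a + g 1 • b + g 2 • c + d := by abel
        rwa [e]
      · refine Submodule.add_mem _ (Submodule.add_mem _ ?_ ?_) ?_
        · exact Submodule.smul_mem _ _ (self_mem_per a b c f)
        · refine Submodule.smul_mem _ _ ?_
          rw [D_comm a b]
          exact self_mem_per b a c f
        · refine Submodule.smul_mem _ _ ?_
          rw [D_comm b c, D_comm a c]
          exact self_mem_per c a b f
    exact h1 x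

theorem third_const {f : V → ZMod 2}
    (hr : Module.finrank (ZMod 2) V ≤ Module.finrank (ZMod 2) (rad f) + 3) (a b c x y : V) :
    D a (D b (D c f)) x = D a (D b (D c f)) y := by
  have h1 := four hr a b c (x + y) x
  rw [D_apply, ← add_assoc, add_self' x, zero_add] at h1
  have h2 := z2_add_self (D a (D b (D c f)) y)
  linear_combination h1 - h2

private def T (f : V → ZMod 2) (a b c : V) : ZMod 2 := D a (D b (D c f)) 0

section

variable {f : V → ZMod 2}

private theorem T_swap (a b c : V) : T f a b c = T f b a c := by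
  unfold T
  rw [D_comm a b]

private theorem T_swap' (a b c : V) : T f a b c = T f a c b := by
  unfold T
  rw [D_comm b c]

private theorem T_self (a c : V) : T f a a c = 0 := D_self a _ 0

private theorem T_rad (a b : V) {c : V} (hc : c ∈ rad f) : T f a b c = 0 := mem_rad.1 hc a b 0

variable (hr : Module.finrank (ZMod 2) V ≤ Module.finrank (ZMod 2) (rad f) + 3)

include hr

private theorem T_eq (a b c z : V) : D a (D b (D c f)) z = T f a b c := third_const hr a b c z 0

private theorem T_add (a b c c' : V) : T f a b (c + c') = T f a b c + T f a b c' := by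
  have h : ∀ u v w w' : V, T f (w + w') u v = T f w u v + T f w' u v := by
    intro u v w w'
    unfold T
    rw [D_add_dir, third_const hr w u v (0 + w') 0]
  have h1 := h a b c c'
  rwa [T_swap, T_swap', T_swap c a b, T_swap' a c b, T_swap c' a b, T_swap' a c' b] at h1

/-- the functional `T a b` -/
private def ta (a b : V) : V →ₗ[ZMod 2] ZMod 2 where
  toFun c := T f a b c
  map_add' := T_add hr a b
  map_smul' := by
    intro t c
    rcases z2_cases t with rfl | rfl
    · simp only [zero_smul, RingHom.id_apply]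
      exact T_rad a b (rad f).zero_mem
    · simp only [one_smul, RingHom.id_apply]

omit hr in
private theorem mem_iff_ker {x1 x2 x3 : V →ₗ[ZMod 2] ZMod 2} {a : V} :
    a ∈ LinearMap.ker (x1.prod (x2.prod x3)) ↔ x1 a = 0 ∧ x2 a = 0 ∧ x3 a = 0 := by
  rw [LinearMap.mem_ker]
  change (x1 a, x2 a, x3 a) = 0 ↔ _
  rw [Prod.ext_iff, Prod.ext_iff]
  exact Iff.rfl

private theorem core {e1 e2 e3 : V} (h : T f e1 e2 e3 = 1) :
    Module.finrank (ZMod 2) V = Module.finrank (ZMod 2) (rad f) + 3 ∧
    (∀ a, a ∈ rad f ↔ ta hr e2 e3 a = 0 ∧ ta hr e1 e3 a = 0 ∧ ta hr e1 e2 a = 0) ∧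
    ∀ a, a + (ta hr e2 e3 a • e1 + ta hr e1 e3 a • e2 + ta hr e1 e2 a • e3) ∈ rad f := by
  have h11 : ta hr e2 e3 e1 = 1 := by
    change T f e2 e3 e1 = 1
    rw [T_swap', T_swap, h]
  have h12 : ta hr e2 e3 e2 = 0 := by
    change T f e2 e3 e2 = 0
    rw [T_swap', T_self]
  have h13 : ta hr e2 e3 e3 = 0 := by
    change T f e2 e3 e3 = 0
    rw [T_swap, T_swap', T_self]
  have h21 : ta hr e1 e3 e1 = 0 := by
    change T f e1 e3 e1 = 0
    rw [T_swap', T_self]
  have h22 : ta hr e1 e3 e2 = 1 := by
    change T f e1 e3 e2 = 1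
    rw [T_swap', h]
  have h23 : ta hr e1 e3 e3 = 0 := by
    change T f e1 e3 e3 = 0
    rw [T_swap, T_swap', T_self]
  have h31 : ta hr e1 e2 e1 = 0 := by
    change T f e1 e2 e1 = 0
    rw [T_swap', T_self]
  have h32 : ta hr e1 e2 e2 = 0 := by
    change T f e1 e2 e2 = 0
    rw [T_swap, T_swap', T_self]
  have h33 : ta hr e1 e2 e3 = 1 := h
  let L : V →ₗ[ZMod 2] ZMod 2 × ZMod 2 × ZMod 2 :=
    (ta hr e2 e3).prod ((ta hr e1 e3).prod (ta hr e1 e2))
  have hL : ∀ a, L a = (ta hr e2 e3 a, ta hr e1 e3 a, ta hr e1 e2 a) := fun a => rfl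
  have hrange : LinearMap.range L = ⊤ := by
    rw [LinearMap.range_eq_top]
    rintro ⟨t1, t2, t3⟩
    refine ⟨t1 • e1 + t2 • e2 + t3 • e3, ?_⟩
    rw [hL]
    simp only [map_add, map_smul, h11, h12, h13, h21, h22, h23, h31, h32, h33, smul_eq_mul,
      mul_one, mul_zero, add_zero, zero_add]
  have hker : rad f ≤ LinearMap.ker L := by
    intro a ha
    exact mem_iff_ker.2 ⟨T_rad _ _ ha, T_rad _ _ ha, T_rad _ _ ha⟩
  have hdim := LinearMap.finrank_range_add_finrank_ker L
  rw [hrange, finrank_top, Module.finrank_prod, Module.finrank_prod, Module.finrank_self] at hdim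
  have hle := Submodule.finrank_mono hker
  have heq : rad f = LinearMap.ker L := Submodule.eq_of_le_of_finrank_le hker (by omega)
  have hiff : ∀ a, a ∈ rad f ↔
      ta hr e2 e3 a = 0 ∧ ta hr e1 e3 a = 0 ∧ ta hr e1 e2 a = 0 := by
    intro a
    rw [heq]
    exact mem_iff_ker
  refine ⟨by omega, hiff, fun a => ?_⟩
  rw [hiff]
  simp only [map_add, map_smul, h11, h12, h13, h21, h22, h23, h31, h32, h33, smul_eq_mul,
    mul_one, mul_zero, add_zero, zero_add, z2_add_self, and_self]

private theorem T_exp {e1 e2 e3 a : V} {t1 t2 t3 : ZMod 2}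
    (ha : a + (t1 • e1 + t2 • e2 + t3 • e3) ∈ rad f) (b c : V) :
    T f b c a = t1 * T f b c e1 + t2 * T f b c e2 + t3 * T f b c e3 := by
  have h1 : ta hr b c (a + (t1 • e1 + t2 • e2 + t3 • e3)) = 0 := T_rad b c ha
  rw [map_add, map_add, map_add, map_smul, map_smul, map_smul] at h1
  change T f b c a + (t1 * T f b c e1 + t2 * T f b c e2 + t3 * T f b c e3) = 0 at h1
  have h2 := z2_add_self (t1 * T f b c e1 + t2 * T f b c e2 + t3 * T f b c e3)
  linear_combination h1 - h2

end

private theorem exists_T {f : V → ZMod 2}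
    (hr : Module.finrank (ZMod 2) V ≤ Module.finrank (ZMod 2) (rad f) + 3) (hq : ¬ Quad f) :
    ∃ e1 e2 e3, T f e1 e2 e3 = 1 := by
  by_contra hcon
  push Not at hcon
  refine hq fun a b c x => ?_
  rw [T_eq hr]
  exact (z2_cases _).resolve_right (hcon a b c)

theorem exists_det {f : V → ZMod 2}
    (hr : Module.finrank (ZMod 2) V ≤ Module.finrank (ZMod 2) (rad f) + 3) (hq : ¬ Quad f) :
    Module.finrank (ZMod 2) V = Module.finrank (ZMod 2) (rad f) + 3 ∧
    ∃ x1 x2 x3 : V →ₗ[ZMod 2] ZMod 2,
      (∀ a, a ∈ rad f ↔ x1 a = 0 ∧ x2 a = 0 ∧ x3 a = 0) ∧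
      ∀ a b c z, D a (D b (D c f)) z =
        x1 a * (x2 b * x3 c + x3 b * x2 c) + x2 a * (x1 b * x3 c + x3 b * x1 c) +
          x3 a * (x1 b * x2 c + x2 b * x1 c) := by
  obtain ⟨e1, e2, e3, h⟩ := exists_T hr hq
  obtain ⟨hd, hiff, hmem⟩ := core hr h
  refine ⟨hd, ta hr e2 e3, ta hr e1 e3, ta hr e1 e2, hiff, fun a b c z => ?_⟩
  have e12 : ∀ c, T f e1 e2 c = ta hr e1 e2 c := fun c => rfl
  have e13 : ∀ c, T f e1 e3 c = ta hr e1 e3 c := fun c => rfl
  have e23 : ∀ c, T f e2 e3 c = ta hr e2 e3 c := fun c => rfl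
  have k : ∀ b' c' a', T f a' b' c' = T f b' c' a' := by
    intro b' c' a'
    rw [T_swap, T_swap']
  rw [T_eq hr, k b c a, T_exp hr (hmem a) b c]
  rw [← k b c e1, ← k b c e2, ← k b c e3, T_swap' e1 b c, T_swap' e2 b c, T_swap' e3 b c,
    T_exp hr (hmem b) e1 c, T_exp hr (hmem b) e2 c, T_exp hr (hmem b) e3 c]
  have s11 : T f e1 c e1 = 0 := by rw [T_swap', T_self]
  have s22 : T f e2 c e2 = 0 := by rw [T_swap', T_self]
  have s33 : T f e3 c e3 = 0 := by rw [T_swap', T_self]
  have s12 : T f e1 c e2 = ta hr e1 e2 c := by rw [T_swap', e12]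
  have s21 : T f e2 c e1 = ta hr e1 e2 c := by rw [T_swap', T_swap, e12]
  have s13 : T f e1 c e3 = ta hr e1 e3 c := by rw [T_swap', e13]
  have s31 : T f e3 c e1 = ta hr e1 e3 c := by rw [T_swap', T_swap, e13]
  have s23 : T f e2 c e3 = ta hr e2 e3 c := by rw [T_swap', e23]
  have s32 : T f e3 c e2 = ta hr e2 e3 c := by rw [T_swap', T_swap, e23]
  rw [s11, s22, s33, s12, s21, s13, s31, s23, s32]
  ring

theorem exists_det' {f : V → ZMod 2}
    (hr : Module.finrank (ZMod 2) V ≤ Module.finrank (ZMod 2) (rad f) + 3) (hq : ¬ Quad f)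
    {K : Submodule (ZMod 2) V} (hK : Module.finrank (ZMod 2) V = Module.finrank (ZMod 2) K + 2)
    (hf : rad f ≤ K) {y1 y2 : V →ₗ[ZMod 2] ZMod 2} (hy : ∀ a, a ∈ K ↔ y1 a = 0 ∧ y2 a = 0) :
    ∃ γ : V →ₗ[ZMod 2] ZMod 2,
      (∀ a, a ∈ rad f ↔ y1 a = 0 ∧ y2 a = 0 ∧ γ a = 0) ∧
      ∀ a b c z, y1 a = 0 → y2 a = 0 →
        D c (D b (D a f)) z = γ a * (y1 b * y2 c + y1 c * y2 b) := by
  have hd := (exists_det hr hq).1
  -- a vector of `K` outside of `rad f`
  have hlt : rad f < K := by
    refine lt_of_le_of_ne hf fun h => ?_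
    rw [← h] at hK
    omega
  obtain ⟨e3, he3, he3'⟩ := SetLike.exists_of_lt hlt
  -- the dual basis of `y1`, `y2`
  let L : V →ₗ[ZMod 2] ZMod 2 × ZMod 2 := y1.prod y2
  have hL : ∀ a, L a = (y1 a, y2 a) := fun a => rfl
  have hker : LinearMap.ker L = K := by
    ext a
    rw [LinearMap.mem_ker, hy, hL, Prod.ext_iff]
    rfl
  have hdim := LinearMap.finrank_range_add_finrank_ker L
  rw [hker] at hdim
  have hrange : LinearMap.range L = ⊤ := by
    apply Submodule.eq_top_of_finrank_eq
    rw [Module.finrank_prod, Module.finrank_self]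
    omega
  rw [LinearMap.range_eq_top] at hrange
  obtain ⟨e1, h1⟩ := hrange (1, 0)
  obtain ⟨e2, h2⟩ := hrange (0, 1)
  rw [hL, Prod.ext_iff] at h1 h2
  obtain ⟨h11, h12⟩ := h1
  obtain ⟨h21, h22⟩ := h2
  simp only at h11 h12 h21 h22
  -- `K = rad f ∪ (e3 + rad f)`
  have hsup : K = rad f ⊔ Submodule.span (ZMod 2) {e3} := by
    symm
    refine Submodule.eq_of_le_of_finrank_le
      (sup_le hf ((Submodule.span_singleton_le_iff_mem _ _).2 he3)) ?_
    have h3 : rad f < rad f ⊔ Submodule.span (ZMod 2) {e3} := by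
      refine lt_of_le_of_ne le_sup_left fun h => he3' ?_
      rw [h]
      exact (le_sup_right : _ ≤ rad f ⊔ Submodule.span (ZMod 2) {e3})
        (Submodule.mem_span_singleton_self e3)
    have h4 := Submodule.finrank_lt_finrank_of_lt h3
    omega
  have hKc : ∀ a ∈ K, a ∈ rad f ∨ ∃ r ∈ rad f, a = e3 + r := by
    intro a ha
    rw [hsup] at ha
    obtain ⟨r, hr', s, hs, rfl⟩ := Submodule.mem_sup.1 ha
    obtain ⟨t, rfl⟩ := Submodule.mem_span_singleton.1 hs
    rcases z2_cases t with rfl | rfl
    · left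
      rwa [zero_smul, add_zero]
    · right
      exact ⟨r, hr', by rw [one_smul, add_comm]⟩
  -- the form `T e3`
  have hKT : ∀ a ∈ K, ∀ b, T f e3 b a = 0 := by
    intro a ha b
    rcases hKc a ha with h | ⟨r, h, rfl⟩
    · exact T_rad e3 b h
    · rw [T_add hr, T_swap' e3 b e3, T_self, T_rad e3 b h, add_zero]
  have hproj : ∀ b, b + (y1 b • e1 + y2 b • e2) ∈ K := by
    intro b
    rw [hy]
    simp only [map_add, map_smul, h11, h12, h21, h22, smul_eq_mul, mul_one, mul_zero, add_zero,
      zero_add, z2_add_self, and_self]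
  have hexp : ∀ b c, T f e3 c b = y1 b * T f e3 c e1 + y2 b * T f e3 c e2 := by
    intro b c
    have h3 : ta hr e3 c (b + (y1 b • e1 + y2 b • e2)) = 0 := hKT _ (hproj b) c
    rw [map_add, map_add, map_smul, map_smul] at h3
    change T f e3 c b + (y1 b * T f e3 c e1 + y2 b * T f e3 c e2) = 0 at h3
    have h4 := z2_add_self (y1 b * T f e3 c e1 + y2 b * T f e3 c e2)
    linear_combination h3 - h4
  have s11 : T f e3 e1 e1 = 0 := by rw [T_swap, T_swap', T_self]
  have s22 : T f e3 e2 e2 = 0 := by rw [T_swap, T_swap', T_self]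
  have s21 : T f e3 e2 e1 = T f e1 e2 e3 := by rw [T_swap', T_swap, T_swap' e1 e3 e2]
  have s12 : T f e3 e1 e2 = T f e1 e2 e3 := by rw [T_swap, T_swap' e1 e3 e2]
  have hform : ∀ b c, T f e3 b c = (y1 b * y2 c + y1 c * y2 b) * T f e1 e2 e3 := by
    intro b c
    rw [hexp c b, T_swap' e3 b e1, T_swap' e3 b e2, hexp b e1, hexp b e2, s11, s22, s21, s12]
    ring
  have hone : T f e1 e2 e3 = 1 := by
    rcases z2_cases (T f e1 e2 e3) with h | h
    · exfalso
      apply he3'
      rw [mem_rad]
      intro a b x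
      rw [T_eq hr, T_swap', T_swap, hform a b, h, mul_zero]
    · exact h
  have hγ3 : ta hr e1 e2 e3 = 1 := hone
  refine ⟨ta hr e1 e2, fun a => ⟨fun ha => ?_, fun ha => ?_⟩, fun a b c z ha1 ha2 => ?_⟩
  · exact ⟨((hy a).1 (hf ha)).1, ((hy a).1 (hf ha)).2, T_rad e1 e2 ha⟩
  · rcases hKc a ((hy a).2 ⟨ha.1, ha.2.1⟩) with h | ⟨r, h, rfl⟩
    · exact h
    · exfalso
      have h3 := ha.2.2
      have h4 : ta hr e1 e2 r = 0 := T_rad e1 e2 h
      rw [map_add, hγ3, h4, add_zero] at h3
      exact one_ne_zero h3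
  · rw [T_eq hr]
    rcases hKc a ((hy a).2 ⟨ha1, ha2⟩) with h | ⟨r, h, rfl⟩
    · have h4 : ta hr e1 e2 a = 0 := T_rad e1 e2 h
      rw [T_rad c b h, h4, zero_mul]
    · have h4 : ta hr e1 e2 r = 0 := T_rad e1 e2 h
      rw [map_add, hγ3, h4, add_zero, T_add hr, T_rad c b h, add_zero, T_swap', T_swap, hform c b,
        hone]
      ring

end Pool.Agent.Krd
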