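import Pool.Agent.Krd.DefsA
import Pool.Agent.Krd.Third
import Pool.Agent.Krd.Sub

/-!
# Krd KR13: the two cases

`V` finite dimensional over `ZMod 2`, `g : I → V → ZMod 2`, `I` nonempty, and for all `i, j` the
radical `rad (g i + g j)` has codimension at most 3. Then there are `x1, x2, γ` with `IsA g x1 x2 γ` or
there is a subspace `U` of codimension at most 4 contained in all `rad (g i + g j)`.

Proof. Fix `o ∈ I`, `h i = g i + g o`, `J = {i | ¬ Quad (h i)}`, `U i = rad (h i)`. Note
`g i + g j = h i + h j` (`fun_add_self`). If `J` is empty, all `g i + g j` are `Quad` (`Quad.add`) and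
`U = ⊤` works. For `i ∈ J`, `U i` has codimension exactly 3 and the third derivative of `h i` is a
determinant (`exists_det`).
(F2) For `i, j ∈ J`: `U i ⊓ U j` has codimension at most 4. Proof. Otherwise `U i / (U i ⊓ U j)` has
dimension at least 2 and there are `a, a' ∈ U i` linearly independent modulo `U j`. For `a ∈ U i`:
`D c (D b (D a (h i + h j))) = D c (D b (D a (h j)))`. By the determinant formula for `h j` and
`a ∉ U j`: `{b | ∀ c z, D c (D b (D a (h j))) z = 0} = U j ⊔ span {a}`. So `h i + h j` is not `Quad`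
(`a ∉ U j`), its radical `R` has codimension 3, `a ∉ R`, and the same formula for `h i + h j` gives
`U j ⊔ span {a} = R ⊔ span {a}`; also for `a'`. So `R ≤ (U j ⊔ span {a}) ⊓ (U j ⊔ span {a'}) = U j`, so
`R = U j` (same dimension). But a third derivative which is a determinant is determined by its radical
(over `ZMod 2`: its value is `1` if and only if `a, b, c` are linearly independent modulo the radical),
so the third derivatives of `h i + h j` and `h j` agree and those of `h i` vanish: `Quad (h i)`,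
contradiction.
Apply `exists_K_or_N` to `(U i)` for `i ∈ J`.
* If `N ≤ U i` for all `i ∈ J`, codimension of `N` at most 4: `N ≤ rad (h i)` for all `i` (`rad = ⊤` for
  `i ∉ J`), so `N ≤ rad (h i + h j)` (`rad_add`).
* If `U i ≤ K` for all `i ∈ J`, `K` of codimension 2: choose `x1, x2` linearly independent with
  `K = ker x1 ⊓ ker x2` (`x1 ≠ 0`, `x2 ≠ 0`, `x1 ≠ x2` over `ZMod 2`). For `i ∈ J` let `δ i` be the
  functional `γ` of `exists_det'` for `h i`, for `i ∉ J` let `δ i = 0`; `γ i j = δ i + δ j`. `third`: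
  for `i ∉ J` both sides vanish for `h i`; add. `quad`: if `γ i j` vanishes on `K` then by `third`
  `K ≤ rad (h i + h j)`, of codimension 2, and `exists_det` (codimension would be 3) shows
  `Quad (h i + h j)`. `rad_iff`: let `h i + h j` be not `Quad`; its radical `R` has codimension 3. By
  `third`, `R ⊓ K = {a ∈ K | γ i j a = 0}` (there are `b, c` with `x1 b * x2 c + x1 c * x2 b = 1`), of
  codimension at most 3; so `R ⊓ K = R`, `R ≤ K`.
-/

set_option autoImplicit false
set_option linter.unusedSectionVars false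

namespace Pool.Agent.Krd

variable {V : Type*} [AddCommGroup V] [Module (ZMod 2) V] [FiniteDimensional (ZMod 2) V]
variable {I : Type*} [Nonempty I]

private theorem cls_dec : ∀ p1 p2 p3 q1 q2 q3 r1 r2 r3 : ZMod 2,
    (p1 * (q2 * r3 + q3 * r2) + p2 * (q1 * r3 + q3 * r1) + p3 * (q1 * r2 + q2 * r1) = 0 ↔
      (p1 = 0 ∧ p2 = 0 ∧ p3 = 0) ∨ (q1 = 0 ∧ q2 = 0 ∧ q3 = 0) ∨ (r1 = 0 ∧ r2 = 0 ∧ r3 = 0) ∨
      (p1 + q1 = 0 ∧ p2 + q2 = 0 ∧ p3 + q3 = 0) ∨ (p1 + r1 = 0 ∧ p2 + r2 = 0 ∧ p3 + r3 = 0) ∨
      (q1 + r1 = 0 ∧ q2 + r2 = 0 ∧ q3 + r3 = 0) ∨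
      (p1 + q1 + r1 = 0 ∧ p2 + q2 + r2 = 0 ∧ p3 + q3 + r3 = 0)) := by
  decide

private theorem cls_dz {f : V → ZMod 2}
    (hr : Module.finrank (ZMod 2) V ≤ Module.finrank (ZMod 2) (rad f) + 3) (hq : ¬ Quad f)
    (a b c z : V) : D a (D b (D c f)) z = 0 ↔
      a ∈ rad f ∨ b ∈ rad f ∨ c ∈ rad f ∨ a + b ∈ rad f ∨ a + c ∈ rad f ∨ b + c ∈ rad f ∨
        a + b + c ∈ rad f := by
  obtain ⟨-, x1, x2, x3, h1, h2⟩ := exists_det hr hq
  rw [h2]
  simp only [h1, map_add]
  exact cls_dec _ _ _ _ _ _ _ _ _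

private theorem cls_span (W : Submodule (ZMod 2) V) (a : V) :
    Module.finrank (ZMod 2) ↥(W ⊔ Submodule.span (ZMod 2) {a}) ≤
      Module.finrank (ZMod 2) W + 1 := by
  have h1 := Submodule.finrank_add_le_finrank_add_finrank W (Submodule.span (ZMod 2) {a})
  have h2 : Module.finrank (ZMod 2) ↥(Submodule.span (ZMod 2) {a}) ≤ 1 := by
    simpa using finrank_span_le_card (R := ZMod 2) ({a} : Set V)
  have h3 : Module.finrank (ZMod 2) ↥(W ⊔ Submodule.span (ZMod 2) {a}) ≤
    Module.finrank (ZMod 2) W + Module.finrank (ZMod 2) ↥(Submodule.span (ZMod 2) {a}) := h1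
  omega

private theorem cls_ex {f : V → ZMod 2}
    (hr : Module.finrank (ZMod 2) V ≤ Module.finrank (ZMod 2) (rad f) + 3) (hq : ¬ Quad f)
    {a r : V} (h : ∀ b, D a (D b (D r f)) 0 = 0) : a ∈ rad f ∨ r ∈ rad f ∨ a + r ∈ rad f := by
  obtain ⟨h3, -⟩ := exists_det hr hq
  set W1 := rad f ⊔ Submodule.span (ZMod 2) {a} with hW1
  set W := W1 ⊔ Submodule.span (ZMod 2) {r} with hW
  have h4 : Module.finrank (ZMod 2) W1 ≤ Module.finrank (ZMod 2) (rad f) + 1 :=
    cls_span (rad f) a
  have h5 : Module.finrank (ZMod 2) W ≤ Module.finrank (ZMod 2) W1 + 1 := cls_span W1 r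
  have h6 : W ≠ ⊤ := by
    intro h7
    have h8 : Module.finrank (ZMod 2) W = Module.finrank (ZMod 2) V := by
      rw [h7, finrank_top]
    omega
  obtain ⟨b, hb⟩ : ∃ b, b ∉ W := by
    by_contra h7
    push Not at h7
    exact h6 (Submodule.eq_top_iff'.2 h7)
  have hR : rad f ≤ W := le_sup_left.trans le_sup_left
  have ha : a ∈ W := Submodule.mem_sup_left
    (Submodule.mem_sup_right (Submodule.mem_span_singleton_self a))
  have hrW : r ∈ W := Submodule.mem_sup_right (Submodule.mem_span_singleton_self r)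
  rcases (cls_dz hr hq a b r 0).1 (h b) with h7 | h7 | h7 | h7 | h7 | h7 | h7
  · exact Or.inl h7
  · exact absurd (hR h7) hb
  · exact Or.inr (Or.inl h7)
  · exact absurd ((W.add_mem_iff_right ha).1 (hR h7)) hb
  · exact Or.inr (Or.inr h7)
  · exact absurd ((W.add_mem_iff_left hrW).1 (hR h7)) hb
  · exact absurd ((W.add_mem_iff_right ha).1 ((W.add_mem_iff_left hrW).1 (hR h7))) hb

private theorem cls_rad {f : V → ZMod 2} {a : V} (ha : a ∈ rad f) (b c z : V) :
    D c (D b (D a f)) z = 0 := mem_rad.1 ha c b z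

private theorem cls_F2 {p q : V → ZMod 2}
    (hp : Module.finrank (ZMod 2) V ≤ Module.finrank (ZMod 2) (rad p) + 3) (hpq : ¬ Quad p)
    (hq : Module.finrank (ZMod 2) V ≤ Module.finrank (ZMod 2) (rad q) + 3) (hqq : ¬ Quad q)
    (hs : Module.finrank (ZMod 2) V ≤ Module.finrank (ZMod 2) (rad (p + q)) + 3) :
    Module.finrank (ZMod 2) V ≤ Module.finrank (ZMod 2) ↥(rad p ⊓ rad q) + 4 := by
  by_contra hcon
  rw [not_le] at hcon
  obtain ⟨hp3, -⟩ := exists_det hp hpq
  obtain ⟨hq3, -⟩ := exists_det hq hqq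
  obtain ⟨a, ha, haq⟩ : ∃ a ∈ rad p, a ∉ rad q := by
    by_contra h
    push Not at h
    have h1 : rad p ⊓ rad q = rad p := inf_eq_left.2 h
    rw [h1] at hcon
    omega
  obtain ⟨a', ha', haW⟩ : ∃ a' ∈ rad p, a' ∉ (rad p ⊓ rad q) ⊔ Submodule.span (ZMod 2) {a} := by
    by_contra h
    push Not at h
    have h1 : Module.finrank (ZMod 2) (rad p) ≤ Module.finrank (ZMod 2)
      ↥((rad p ⊓ rad q) ⊔ Submodule.span (ZMod 2) {a}) := Submodule.finrank_mono h
    have h2 := cls_span (rad p ⊓ rad q) a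
    omega
  have haq' : a' ∉ rad q := fun h => haW (Submodule.mem_sup_left ⟨ha', h⟩)
  have haa : a + a' ∉ rad q := by
    intro h
    apply haW
    have h1 : a + a' ∈ rad p ⊓ rad q := ⟨add_mem ha ha', h⟩
    have h2 : a ∈ (rad p ⊓ rad q) ⊔ Submodule.span (ZMod 2) {a} :=
      Submodule.mem_sup_right (Submodule.mem_span_singleton_self a)
    exact (Submodule.add_mem_iff_right _ h2).1 (Submodule.mem_sup_left h1)
  have hsum : ∀ a b c z : V, D c (D b (D a (p + q))) z =
      D c (D b (D a p)) z + D c (D b (D a q)) z := by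
    intro a b c z
    rw [D_add, D_add, D_add, Pi.add_apply]
  have hsq : ¬ Quad (p + q) := by
    intro h
    apply haq
    rw [mem_rad]
    intro c b z
    have h1 := hsum a b c z
    rw [h c b a z, cls_rad ha, zero_add] at h1
    exact h1.symm
  have hRle : rad (p + q) ≤ rad q := by
    intro r hr
    have key : ∀ a ∈ rad p, a ∉ rad q → r ∈ rad q ∨ a + r ∈ rad q := by
      intro a ha haq
      have h1 : ∀ b, D a (D b (D r q)) 0 = 0 := by
        intro b
        have h2 := hsum a b r 0
        have h3 : D r (D b (D a (p + q))) 0 = 0 := by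
          rw [D_comm b a, D_comm r a, D_comm r b]
          exact mem_rad.1 hr a b 0
        rw [h3, cls_rad ha, zero_add] at h2
        rw [D_comm b r, D_comm a r, D_comm a b]
        exact h2.symm
      rcases cls_ex hq hqq h1 with h2 | h2 | h2
      · exact absurd h2 haq
      · exact Or.inl h2
      · exact Or.inr h2
    rcases key a ha haq with h1 | h1
    · exact h1
    rcases key a' ha' haq' with h2 | h2
    · exact h2
    exfalso
    apply haa
    have h3 := add_mem h1 h2
    have h4 : a + r + (a' + r) = a + a' + (r + r) := by abel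
    rwa [h4, add_self', add_zero] at h3
  obtain ⟨hs3, -⟩ := exists_det hs hsq
  have hR : rad (p + q) = rad q := Submodule.eq_of_le_of_finrank_eq hRle (by omega)
  apply hpq
  intro a b c z
  have h1 := hsum c b a z
  have h2 : D a (D b (D c (p + q))) z = D a (D b (D c q)) z := by
    have h3 := cls_dz hs hsq a b c z
    have h4 := cls_dz hq hqq a b c z
    rw [hR, ← h4] at h3
    rcases z2_cases (D a (D b (D c (p + q))) z) with h5 | h5
    · rw [h5, h3.1 h5]
    · rcases z2_cases (D a (D b (D c q)) z) with h6 | h6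
      · rw [h3.2 h6] at h5
        exact absurd h5 (by decide)
      · rw [h5, h6]
  rw [h2] at h1
  linear_combination -h1

private theorem cls_ker (K : Submodule (ZMod 2) V) (l : V →ₗ[ZMod 2] ZMod 2) :
    Module.finrank (ZMod 2) K ≤ Module.finrank (ZMod 2) ↥(K ⊓ LinearMap.ker l) + 1 := by
  have h1 := Submodule.finrank_sup_add_finrank_inf_eq K (LinearMap.ker l)
  have h2 := LinearMap.finrank_range_add_finrank_ker l
  have h3 : Module.finrank (ZMod 2) (LinearMap.range l) ≤ 1 := by
    have := Submodule.finrank_le (LinearMap.range l)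
    rwa [Module.finrank_self] at this
  have h4 := Submodule.finrank_le (K ⊔ LinearMap.ker l)
  omega

private theorem cls_fun {K : Submodule (ZMod 2) V}
    (hK : Module.finrank (ZMod 2) V = Module.finrank (ZMod 2) K + 2) :
    ∃ (x1 x2 : V →ₗ[ZMod 2] ZMod 2) (v w : V), (∀ a, a ∈ K ↔ x1 a = 0 ∧ x2 a = 0) ∧
      x1 v = 1 ∧ x2 v = 0 ∧ x1 w = 0 ∧ x2 w = 1 := by
  have h1 : Module.finrank (ZMod 2) (V ⧸ K) = 2 := by
    have := Submodule.finrank_quotient_add_finrank K
    omega
  let b : Module.Basis (Fin 2) (ZMod 2) (V ⧸ K) := Module.finBasisOfFinrankEq _ _ h1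
  obtain ⟨v, hv⟩ := K.mkQ_surjective (b 0)
  obtain ⟨w, hw⟩ := K.mkQ_surjective (b 1)
  refine ⟨b.coord 0 ∘ₗ K.mkQ, b.coord 1 ∘ₗ K.mkQ, v, w, fun a => ?_, ?_, ?_, ?_, ?_⟩
  · rw [← Submodule.Quotient.mk_eq_zero K]
    change K.mkQ a = 0 ↔ b.coord 0 (K.mkQ a) = 0 ∧ b.coord 1 (K.mkQ a) = 0
    constructor
    · intro h
      rw [h, map_zero, map_zero]
      exact ⟨rfl, rfl⟩
    · rintro ⟨h2, h3⟩
      apply b.ext_elem
      intro i
      rw [map_zero, Finsupp.zero_apply]
      fin_cases i
      · exact h2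
      · exact h3
  all_goals
    rw [LinearMap.comp_apply]
    simp [hv, hw]

theorem isA_or_exists (g : I → V → ZMod 2)
    (h : ∀ i j, Module.finrank (ZMod 2) V ≤ Module.finrank (ZMod 2) (rad (g i + g j)) + 3) :
    (∃ (x1 x2 : V →ₗ[ZMod 2] ZMod 2) (γ : I → I → V →ₗ[ZMod 2] ZMod 2), IsA g x1 x2 γ) ∨
    ∃ U : Submodule (ZMod 2) V,
      Module.finrank (ZMod 2) V ≤ Module.finrank (ZMod 2) U + 4 ∧
        ∀ i j, U ≤ rad (g i + g j) := by
  classical
  let o : I := Classical.arbitrary I
  have hgg : ∀ i j, g i + g j = (g i + g o) + (g j + g o) := by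
    intro i j
    have h1 : (g i + g o) + (g j + g o) = g i + g j + (g o + g o) := by abel
    rw [h1, fun_add_self, add_zero]
  set e : I → V → ZMod 2 := fun i => g i + g o with he
  have hgg' : ∀ i j, g i + g j = e i + e j := hgg
  have hr : ∀ i, Module.finrank (ZMod 2) V ≤ Module.finrank (ZMod 2) (rad (e i)) + 3 :=
    fun i => h i o
  have hs : ∀ i j, Module.finrank (ZMod 2) V ≤ Module.finrank (ZMod 2) (rad (e i + e j)) + 3 :=
    fun i j => by
      rw [← hgg']
      exact h i j
  by_cases hJ : ∀ i, Quad (e i)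
  · right
    refine ⟨⊤, by rw [finrank_top]; omega, fun i j => ?_⟩
    rw [hgg', quad_iff_rad_eq_top.1 ((hJ i).add (hJ j))]
  push Not at hJ
  obtain ⟨i0, hi0⟩ := hJ
  have hne : Nonempty {i // ¬ Quad (e i)} := ⟨⟨i0, hi0⟩⟩
  rcases exists_K_or_N (fun i : {i // ¬ Quad (e i)} => rad (e i.1))
    (fun i => (exists_det (hr i.1) i.2).1)
    (fun i j => cls_F2 (hr i.1) i.2 (hr j.1) j.2 (hs i.1 j.1)) with ⟨K, hK, hKU⟩ | ⟨N, hN, hNU⟩
  · left
    obtain ⟨x1, x2, v, w, hx, hv1, hv2, hw1, hw2⟩ := cls_fun hK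
    have hδ : ∀ i, ∃ d : V →ₗ[ZMod 2] ZMod 2, ∀ a b c z, x1 a = 0 → x2 a = 0 →
        D c (D b (D a (e i))) z = d a * (x1 b * x2 c + x1 c * x2 b) := by
      intro i
      by_cases hi : Quad (e i)
      · refine ⟨0, fun a b c z _ _ => ?_⟩
        rw [hi c b a z, LinearMap.zero_apply, zero_mul]
      · obtain ⟨d, -, hd⟩ := exists_det' (hr i) hi hK (hKU ⟨i, hi⟩) hx
        exact ⟨d, hd⟩
    choose d hd using hδ
    have third : ∀ i j a b c z, x1 a = 0 → x2 a = 0 →
        D c (D b (D a (g i + g j))) z = (d i + d j) a * (x1 b * x2 c + x1 c * x2 b) := by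
      intro i j a b c z h1 h2
      rw [hgg', D_add, D_add, D_add, Pi.add_apply, hd i a b c z h1 h2, hd j a b c z h1 h2,
        LinearMap.add_apply]
      ring
    refine ⟨x1, x2, fun i j => d i + d j, ?_, ?_, ?_, third, ?_, ?_⟩
    · rintro rfl
      exact zero_ne_one hv1
    · rintro rfl
      exact zero_ne_one hw2
    · rintro rfl
      rw [hv1] at hv2
      exact one_ne_zero hv2
    · intro i j hij
      by_contra hq
      have hKR : K ≤ rad (g i + g j) := by
        intro a ha
        obtain ⟨h1, h2⟩ := (hx a).1 ha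
        rw [mem_rad]
        intro c b z
        rw [third i j a b c z h1 h2, hij a h1 h2, zero_mul]
      have h1 := Submodule.finrank_mono hKR
      have h2 := (exists_det (h i j) hq).1
      omega
    · intro i j hq
      have h2 := (exists_det (h i j) hq).1
      have hin : ∀ a, x1 a = 0 → x2 a = 0 → (a ∈ rad (g i + g j) ↔ (d i + d j) a = 0) := by
        intro a h3 h4
        constructor
        · intro h5
          have h6 := third i j a v w 0 h3 h4
          rw [cls_rad h5, hv1, hv2, hw1, hw2, one_mul, zero_mul, add_zero, mul_one] at h6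
          exact h6.symm
        · intro h5
          rw [mem_rad]
          intro c b z
          rw [third i j a b c z h3 h4, h5, zero_mul]
      have hle : K ⊓ LinearMap.ker (d i + d j) ≤ rad (g i + g j) ⊓ K := by
        intro a ha
        obtain ⟨h3, h4⟩ := (hx a).1 ha.1
        exact ⟨(hin a h3 h4).2 ha.2, ha.1⟩
      have h3 := Submodule.finrank_mono hle
      have h4 := cls_ker K (d i + d j)
      have h5 : rad (g i + g j) ⊓ K = rad (g i + g j) :=
        Submodule.eq_of_le_of_finrank_le inf_le_left (by omega)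
      intro a
      constructor
      · intro ha
        have haK : a ∈ K := by
          rw [← h5] at ha
          exact ha.2
        obtain ⟨h6, h7⟩ := (hx a).1 haK
        exact ⟨h6, h7, (hin a h6 h7).1 ha⟩
      · rintro ⟨h6, h7, h8⟩
        exact (hin a h6 h7).2 h8
  · right
    refine ⟨N, hN, fun i j => ?_⟩
    have h1 : ∀ i, N ≤ rad (e i) := by
      intro i
      by_cases hi : Quad (e i)
      · rw [quad_iff_rad_eq_top.1 hi]
        exact le_top
      · exact hNU ⟨i, hi⟩
    rw [hgg']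
    exact (le_inf (h1 i) (h1 j)).trans rad_add

end Pool.Agent.Krd
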