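import Pool.Agent.Krd.Orth

/-!
# Krd KR8: counting

`finrank V = 2 * m`, `m ≥ 1`, `g : I → V → ZMod 2` a family of `2 ^ (2 * m - 1)` functions, all
`g i + g j` (`i ≠ j`) bent, `U ≤ rad (g i + g j)` for all `i, j`.

* `exists_unique_j`: for `u ∈ U`, `u ≠ 0`, `i`, and a linear functional `φ` with `φ u = 0` there is
  exactly one `j` with `D x (D u (g i + g j)) z = φ x` for all `x, z`. Proof. For every `j` the second
  derivatives `D x (D u (g i + g j)) z` are the values `φ_j x` of a linear functional `φ_j`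
  (`exists_bil` for `g i + g j`), with `φ_j u = 0` (`D_self`) and `φ_i = 0`. The map `j ↦ φ_j` is
  injective: `φ_j + φ_j'` is the functional of `g j + g j'`
  (`g j + g j' = (g i + g j) + (g i + g j')`, `D_add`, `fun_add_self`), which is nonzero for
  `j ≠ j'` by `bil_ne_zero`. There are `2 ^ (2 * m - 1)` functionals `φ` with `φ u = 0` (kernel of the
  surjective evaluation at `u` on the dual space, which has `2 ^ (2 * m)` elements), and
  `card I = 2 ^ (2 * m - 1)`; an injective map between finite sets of equal size is bijective.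
* `sum_card`: if `finrank V = finrank U + s` then
  `∑ j ≠ i, card (U ⊓ orth (g i + g j) U) + 2 ^ (2 * m - s) + 2 ^ s = 3 * 2 ^ (2 * m - 1)`.
  Proof. Exchange the sums: the left sum is `∑ u : U` of the number of `j ≠ i` with
  `u ∈ orth (g i + g j) U`, i.e. with `D u' (D u (g i + g j)) = 0` for all `u' ∈ U` (`D_comm`). For
  `u = 0` this is `card I - 1`. For `u ≠ 0` it is the number of `φ ≠ 0` vanishing on `U` (by
  `exists_unique_j`; `φ = 0` corresponds to `j = i`), which is `2 ^ s - 1` (the dual annihilator of `U`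
  has dimension `s`; these `φ` satisfy `φ u = 0`). Total: `M - 1 + (2 ^ (2 * m - s) - 1) * (2 ^ s - 1)`
  with `M = 2 ^ (2 * m - 1)`, and `2 ^ (2 * m - s) * 2 ^ s = 2 * M`.
-/

set_option autoImplicit false
set_option linter.unusedSectionVars false

namespace Pool.Agent.Krd

variable {V : Type*} [AddCommGroup V] [Module (ZMod 2) V] [Fintype V]
variable {I : Type*} [Fintype I] [DecidableEq I]

/-- the functional of `g j + g j'` -/
private theorem cnt_sum (g : I → V → ZMod 2) (i j j' : I) (x u z : V) :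
    D x (D u (g j + g j')) z =
      D x (D u (g i + g j)) z + D x (D u (g i + g j')) z := by
  have h : g j + g j' = (g i + g j) + (g i + g j') := by
    have h1 := fun_add_self (g i)
    calc g j + g j' = 0 + (g j + g j') := (zero_add _).symm
      _ = (g i + g i) + (g j + g j') := by rw [h1]
      _ = (g i + g j) + (g i + g j') := by abel
  rw [h, D_add, D_add, Pi.add_apply]

private theorem cnt_ker {m : ℕ} (hV : Module.finrank (ZMod 2) V = 2 * m) {u : V} (hu0 : u ≠ 0) :
    Nat.card {φ : Module.Dual (ZMod 2) V // φ u = 0} = 2 ^ (2 * m - 1) := by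
  let ev : Module.Dual (ZMod 2) V →ₗ[ZMod 2] ZMod 2 := Module.Dual.eval (ZMod 2) V u
  have hev : ∀ φ, ev φ = φ u := fun φ => rfl
  have hsurj : Function.Surjective ev := by
    obtain ⟨φ, hφ⟩ : ∃ φ : Module.Dual (ZMod 2) V, φ u ≠ 0 := by
      by_contra h
      push Not at h
      exact hu0 ((Module.forall_dual_apply_eq_zero_iff (ZMod 2) u).1 h)
    intro c
    rcases z2_cases c with rfl | rfl
    · exact ⟨0, map_zero ev⟩
    · refine ⟨φ, ?_⟩
      rw [hev]
      rcases z2_cases (φ u) with h | h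
      · exact absurd h hφ
      · exact h
  have h1 := LinearMap.finrank_range_add_finrank_ker ev
  rw [LinearMap.range_eq_top.2 hsurj, finrank_top, Module.finrank_self, Subspace.dual_finrank_eq,
    hV] at h1
  have h2 : Nat.card (LinearMap.ker ev) = 2 ^ (2 * m - 1) := by
    rw [Module.natCard_eq_pow_finrank (K := ZMod 2), Nat.card_zmod]
    congr 1
    omega
  rw [← h2]
  exact Nat.card_congr (Equiv.subtypeEquivRight fun φ => by
    rw [LinearMap.mem_ker, hev])

theorem exists_unique_j {m : ℕ} (hV : Module.finrank (ZMod 2) V = 2 * m)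
    (hI : Fintype.card I = 2 ^ (2 * m - 1)) (g : I → V → ZMod 2)
    (hb : ∀ i j, i ≠ j → Bent (g i + g j)) {U : Submodule (ZMod 2) V}
    (hU : ∀ i j, U ≤ rad (g i + g j)) {u : V} (hu : u ∈ U) (hu0 : u ≠ 0) (i : I)
    (φ : V →ₗ[ZMod 2] ZMod 2) (hφ : φ u = 0) :
    ∃! j, ∀ x z, D x (D u (g i + g j)) z = φ x := by
  classical
  have hex := fun j => exists_bil (hU i j)
  choose B hB using hex
  have hF : ∀ j, B j ⟨u, hu⟩ u = 0 := fun j => by
    rw [← hB j ⟨u, hu⟩ u 0]
    exact D_self u _ 0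
  let F : I → {φ : Module.Dual (ZMod 2) V // φ u = 0} := fun j => ⟨B j ⟨u, hu⟩, hF j⟩
  have hinj : Function.Injective F := by
    intro j j' hjj
    by_contra hne
    obtain ⟨B', hB'⟩ := exists_bil (hU j j')
    refine bil_ne_zero (hb j j' hne) hB' (u := ⟨u, hu⟩) (fun h => hu0 (congrArg Subtype.val h)) ?_
    refine LinearMap.ext fun x => ?_
    have h1 := congrArg (fun ψ => ψ.1 x) hjj
    have h2 : B j ⟨u, hu⟩ x = B j' ⟨u, hu⟩ x := h1
    rw [LinearMap.zero_apply, ← hB' ⟨u, hu⟩ x 0, cnt_sum g i j j', hB j ⟨u, hu⟩ x 0,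
      hB j' ⟨u, hu⟩ x 0, h2, z2_add_self]
  have hcard : Nat.card {φ : Module.Dual (ZMod 2) V // φ u = 0} = Nat.card I := by
    rw [cnt_ker hV hu0, Nat.card_eq_fintype_card, hI]
  have : Finite {φ : Module.Dual (ZMod 2) V // φ u = 0} := by
    have : Finite (Module.Dual (ZMod 2) V) := Module.finite_of_finite (ZMod 2)
    infer_instance
  have hbij : Function.Bijective F :=
    (Nat.bijective_iff_injective_and_card F).2 ⟨hinj, hcard.symm⟩
  obtain ⟨j, hj⟩ := hbij.2 ⟨φ, hφ⟩
  have hval : ∀ k, (F k).1 = B k ⟨u, hu⟩ := fun k => rfl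
  refine ⟨j, fun x z => ?_, fun k hk => ?_⟩
  · rw [hB j ⟨u, hu⟩ x z, ← hval, hj]
  · apply hbij.1
    rw [hj]
    refine Subtype.ext (LinearMap.ext fun x => ?_)
    rw [hval, ← hB k ⟨u, hu⟩ x 0]
    exact hk x 0

private theorem cnt_ann {U : Submodule (ZMod 2) V} {s : ℕ}
    (hs : Module.finrank (ZMod 2) V = Module.finrank (ZMod 2) U + s) :
    Nat.card U.dualAnnihilator = 2 ^ s := by
  have h1 := Subspace.finrank_add_finrank_dualAnnihilator_eq U
  rw [Module.natCard_eq_pow_finrank (K := ZMod 2), Nat.card_zmod]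
  congr 1
  omega

open Classical in
private theorem cnt_fib {m : ℕ} (hV : Module.finrank (ZMod 2) V = 2 * m)
    (hI : Fintype.card I = 2 ^ (2 * m - 1)) (g : I → V → ZMod 2)
    (hb : ∀ i j, i ≠ j → Bent (g i + g j)) {U : Submodule (ZMod 2) V}
    (hU : ∀ i j, U ≤ rad (g i + g j)) {s : ℕ}
    (hs : Module.finrank (ZMod 2) V = Module.finrank (ZMod 2) U + s) (i : I) {u : V}
    (hu : u ∈ U) (hu0 : u ≠ 0) :
    ((Finset.univ : Finset I).filter fun j => u ∈ orth (g i + g j) U).card = 2 ^ s := by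
  have h1 : ∀ φ : U.dualAnnihilator, ∃! j, ∀ x z, D x (D u (g i + g j)) z = φ.1 x := fun φ =>
    exists_unique_j hV hI g hb hU hu hu0 i φ.1 ((Submodule.mem_dualAnnihilator _).1 φ.2 u hu)
  choose F hF hF' using h1
  have : Finite (Module.Dual (ZMod 2) V) := Module.finite_of_finite (ZMod 2)
  letI : Fintype U.dualAnnihilator := Fintype.ofFinite _
  have hinj : Function.Injective F := by
    intro φ ψ h
    refine Subtype.ext (LinearMap.ext fun x => ?_)
    rw [← hF φ x 0, ← hF ψ x 0, h]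
  have himg : ((Finset.univ : Finset I).filter fun j => u ∈ orth (g i + g j) U) =
      (Finset.univ : Finset U.dualAnnihilator).image F := by
    ext j
    rw [Finset.mem_filter, Finset.mem_image]
    constructor
    · rintro ⟨-, hj⟩
      obtain ⟨B, hB⟩ := exists_bil (hU i j)
      have hmem : B ⟨u, hu⟩ ∈ U.dualAnnihilator := by
        rw [Submodule.mem_dualAnnihilator]
        intro w hw
        rw [← hB ⟨u, hu⟩ w 0, D_comm]
        exact (mem_orth.1 hj) w hw 0
      refine ⟨⟨B ⟨u, hu⟩, hmem⟩, Finset.mem_univ _, ?_⟩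
      exact (hF' ⟨B ⟨u, hu⟩, hmem⟩ j fun x z => hB ⟨u, hu⟩ x z).symm
    · rintro ⟨φ, -, rfl⟩
      refine ⟨Finset.mem_univ _, mem_orth.2 fun w hw y => ?_⟩
      rw [D_comm, hF φ w y]
      exact (Submodule.mem_dualAnnihilator _).1 φ.2 w hw
  rw [himg, Finset.card_image_of_injective _ hinj, Finset.card_univ, ← Nat.card_eq_fintype_card,
    cnt_ann hs]

theorem sum_card {m : ℕ} (hm : 1 ≤ m) (hV : Module.finrank (ZMod 2) V = 2 * m)
    (hI : Fintype.card I = 2 ^ (2 * m - 1)) (g : I → V → ZMod 2)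
    (hb : ∀ i j, i ≠ j → Bent (g i + g j)) {U : Submodule (ZMod 2) V}
    (hU : ∀ i j, U ≤ rad (g i + g j)) {s : ℕ}
    (hs : Module.finrank (ZMod 2) V = Module.finrank (ZMod 2) U + s) (i : I) :
    ∑ j ∈ Finset.univ.erase i, Nat.card ↥(U ⊓ orth (g i + g j) U) + 2 ^ (2 * m - s) + 2 ^ s =
      3 * 2 ^ (2 * m - 1) := by
  classical
  have hUc : Fintype.card U = 2 ^ (2 * m - s) := by
    rw [← Nat.card_eq_fintype_card, Module.natCard_eq_pow_finrank (K := ZMod 2), Nat.card_zmod]
    congr 1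
    omega
  -- the sum as a double sum
  have h1 : ∀ j, Nat.card ↥(U ⊓ orth (g i + g j) U) =
      ∑ u : U, if (u : V) ∈ orth (g i + g j) U then 1 else 0 := by
    intro j
    rw [← Finset.card_filter, ← Fintype.card_subtype, ← Nat.card_eq_fintype_card]
    refine Nat.card_congr ?_
    exact
      { toFun := fun x => ⟨⟨x.1, x.2.1⟩, x.2.2⟩
        invFun := fun x => ⟨x.1.1, x.1.2, x.2⟩
        left_inv := fun x => rfl
        right_inv := fun x => rfl }
  have h2 : ∑ j ∈ Finset.univ.erase i, Nat.card ↥(U ⊓ orth (g i + g j) U) =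
      ∑ u : U, ((Finset.univ.erase i).filter fun j => (u : V) ∈ orth (g i + g j) U).card := by
    rw [Finset.sum_congr rfl fun j _ => h1 j, Finset.sum_comm]
    exact Finset.sum_congr rfl fun u _ => (Finset.card_filter _ _).symm
  have h3 : ∀ u : U, u ≠ 0 →
      ((Finset.univ.erase i).filter fun j => (u : V) ∈ orth (g i + g j) U).card = 2 ^ s - 1 := by
    intro u hu
    have hu0 : (u : V) ≠ 0 := fun h => hu (Subtype.ext h)
    have h4 := cnt_fib hV hI g hb hU hs i u.2 hu0
    have h5 : i ∈ (Finset.univ : Finset I).filter fun j => (u : V) ∈ orth (g i + g j) U := by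
      refine Finset.mem_filter.2 ⟨Finset.mem_univ _, mem_orth.2 fun w _ y => ?_⟩
      rw [fun_add_self]
      simp [D]
    rw [Finset.filter_erase, Finset.card_erase_of_mem h5, h4]
  have h0 : ((Finset.univ.erase i).filter fun j => ((0 : U) : V) ∈ orth (g i + g j) U).card =
      2 ^ (2 * m - 1) - 1 := by
    rw [Finset.filter_true_of_mem, Finset.card_erase_of_mem (Finset.mem_univ i),
      Finset.card_univ, hI]
    intro j _
    exact zero_mem _
  rw [h2, ← Finset.add_sum_erase _ _ (Finset.mem_univ (0 : U)), h0,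
    Finset.sum_congr rfl fun u hu => h3 u (Finset.ne_of_mem_erase hu), Finset.sum_const,
    Finset.card_erase_of_mem (Finset.mem_univ _), Finset.card_univ, hUc, smul_eq_mul]
  have hsm : s ≤ 2 * m := by omega
  have h6 : 2 ^ (2 * m - s) * 2 ^ s = 2 * 2 ^ (2 * m - 1) := by
    rw [← pow_add, ← pow_succ']
    congr 1
    omega
  have h7 : 1 ≤ 2 ^ (2 * m - s) := Nat.one_le_two_pow
  have h8 : 1 ≤ 2 ^ s := Nat.one_le_two_pow
  have h9 : 1 ≤ 2 ^ (2 * m - 1) := Nat.one_le_two_pow
  obtain ⟨a, ha⟩ := Nat.exists_eq_add_of_le h7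
  obtain ⟨b, hb'⟩ := Nat.exists_eq_add_of_le h8
  obtain ⟨c, hc⟩ := Nat.exists_eq_add_of_le h9
  rw [ha, hb', hc] at h6 ⊢
  rw [Nat.add_sub_cancel_left, Nat.add_sub_cancel_left, Nat.add_sub_cancel_left]
  nlinarith

end Pool.Agent.Krd
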