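import Mathlib

/-!
# Codes with Kerdock parameters (MP_7016dd_lc): definitions

Boolean functions on a finite vector space `V` over `ZMod 2`, their derivatives, affine, quadratic and
bent functions.
-/

set_option autoImplicit false
set_option linter.unusedSectionVars false

namespace Pool.Agent.Krd

/-- The derivative of `f` in the direction `a`. -/
def D {V : Type*} [AddCommGroup V] (a : V) (f : V → ZMod 2) : V → ZMod 2 :=
  fun x => f x + f (x + a)

/-- `f` is affine: all second derivatives vanish. -/
def Aff {V : Type*} [AddCommGroup V] (f : V → ZMod 2) : Prop :=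
  ∀ a b x : V, D a (D b f) x = 0

/-- `f` has degree at most two: all third derivatives vanish. -/
def Quad {V : Type*} [AddCommGroup V] (f : V → ZMod 2) : Prop :=
  ∀ a b c x : V, D a (D b (D c f)) x = 0

/-- The sign of an element of `ZMod 2`. -/
def sg (t : ZMod 2) : ℤ := if t = 0 then 1 else -1

/-- `f` is bent: every derivative in a direction `a ≠ 0` takes both values equally often. -/
def Bent {V : Type*} [AddCommGroup V] [Fintype V] (f : V → ZMod 2) : Prop :=
  ∀ a : V, a ≠ 0 → ∑ x, sg (D a f x) = 0

section basic

variable {V : Type*} [AddCommGroup V] [Module (ZMod 2) V]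

theorem add_self' (v : V) : v + v = 0 := by
  have h : (2 : ZMod 2) • v = 0 := by
    rw [show (2 : ZMod 2) = 0 from rfl, zero_smul]
  rwa [two_smul] at h

theorem z2_add_self (t : ZMod 2) : t + t = 0 := by
  revert t; decide

theorem z2_cases (t : ZMod 2) : t = 0 ∨ t = 1 := by
  revert t; decide

theorem D_apply (a x : V) (f : V → ZMod 2) : D a f x = f x + f (x + a) := rfl

theorem D_zero (f : V → ZMod 2) (x : V) : D 0 f x = 0 := by
  rw [D_apply, add_zero, z2_add_self]

theorem D_add (a : V) (f g : V → ZMod 2) : D a (f + g) = D a f + D a g := by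
  funext x
  simp only [D, Pi.add_apply]
  ring

theorem D_comm (a b : V) (f : V → ZMod 2) : D a (D b f) = D b (D a f) := by
  funext x
  simp only [D]
  rw [add_right_comm x a b]
  ring

theorem D_self (a : V) (f : V → ZMod 2) (x : V) : D a (D a f) x = 0 := by
  simp only [D]
  rw [add_assoc x a a, add_self' a, add_zero]
  have := z2_add_self (f x + f (x + a))
  linear_combination this

theorem D_add_dir (a b : V) (f : V → ZMod 2) (x : V) :
    D (a + b) f x = D a f (x + b) + D b f x := by
  simp only [D]
  rw [add_comm a b, ← add_assoc]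
  have := z2_add_self (f (x + b))
  linear_combination -this

theorem D_shift (a : V) (f : V → ZMod 2) (x : V) : D a f (x + a) = D a f x := by
  simp only [D]
  rw [add_assoc x a a, add_self' a, add_zero, add_comm]

/-- shifting the argument and adding the value: `F (x + b) = F x + D b F x`. -/
theorem shift_eq (b : V) (F : V → ZMod 2) (x : V) : F (x + b) = F x + D b F x := by
  simp only [D]
  have := z2_add_self (F x)
  linear_combination -this

theorem sg_add (s t : ZMod 2) : sg (s + t) = sg s * sg t := by
  revert s t; decide

theorem sg_zero : sg 0 = 1 := by decide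

theorem sg_one : sg 1 = -1 := by decide

theorem sg_mul_self (s : ZMod 2) : sg s * sg s = 1 := by
  revert s; decide

theorem Aff.add {f g : V → ZMod 2} (hf : Aff f) (hg : Aff g) : Aff (f + g) := by
  intro a b x
  rw [D_add, D_add, Pi.add_apply, hf a b x, hg a b x, add_zero]

theorem Quad.add {f g : V → ZMod 2} (hf : Quad f) (hg : Quad g) : Quad (f + g) := by
  intro a b c x
  rw [D_add, D_add, D_add, Pi.add_apply, hf a b c x, hg a b c x, add_zero]

theorem Aff.quad {f : V → ZMod 2} (hf : Aff f) : Quad f := by
  intro a b c x
  rw [D_apply, hf b c x, hf b c (x + a), add_zero]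

theorem Quad.aff_D {f : V → ZMod 2} (hf : Quad f) (u : V) : Aff (D u f) :=
  fun a b x => hf a b u x

theorem quad_iff_aff_D {f : V → ZMod 2} : Quad f ↔ ∀ u, Aff (D u f) :=
  ⟨fun h u => h.aff_D u, fun h a b c x => h c a b x⟩

theorem Aff.shift {f : V → ZMod 2} (hf : Aff f) (u : V) : Aff (fun x => f (x + u)) := by
  intro a b x
  have := hf a b (x + u)
  simp only [D] at this ⊢
  rw [add_right_comm x a u, add_right_comm x b u, add_right_comm (x + a) b u]
  convert this using 3
  all_goals abel_nf

theorem fun_add_self (f : V → ZMod 2) : f + f = 0 := by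
  funext x
  exact z2_add_self (f x)

/-- The subspace of all directions `u` for which `D u f` is affine. -/
def rad (f : V → ZMod 2) : Submodule (ZMod 2) V where
  carrier := {u | Aff (D u f)}
  zero_mem' := by
    intro a b x
    have h : D (0 : V) f = fun _ => 0 := by funext y; exact D_zero f y
    rw [h]
    simp [D]
  add_mem' := by
    intro u v hu hv
    have h : D (u + v) f = (fun x => D u f (x + v)) + D v f := by
      funext x
      rw [Pi.add_apply, D_add_dir]
    change Aff (D (u + v) f)
    rw [h]
    exact (Aff.shift hu v).add hv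
  smul_mem' := by
    intro c u hu
    rcases z2_cases c with rfl | rfl
    · rw [zero_smul]
      intro a b x
      have h : D (0 : V) f = fun _ => 0 := by funext y; exact D_zero f y
      rw [h]
      simp [D]
    · rwa [one_smul]

theorem mem_rad {f : V → ZMod 2} {u : V} : u ∈ rad f ↔ Aff (D u f) := Iff.rfl

theorem rad_add {f g : V → ZMod 2} : rad f ⊓ rad g ≤ rad (f + g) := by
  intro u hu
  rw [mem_rad, D_add]
  exact (mem_rad.1 hu.1).add (mem_rad.1 hu.2)

theorem quad_iff_rad_eq_top {f : V → ZMod 2} : Quad f ↔ rad f = ⊤ := by
  rw [quad_iff_aff_D]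
  constructor
  · intro h
    rw [eq_top_iff]
    intro u _
    exact h u
  · intro h u
    have : u ∈ rad f := by rw [h]; trivial
    exact this

/-- The subspace of all `w` such that `D w (D u f)` vanishes for all `u ∈ U`. -/
def orth (f : V → ZMod 2) (U : Submodule (ZMod 2) V) : Submodule (ZMod 2) V where
  carrier := {w | ∀ u ∈ U, ∀ y, D w (D u f) y = 0}
  zero_mem' := by
    intro u _ y
    exact D_zero _ y
  add_mem' := by
    intro w w' hw hw' u hu y
    rw [D_add_dir, hw u hu (y + w'), hw' u hu y, add_zero]
  smul_mem' := by
    intro c w hw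
    rcases z2_cases c with rfl | rfl
    · rw [zero_smul]
      intro u _ y
      exact D_zero _ y
    · rwa [one_smul]

theorem mem_orth {f : V → ZMod 2} {U : Submodule (ZMod 2) V} {w : V} :
    w ∈ orth f U ↔ ∀ u ∈ U, ∀ y, D w (D u f) y = 0 := Iff.rfl

/-- An affine function is a linear functional plus a constant. -/
theorem Aff.exists_linear {f : V → ZMod 2} (hf : Aff f) :
    ∃ l : V →ₗ[ZMod 2] ZMod 2, ∀ x, f x = l x + f 0 := by
  refine ⟨{ toFun := fun x => f x + f 0, map_add' := ?_, map_smul' := ?_ }, ?_⟩
  · intro x y
    have h := hf x y 0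
    simp only [D, zero_add] at h
    have h1 := z2_add_self (f 0)
    have h2 := z2_add_self (f x)
    have h3 := z2_add_self (f y)
    have h4 := z2_add_self (f (x + y))
    linear_combination h - h1 - h2 - h3
  · intro c x
    rcases z2_cases c with rfl | rfl
    · simp [z2_add_self]
    · simp
  · intro x
    have h1 := z2_add_self (f 0)
    simp only [LinearMap.coe_mk, AddHom.coe_mk]
    linear_combination -h1

end basic

end Pool.Agent.Krd
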