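import Pool.Agent.Krd.Defs

/-!
# Krd: the predicate `IsA`

All third derivatives of the functions `g i + g j` are of the form `x1 ∧ x2 ∧ γ i j`.
-/

set_option autoImplicit false
set_option linter.unusedSectionVars false

namespace Pool.Agent.Krd

/-- The cubic parts of all `g i + g j` are products of the fixed linear functionals `x1`, `x2` and a
third one. -/
structure IsA {V : Type*} [AddCommGroup V] [Module (ZMod 2) V] {I : Type*} (g : I → V → ZMod 2)
    (x1 x2 : V →ₗ[ZMod 2] ZMod 2) (γ : I → I → V →ₗ[ZMod 2] ZMod 2) : Prop where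
  ne1 : x1 ≠ 0
  ne2 : x2 ≠ 0
  ne : x1 ≠ x2
  third : ∀ i j a b c z, x1 a = 0 → x2 a = 0 →
    D c (D b (D a (g i + g j))) z = γ i j a * (x1 b * x2 c + x1 c * x2 b)
  quad : ∀ i j, (∀ a, x1 a = 0 → x2 a = 0 → γ i j a = 0) → Quad (g i + g j)
  rad_iff : ∀ i j, ¬ Quad (g i + g j) →
    ∀ a, a ∈ rad (g i + g j) ↔ x1 a = 0 ∧ x2 a = 0 ∧ γ i j a = 0

end Pool.Agent.Krd
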