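import Pool.Agent.Krd.Defs

/-!
# Krd KR18: large distance to all affine functions implies bent

`V` has `2 ^ (2 * m)` elements, `m ≥ 1`, and for all linear functionals `l` and constants `c` the
function `f + l + c` is nonzero on at least `2 ^ (2 * m - 1) - 2 ^ (m - 1)` points. Then `f` is bent.

Proof. `S l = ∑ x, sg (f x + l x) = 2 ^ (2 * m) - 2 * card {x | f x + l x ≠ 0}`, so the hypothesis with
`c = 0` gives `S l ≤ 2 ^ m`, and with `c = 1` it gives `- S l ≤ 2 ^ m`. So `S l ^ 2 ≤ 2 ^ (2 * m)`.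
Parseval: `∑ l, S l ^ 2 = ∑ l, ∑ x y, sg (f x + f y) * sg (l (x + y)) = 2 ^ (2 * m) * 2 ^ (2 * m)`
(`∑ l, sg (l z) = 0` for `z ≠ 0` and `= 2 ^ (2 * m)` for `z = 0`; there are `2 ^ (2 * m)`
functionals). So all `S l ^ 2 = 2 ^ (2 * m)`. For `a ≠ 0`:
`∑ l, S l ^ 2 * sg (l a) = ∑ x y, sg (f x + f y) * ∑ l, sg (l (x + y + a))
= 2 ^ (2 * m) * ∑ x, sg (f x + f (x + a))`, and the left side is `2 ^ (2 * m) * ∑ l, sg (l a) = 0`.
(The sum over the dual space: `Fintype (V →ₗ[ZMod 2] ZMod 2)` via `Fintype.ofFinite`; or use the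
additive characters of Mathlib.)
-/

set_option autoImplicit false
set_option linter.unusedSectionVars false

namespace Pool.Agent.Krd

private theorem sg_eq (t : ZMod 2) : sg t = 1 - 2 * (if t ≠ 0 then 1 else 0) := by
  revert t
  decide

private theorem sum_sg {V : Type*} [Fintype V] (g : V → ZMod 2) :
    ∑ x, sg (g x) = Fintype.card V - 2 * ((Finset.univ.filter fun x => g x ≠ 0).card : ℤ) := by
  simp_rw [sg_eq]
  rw [Finset.sum_sub_distrib, ← Finset.mul_sum, Finset.sum_boole, Finset.sum_const,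
    Finset.card_univ, nsmul_eq_mul, mul_one]

private theorem sum_dual {V : Type*} [AddCommGroup V] [Module (ZMod 2) V]
    [Fintype (V →ₗ[ZMod 2] ZMod 2)] {z : V} (hz : z ≠ 0) :
    ∑ l : V →ₗ[ZMod 2] ZMod 2, sg (l z) = 0 := by
  obtain ⟨l₀, h₀⟩ : ∃ l₀ : V →ₗ[ZMod 2] ZMod 2, l₀ z ≠ 0 := by
    by_contra hcon
    push Not at hcon
    exact hz ((Module.forall_dual_apply_eq_zero_iff (ZMod 2) z).1 hcon)
  have h₁ : l₀ z = 1 := (z2_cases (l₀ z)).resolve_left h₀
  have h2 : ∑ l : V →ₗ[ZMod 2] ZMod 2, sg ((l + l₀) z) = ∑ l : V →ₗ[ZMod 2] ZMod 2, sg (l z) :=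
    Equiv.sum_comp (Equiv.addRight l₀) fun l : V →ₗ[ZMod 2] ZMod 2 => sg (l z)
  have h3 : ∀ l : V →ₗ[ZMod 2] ZMod 2, sg ((l + l₀) z) = -sg (l z) := by
    intro l
    rw [LinearMap.add_apply, sg_add, h₁, sg_one]
    ring
  simp_rw [h3] at h2
  rw [Finset.sum_neg_distrib] at h2
  omega

private theorem card_dual {V : Type*} [AddCommGroup V] [Module (ZMod 2) V] [Fintype V]
    [Fintype (V →ₗ[ZMod 2] ZMod 2)] :
    Fintype.card (V →ₗ[ZMod 2] ZMod 2) = Fintype.card V := by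
  rw [Module.card_eq_pow_finrank (K := ZMod 2) (V := V),
    Module.card_eq_pow_finrank (K := ZMod 2) (V := V →ₗ[ZMod 2] ZMod 2)]
  congr 1
  exact Subspace.dual_finrank_eq

private theorem parseval {V : Type*} [AddCommGroup V] [Module (ZMod 2) V] [Fintype V]
    [Fintype (V →ₗ[ZMod 2] ZMod 2)] (f : V → ZMod 2) (a : V) :
    ∑ l : V →ₗ[ZMod 2] ZMod 2, (∑ x, sg (f x + l x)) ^ 2 * sg (l a) =
      Fintype.card V * ∑ x, sg (D a f x) := by
  classical
  have h1 : ∀ l : V →ₗ[ZMod 2] ZMod 2, (∑ x, sg (f x + l x)) ^ 2 * sg (l a) =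
      ∑ x, ∑ y, sg (f x) * sg (f y) * sg (l (x + y + a)) := by
    intro l
    rw [sq, Finset.sum_mul_sum, Finset.sum_mul]
    refine Finset.sum_congr rfl fun x _ => ?_
    rw [Finset.sum_mul]
    refine Finset.sum_congr rfl fun y _ => ?_
    rw [map_add, map_add, sg_add, sg_add, sg_add, sg_add]
    ring
  simp_rw [h1]
  rw [Finset.sum_comm, Finset.mul_sum]
  refine Finset.sum_congr rfl fun x _ => ?_
  rw [Finset.sum_comm, Finset.sum_eq_single (x + a)]
  · have h2 : x + (x + a) + a = 0 := by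
      rw [← add_assoc, add_self', zero_add, add_self']
    rw [h2]
    simp only [map_zero, sg_zero, mul_one]
    rw [Finset.sum_const, Finset.card_univ, card_dual, nsmul_eq_mul, D_apply, sg_add]
  · intro y _ hy
    rw [← Finset.mul_sum, sum_dual, mul_zero]
    intro h0
    apply hy
    have h3 : y = x + a + (x + y + a) := by
      have e1 := add_self' x
      have e2 := add_self' a
      calc y = (x + x) + y + (a + a) := by rw [e1, e2, zero_add, add_zero]
        _ = x + a + (x + y + a) := by abel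
    rw [h3, h0, add_zero]
  · intro h
    exact absurd (Finset.mem_univ _) h

theorem bent_of_dist {m : ℕ} (hm : 1 ≤ m) {V : Type*} [AddCommGroup V] [Module (ZMod 2) V]
    [Fintype V] (hV : Fintype.card V = 2 ^ (2 * m)) (f : V → ZMod 2)
    (h : ∀ (l : V →ₗ[ZMod 2] ZMod 2) (c : ZMod 2),
      2 ^ (2 * m - 1) - 2 ^ (m - 1) ≤ (Finset.univ.filter fun x => f x + l x + c ≠ 0).card) :
    Bent f := by
  classical
  have : Finite (V →ₗ[ZMod 2] ZMod 2) :=
    Finite.of_injective (fun l : V →ₗ[ZMod 2] ZMod 2 => (l : V → ZMod 2)) DFunLike.coe_injective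
  have : Fintype (V →ₗ[ZMod 2] ZMod 2) := Fintype.ofFinite _
  obtain ⟨k, rfl⟩ : ∃ k, m = k + 1 := ⟨m - 1, by omega⟩
  have e1 : 2 * (k + 1) - 1 = 2 * k + 1 := by omega
  have e2 : k + 1 - 1 = k := by omega
  have hV' : (Fintype.card V : ℤ) = 2 * 2 ^ (2 * k + 1) := by
    rw [hV]
    push_cast
    ring
  have hS : ∀ l : V →ₗ[ZMod 2] ZMod 2, (∑ x, sg (f x + l x)) ^ 2 ≤ (Fintype.card V : ℤ) := by
    intro l
    have a0 := h l 0
    have a1 := h l 1
    rw [e1, e2, tsub_le_iff_right] at a0 a1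
    have b0 := sum_sg fun x => f x + l x + 0
    have b1 := sum_sg fun x => f x + l x + 1
    have c0 : ∑ x, sg (f x + l x + 0) = ∑ x, sg (f x + l x) := by
      simp_rw [add_zero]
    have c1 : ∑ x, sg (f x + l x + 1) = -∑ x, sg (f x + l x) := by
      rw [← Finset.sum_neg_distrib]
      refine Finset.sum_congr rfl fun x _ => ?_
      rw [sg_add, sg_one]
      ring
    rw [c0, hV'] at b0
    rw [c1, hV'] at b1
    have a0' : (2 : ℤ) ^ (2 * k + 1) ≤
        ((Finset.univ.filter fun x => f x + l x + 0 ≠ 0).card : ℤ) + 2 ^ k := by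
      exact_mod_cast a0
    have a1' : (2 : ℤ) ^ (2 * k + 1) ≤
        ((Finset.univ.filter fun x => f x + l x + 1 ≠ 0).card : ℤ) + 2 ^ k := by
      exact_mod_cast a1
    have hup : ∑ x, sg (f x + l x) ≤ 2 * 2 ^ k := by linarith
    have hlo : -(2 * 2 ^ k) ≤ ∑ x, sg (f x + l x) := by linarith
    have hsq : (∑ x, sg (f x + l x)) ^ 2 ≤ (2 * 2 ^ k) ^ 2 := sq_le_sq' hlo hup
    rw [hV']
    calc (∑ x, sg (f x + l x)) ^ 2 ≤ (2 * 2 ^ k) ^ 2 := hsq
      _ = 2 * 2 ^ (2 * k + 1) := by ring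
  have hpar := parseval f 0
  have h0 : ∑ x, sg (D 0 f x) = Fintype.card V := by
    simp_rw [D_zero, sg_zero]
    rw [Finset.sum_const, Finset.card_univ, nsmul_eq_mul, mul_one]
  rw [h0] at hpar
  simp only [map_zero, sg_zero, mul_one] at hpar
  have hconst : ∑ l : V →ₗ[ZMod 2] ZMod 2, (Fintype.card V : ℤ) =
      Fintype.card V * Fintype.card V := by
    rw [Finset.sum_const, Finset.card_univ, card_dual, nsmul_eq_mul]
  have hall := (Finset.sum_eq_sum_iff_of_le fun l _ => hS l).1 (hpar.trans hconst.symm)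
  intro a ha
  have h3 := parseval f a
  have h4 : ∑ l : V →ₗ[ZMod 2] ZMod 2, (∑ x, sg (f x + l x)) ^ 2 * sg (l a) = 0 := by
    have h5 : ∀ l ∈ (Finset.univ : Finset (V →ₗ[ZMod 2] ZMod 2)),
        (∑ x, sg (f x + l x)) ^ 2 * sg (l a) = Fintype.card V * sg (l a) := by
      intro l hl
      rw [hall l hl]
    rw [Finset.sum_congr rfl h5, ← Finset.mul_sum, sum_dual ha, mul_zero]
  rw [h4] at h3
  rcases mul_eq_zero.1 h3.symm with h6 | h6
  · exfalso
    rw [hV'] at h6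
    have h7 : (0 : ℤ) < 2 * 2 ^ (2 * k + 1) := by positivity
    omega
  · exact h6

end Pool.Agent.Krd
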