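import Pool.Agent.Krd.RMd
import Pool.Agent.Krd.Walsh

/-!
# Krd KR19: from the code to a family of functions

`C` is a set of `2 ^ (4 * m)` Boolean functions of `2 * m` variables, closed under adding affine
functions, any two different elements have distance at least `2 ^ (2 * m - 1) - 2 ^ (m - 1)`. Then there
is a family `g : I → C` with `card I = 2 ^ (2 * m - 1)`, all `g i + g j` (`i ≠ j`) bent, such that every
`f ∈ C` equals some `g i` up to an affine function.

Proof. `I` = the image of `C` in the quotient of the function space by `RM 1 (2 * m)` (a subtype of the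
quotient, finite), `g i` a representative in `C`. The fibre of `C → I` over a class is a full coset,
with `card (RM 1 (2 * m)) = 2 ^ (2 * m + 1)` elements (`card_RM_one`), so
`card I * 2 ^ (2 * m + 1) = 2 ^ (4 * m)`. For `i ≠ j`, a functional `l` and a constant `c`: the function
`a x = l x + c` is in `RM 1` (`mem_RM_one`), `g j + a ∈ C` and `g i ≠ g j + a` (different classes), so
`hammingDist (g i) (g j + a) ≥ 2 ^ (2 * m - 1) - 2 ^ (m - 1)`, and this distance is the number of `x`
with `g i x + g j x + l x + c ≠ 0`. Apply `bent_of_dist`.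
-/

set_option autoImplicit false
set_option linter.unusedSectionVars false

namespace Pool.Agent.Krd

theorem exists_family {m : ℕ} (hm : 1 ≤ m) (C : Set ((Fin (2 * m) → ZMod 2) → ZMod 2))
    (hcard : C.ncard = 2 ^ (4 * m)) (hC : ∀ f ∈ C, ∀ a ∈ RM 1 (2 * m), f + a ∈ C)
    (hd : ∀ f ∈ C, ∀ g ∈ C, f ≠ g → 2 ^ (2 * m - 1) - 2 ^ (m - 1) ≤ hammingDist f g) :
    ∃ (I : Type) (_ : Fintype I) (g : I → (Fin (2 * m) → ZMod 2) → ZMod 2),
      Fintype.card I = 2 ^ (2 * m - 1) ∧ (∀ i, g i ∈ C) ∧ (∀ i j, i ≠ j → Bent (g i + g j)) ∧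
        ∀ f ∈ C, ∃ i, Aff (f + g i) := by
  classical
  let R : Submodule (ZMod 2) ((Fin (2 * m) → ZMod 2) → ZMod 2) := RM 1 (2 * m)
  let mk : ((Fin (2 * m) → ZMod 2) → ZMod 2) → (((Fin (2 * m) → ZMod 2) → ZMod 2) ⧸ R) :=
    fun f => Submodule.Quotient.mk f
  have hfinC : C.Finite := Set.toFinite C
  let I : Type := ↥(mk '' C)
  have hfinI : Finite I := (hfinC.image mk).to_subtype
  let _ : Fintype I := Fintype.ofFinite I
  have hex : ∀ i : I, ∃ f ∈ C, mk f = i := fun i => i.2
  choose g hg1 hg2 using hex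
  have hmk : ∀ f f' : (Fin (2 * m) → ZMod 2) → ZMod 2, mk f = mk f' ↔ f - f' ∈ R :=
    fun f f' => Submodule.Quotient.eq R
  let cl : C → I := fun f => ⟨mk f.1, f.1, f.2, rfl⟩
  have hcl : ∀ f : C, (f : (Fin (2 * m) → ZMod 2) → ZMod 2) - g (cl f) ∈ R := by
    intro f
    rw [← hmk, hg2]
  let e : C ≃ I × R :=
    { toFun := fun f => (cl f, ⟨f.1 - g (cl f), hcl f⟩)
      invFun := fun p => ⟨g p.1 + p.2.1, hC _ (hg1 p.1) _ p.2.2⟩
      left_inv := by
        intro f
        apply Subtype.ext
        change g (cl f) + (f.1 - g (cl f)) = f.1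
        abel
      right_inv := by
        rintro ⟨i, a⟩
        have h1 : cl ⟨g i + a.1, hC _ (hg1 i) _ a.2⟩ = i := by
          apply Subtype.ext
          change mk (g i + a.1) = i
          rw [← hg2 i, hmk]
          have : g i + a.1 - g i = a.1 := by abel
          rw [this]
          exact a.2
        apply Prod.ext
        · exact h1
        · apply Subtype.ext
          change g i + a.1 - g (cl ⟨g i + a.1, hC _ (hg1 i) _ a.2⟩) = a.1
          rw [h1]
          abel }
  have hcardI : Fintype.card I = 2 ^ (2 * m - 1) := by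
    have h1 : Nat.card C = Nat.card I * Nat.card R := by
      rw [Nat.card_congr e, Nat.card_prod]
    have h2 : Nat.card R = 2 ^ (2 * m + 1) := card_RM_one (2 * m)
    have h3 : Nat.card C = 2 ^ (4 * m) := hcard
    rw [h2, h3, Nat.card_eq_fintype_card] at h1
    have h4 : 2 ^ (4 * m) = 2 ^ (2 * m - 1) * 2 ^ (2 * m + 1) := by
      rw [← pow_add]
      congr 1
      omega
    rw [h4] at h1
    exact (Nat.eq_of_mul_eq_mul_right (by positivity) h1).symm
  refine ⟨I, inferInstance, g, hcardI, hg1, ?_, ?_⟩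
  · intro i j hij
    refine bent_of_dist hm (by simp) (g i + g j) (fun l c => ?_)
    have ha : (fun x => l x + c) ∈ RM 1 (2 * m) := by
      rw [mem_RM_one]
      intro u v x
      simp only [D, map_add]
      have h1 := z2_add_self (l x)
      have h2 := z2_add_self (l u)
      have h3 := z2_add_self (l v)
      have h4 := z2_add_self c
      linear_combination 2 * h1 + h2 + h3 + 2 * h4
    have h1 : g j + (fun x => l x + c) ∈ C := hC _ (hg1 j) _ ha
    have h2 : g i ≠ g j + (fun x => l x + c) := by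
      intro h
      apply hij
      apply Subtype.ext
      rw [← hg2 i, ← hg2 j, hmk, h]
      have : g j + (fun x => l x + c) - g j = (fun x => l x + c) := by abel
      rw [this]
      exact ha
    refine (hd _ (hg1 i) _ h1 h2).trans (le_of_eq ?_)
    unfold hammingDist
    congr 1
    apply Finset.filter_congr
    intro x _
    have hz : ∀ s t u v : ZMod 2, s ≠ t + (u + v) ↔ s + t + u + v ≠ 0 := by decide
    exact hz _ _ _ _
  · intro f hf
    refine ⟨cl ⟨f, hf⟩, ?_⟩
    have h1 := hcl ⟨f, hf⟩
    have h2 : f + g (cl ⟨f, hf⟩) = f - g (cl ⟨f, hf⟩) := by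
      have h3 := fun_add_self (g (cl ⟨f, hf⟩))
      rw [← sub_eq_zero]
      have : f + g (cl ⟨f, hf⟩) - (f - g (cl ⟨f, hf⟩)) = g (cl ⟨f, hf⟩) + g (cl ⟨f, hf⟩) := by abel
      rw [this, h3]
    rw [h2]
    exact mem_RM_one.1 h1

end Pool.Agent.Krd
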