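import Pool.Agent.Krd.TOne
import Pool.Agent.Krd.Red

/-!
# Krd: final assembly (by helper39)
-/

set_option autoImplicit false
set_option linter.unusedSectionVars false

namespace Pool.Agent.Krd

/-- The main theorem, before the case `n = 6` is added. -/
theorem main {m : ℕ} (hm : 2 ≤ m) (C : Set ((Fin (2 * m) → ZMod 2) → ZMod 2))
    (hcard : C.ncard = 2 ^ (4 * m)) (hC : ∀ f ∈ C, ∀ a ∈ RM 1 (2 * m), f + a ∈ C)
    (hd : ∀ f ∈ C, ∀ g ∈ C, f ≠ g → 2 ^ (2 * m - 1) - 2 ^ (m - 1) ≤ hammingDist f g)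
    (h : (∀ f ∈ C, ∀ g ∈ C, ∃ W : Submodule (ZMod 2) (Fin (2 * m) → ZMod 2),
        2 * m ≤ Module.finrank (ZMod 2) W + 3 ∧
          ∀ w ∈ W, (fun x => f x + g x + (f (x + w) + g (x + w))) ∈ RM 1 (2 * m)) ∨
      ∃ W : Submodule (ZMod 2) (Fin (2 * m) → ZMod 2), 2 * m ≤ Module.finrank (ZMod 2) W + 4 ∧
        ∀ f ∈ C, ∀ g ∈ C, ∀ w ∈ W, (fun x => f x + g x + (f (x + w) + g (x + w))) ∈ RM 1 (2 * m)) :
    ∃ v, ∀ f ∈ C, f + v ∈ RM 2 (2 * m) := by
  obtain ⟨I, _, g, hI, hgC, hb, hfam⟩ := exists_family (by omega) C hcard hC hd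
  have hV : Module.finrank (ZMod 2) (Fin (2 * m) → ZMod 2) = 2 * m := by simp
  have hne : Nonempty I := by
    rw [← Fintype.card_pos_iff, hI]
    positivity
  have key : ∀ i j, Quad (g i + g j) := by
    rcases h with h | ⟨W, hW, h⟩
    · refine quad_of_rad hm hV hI g hb fun i j => ?_
      obtain ⟨W, hW, h⟩ := h _ (hgC i) _ (hgC j)
      have hle : W ≤ rad (g i + g j) := by
        intro w hw
        have := mem_RM_one.1 (h w hw)
        exact this
      have := Submodule.finrank_mono hle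
      omega
    · refine quad_of_codim_le_four hm hV hI g hb (U := W) (fun i j => ?_) (by omega)
      intro w hw
      exact mem_RM_one.1 (h _ (hgC i) _ (hgC j) w hw)
  obtain ⟨o⟩ := hne
  refine ⟨g o, fun f hf => mem_RM_two.2 ?_⟩
  obtain ⟨i, hi⟩ := hfam f hf
  have h1 : f + g o = (f + g i) + (g i + g o) := by
    rw [add_assoc, ← add_assoc (g i), fun_add_self, zero_add]
  rw [h1]
  exact hi.quad.add (key i o)

end Pool.Agent.Krd
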