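import Pool.Agent.Krd.Bil

/-!
# Krd KR25: a bent function which is quadratic outside a flat of codimension two

`V` finite, `f` bent, `q` is `Quad`, `f x = q x` for all `x` with not (`x1 x = e1` and `x2 x = e2`),
`x1, x2` linearly independent, `K = {a | x1 a = 0 ∧ x2 a = 0}`, and the second derivative form `B` of
`q` is nondegenerate on `K`. Then `f` is `Quad`.

Proof. `B` is the bilinear form of `q` (`exists_bil` with `U = ⊤`). Let `t ∉ K` be orthogonal to `K`:
`B t a = 0` for all `a ∈ K`; it exists: the orthogonal space `K' = {v | ∀ a ∈ K, B v a = 0}` meets `K`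
in `0` and `V = K ⊕ K'` (for `v ∈ V` the functional `B v` on `K` equals `B a` on `K` for some
`a ∈ K`, so `v + a ∈ K'`), `finrank K' = 2`. So every coset of `K` contains exactly one element of
`K'`. Let `c ∈ K'` be the one in the flat `F = {x | x1 x = e1 ∧ x2 x = e2} = c + K`, and `t ∈ K'`,
`t ≠ 0`. The four elements of `K'` are `c, c + t, c', c' + t`. Let `a ∈ K`, `a ≠ 0`. By bentness
`0 = ∑ x, sg (f x + f (x + t + a))`. Split according to the coset of `x`: for `x ∈ c' + K` or
`x ∈ c' + t + K` both points are outside `F`, `f = q`, and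
`q x + q (x + t + a) = D (t + a) q x` is, as a function of `x` in a coset of `K`, a constant plus
`B a y` (`x = c' + y`; `B t y = 0`), which is balanced since `B a` is not zero on `K`. So these two
sums vanish. The sums over `c + K` and `c + t + K` are equal (substitute `x ↦ x + t + a`), hence
(1) `∑ y : K, sg (f (c + y) + q (c + t + y + a)) = 0` for all `a ∈ K`, `a ≠ 0`.
Now `q (c + t + y + a) = q (c + y) + D (t + a) q (c + y)` and
`D (t + a) q (c + y) = const(a) + B (t + a) y = const(a) + B a y`. So with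
`w y = f (c + y) + q (c + y)` on `K`: `∑ y : K, sg (w y + B a y) = 0` for all `a ≠ 0` in `K`.
As `a ↦ B a` is a bijection from `K` onto the dual space of `K`, all Fourier coefficients of
`y ↦ sg (w y)` except the one at `0` vanish, so `sg ∘ w` is constant, `w = k`. (Elementary: multiply by
`sg (B a y₀)` and sum over all `a ∈ K`: `card K * sg (w y₀) = ∑ y : K, sg (w y)` for every `y₀`.)
So `f x = q x + k` on `F` and `f = q` outside `F`: `f = q + k * (x1 + e1 + 1) * (x2 + e2 + 1)`, which
is `Quad`.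
-/

set_option autoImplicit false
set_option linter.unusedSectionVars false

namespace Pool.Agent.Krd

section aux

variable {V : Type*} [AddCommGroup V] [Module (ZMod 2) V]

/-- The signs of a functional which is not zero are balanced. -/
private theorem fc_bal [Fintype V] {l : V →ₗ[ZMod 2] ZMod 2} {z : V} (hz : l z = 1) :
    ∑ x, sg (l x) = 0 := by
  have h1 : ∑ x, sg (l x) = ∑ x, sg (l (x + z)) :=
    (Equiv.sum_comp (Equiv.addRight z) fun x => sg (l x)).symm
  have h2 : ∀ x, sg (l (x + z)) = -sg (l x) := by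
    intro x
    rw [map_add, hz, sg_add, sg_one]
    ring
  simp only [h2, Finset.sum_neg_distrib] at h1
  omega

private theorem fc_inj {s t : ZMod 2} (h : sg s = sg t) : s = t := by
  revert s t
  decide

/-- A function on a space with a nondegenerate form with only one Fourier coefficient. -/
private theorem fc_fourier [Fintype V] (b : V →ₗ[ZMod 2] V →ₗ[ZMod 2] ZMod 2)
    (hnd : ∀ z, z ≠ 0 → ∃ a, b a z = 1) (P : V → ℤ)
    (hP : ∀ a, a ≠ 0 → ∑ y, sg (b a y) * P y = 0) (y₀ : V) : P y₀ = P 0 := by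
  have key : ∀ y₀ : V, (Fintype.card V : ℤ) * P y₀ = ∑ y, P y := by
    intro y₀
    have h1 : ∑ a, sg (b a y₀) * ∑ y, sg (b a y) * P y = ∑ y, P y := by
      rw [Finset.sum_eq_single 0]
      · simp [sg_zero]
      · intro a _ ha
        rw [hP a ha, mul_zero]
      · intro h
        exact absurd (Finset.mem_univ _) h
    have h2 : ∑ a, sg (b a y₀) * ∑ y, sg (b a y) * P y =
        ∑ y, P y * ∑ a, sg (b a (y₀ + y)) := by
      simp only [Finset.mul_sum]
      rw [Finset.sum_comm]
      refine Finset.sum_congr rfl fun y _ => Finset.sum_congr rfl fun a _ => ?_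
      rw [map_add, sg_add]
      ring
    rw [← h1, h2, Finset.sum_eq_single y₀]
    · rw [add_self']
      simp [sg_zero, mul_comm]
    · intro y _ hy
      have h3 : y₀ + y ≠ 0 := by
        intro h4
        apply hy
        rw [← zero_add y, ← add_self' y₀, add_assoc, h4, add_zero]
      obtain ⟨a, ha⟩ := hnd _ h3
      have h4 : ∑ a, sg (b a (y₀ + y)) = 0 := fc_bal (l := b.flip (y₀ + y)) ha
      rw [h4, mul_zero]
    · intro h
      exact absurd (Finset.mem_univ _) h
  have h1 : (Fintype.card V : ℤ) ≠ 0 := by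
    rw [Nat.cast_ne_zero]
    exact Fintype.card_ne_zero
  exact mul_left_cancel₀ h1 ((key y₀).trans (key 0).symm)

private theorem fc_aff (l : V →ₗ[ZMod 2] ZMod 2) (s : ZMod 2) : Aff fun x => l x + s := by
  intro a b x
  have h1 : ∀ y, D b (fun x => l x + s) y = l b := by
    intro y
    rw [D_apply, map_add]
    have h2 := z2_add_self (l y)
    have h3 := z2_add_self s
    linear_combination h2 + h3
  rw [D_apply, h1, h1, z2_add_self]

private theorem fc_quad (x1 x2 : V →ₗ[ZMod 2] ZMod 2) (k s t : ZMod 2) :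
    Quad fun x => k * (x1 x + s) * (x2 x + t) := by
  rw [quad_iff_aff_D]
  intro u
  have h1 : D u (fun x => k * (x1 x + s) * (x2 x + t)) =
      fun x => (k • (x2 u • x1 + x1 u • x2)) x + k * (x2 u * s + x1 u * t + x1 u * x2 u) := by
    funext x
    rw [D_apply, map_add, map_add]
    simp only [LinearMap.smul_apply, LinearMap.add_apply, smul_eq_mul]
    have h2 := z2_add_self (k * (x1 x + s) * (x2 x + t))
    linear_combination h2
  rw [h1]
  exact fc_aff _ _

end aux

theorem quad_of_flat {V : Type*} [AddCommGroup V] [Module (ZMod 2) V] [Fintype V]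
    {f q : V → ZMod 2} (hf : Bent f) (hq : Quad q) {x1 x2 : V →ₗ[ZMod 2] ZMod 2} {e1 e2 : ZMod 2}
    (n1 : x1 ≠ 0) (n2 : x2 ≠ 0) (n3 : x1 ≠ x2)
    (heq : ∀ x, ¬ (x1 x = e1 ∧ x2 x = e2) → f x = q x)
    (hB : ∀ a, x1 a = 0 → x2 a = 0 → a ≠ 0 → ∃ b, x1 b = 0 ∧ x2 b = 0 ∧ ∀ z, D b (D a q) z = 1) :
    Quad f := by
  classical
  -- the bilinear form
  have hU : (⊤ : Submodule (ZMod 2) V) ≤ rad q := by rw [quad_iff_rad_eq_top.1 hq]
  obtain ⟨B', hB'⟩ := exists_bil hU
  obtain ⟨b, hb⟩ : ∃ b : V →ₗ[ZMod 2] V →ₗ[ZMod 2] ZMod 2, ∀ a x y, D x (D a q) y = b a x :=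
    ⟨B' ∘ₗ (Submodule.topEquiv (R := ZMod 2) (M := V)).symm.toLinearMap,
      fun a x y => hB' ⟨a, trivial⟩ x y⟩
  have hbs : ∀ a x, b a x = b x a := fun a x => by rw [← hb a x 0, ← hb x a 0, D_comm]
  let K : Submodule (ZMod 2) V := LinearMap.ker x1 ⊓ LinearMap.ker x2
  have hK : ∀ {a : V}, a ∈ K ↔ x1 a = 0 ∧ x2 a = 0 := fun {a} => Iff.rfl
  have hND : ∀ a ∈ K, a ≠ 0 → ∃ z ∈ K, b a z = 1 := by
    intro a ha h0
    obtain ⟨z, h1, h2, h3⟩ := hB a (hK.1 ha).1 (hK.1 ha).2 h0
    exact ⟨z, hK.2 ⟨h1, h2⟩, by rw [← hb a z 0, h3]⟩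
  by_cases hF : ∃ x₀, x1 x₀ = e1 ∧ x2 x₀ = e2
  swap
  · push Not at hF
    have h1 : f = q := funext fun x => heq x fun h => hF x h.1 h.2
    rw [h1]
    exact hq
  obtain ⟨x₀, hx1, hx2⟩ := hF
  -- the restriction of the form to K
  let bK : K →ₗ[ZMod 2] K →ₗ[ZMod 2] ZMod 2 := b.domRestrict₁₂ K K
  have hbK : ∀ a y : K, bK a y = b a y := fun a y => rfl
  have hinj : Function.Injective bK := by
    rw [← LinearMap.ker_eq_bot, LinearMap.ker_eq_bot']
    intro a ha
    by_contra h0
    obtain ⟨z, hz, h1⟩ := hND a a.2 fun h => h0 (Subtype.ext h)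
    have h2 : bK a ⟨z, hz⟩ = 1 := h1
    rw [ha, LinearMap.zero_apply] at h2
    exact zero_ne_one h2
  have hsurj : Function.Surjective bK :=
    (LinearMap.injective_iff_surjective_of_finrank_eq_finrank
      (Subspace.dual_finrank_eq (K := ZMod 2) (V := K)).symm).1 hinj
  -- a vector orthogonal to K
  obtain ⟨t, ht1, ht⟩ : ∃ t, x1 t = 1 ∧ ∀ y ∈ K, b t y = 0 := by
    obtain ⟨v, hv⟩ : ∃ v, x1 v ≠ 0 := by
      by_contra h
      push Not at h
      exact n1 (LinearMap.ext h)
    have hv1 : x1 v = 1 := (z2_cases _).resolve_left hv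
    obtain ⟨a, ha⟩ := hsurj ((b v).domRestrict K)
    refine ⟨v + a, ?_, fun y hy => ?_⟩
    · rw [map_add, hv1, (hK.1 a.2).1, add_zero]
    · have h1 : b a y = b v y := congrArg (fun l => l ⟨y, hy⟩) ha
      rw [map_add, LinearMap.add_apply, h1, z2_add_self]
  -- the signs
  set W : V → ℤ := fun x => sg (f x) * sg (q x) with hW
  have hW1 : ∀ x, ¬ (x1 x = e1 ∧ x2 x = e2) → W x = 1 := fun x hx => by
    rw [hW]
    change sg (f x) * sg (q x) = 1
    rw [heq x hx, sg_mul_self]
  have hK0 : ∀ x, (x1 x = e1 ∧ x2 x = e2) ↔ x₀ + x ∈ K := by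
    intro x
    rw [hK, map_add, map_add, hx1, hx2]
    have h1 : ∀ s t : ZMod 2, t = s ↔ s + t = 0 := by decide
    rw [h1 e1, h1 e2]
  have hxx : ∀ x : V, x₀ + (x₀ + x) = x := fun x => by rw [← add_assoc, add_self', zero_add]
  have key : ∀ a : K, a ≠ 0 → ∑ y : K, sg (bK a y) * W (x₀ + y) = 0 := by
    intro a ha
    have ha0 : (a : V) ≠ 0 := fun h => ha (Subtype.ext h)
    obtain ⟨z, hz, haz⟩ := hND a a.2 ha0
    set v : V := t + a with hv
    have hv1 : x1 v = 1 := by rw [hv, map_add, ht1, (hK.1 a.2).1, add_zero]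
    have hv0 : v ≠ 0 := by
      intro h
      rw [h, map_zero] at hv1
      exact zero_ne_one hv1
    have hbv : ∀ y ∈ K, b v y = b a y := fun y hy => by
      rw [hv, map_add, LinearMap.add_apply, ht y hy, zero_add]
    have hS : ∀ x y, sg (D v q (x + y)) = sg (D v q x) * sg (b v y) := fun x y => by
      rw [shift_eq y (D v q) x, hb, sg_add]
    have hS0 : ∑ x, sg (D v q x) = 0 := by
      have h1 : ∀ x, sg (D v q x) = sg (D v q 0) * sg (b v x) := fun x => by
        rw [← hS, zero_add]
      rw [Finset.sum_congr rfl fun x _ => h1 x, ← Finset.mul_sum,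
        fc_bal (l := b v) (z := z) (by rw [hbv z hz, haz]), mul_zero]
    have hf1 := hf v hv0
    have h1 : ∀ x, sg (D v f x) =
        sg (D v q x) * (W x - 1) + sg (D v q x) * (W (x + v) - 1) + sg (D v q x) := by
      intro x
      have h2 : (W x - 1) * (W (x + v) - 1) = 0 := by
        by_cases h3 : x1 x = e1 ∧ x2 x = e2
        · have h4 : ¬ (x1 (x + v) = e1 ∧ x2 (x + v) = e2) := by
            rintro ⟨h5, -⟩
            rw [map_add, h3.1, hv1] at h5
            exact one_ne_zero (add_eq_left.1 h5)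
          rw [hW1 _ h4, sub_self, mul_zero]
        · rw [hW1 _ h3, sub_self, zero_mul]
      have h3 : sg (D v f x) = sg (D v q x) * (W x * W (x + v)) := by
        rw [D_apply, D_apply, sg_add, sg_add]
        change _ = sg (q x) * sg (q (x + v)) *
          (sg (f x) * sg (q x) * (sg (f (x + v)) * sg (q (x + v))))
        have h4 := sg_mul_self (q x)
        have h5 := sg_mul_self (q (x + v))
        calc sg (f x) * sg (f (x + v)) =
            sg (f x) * sg (f (x + v)) * (sg (q x) * sg (q x)) *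
              (sg (q (x + v)) * sg (q (x + v))) := by rw [h4, h5, mul_one, mul_one]
          _ = _ := by ring
      rw [h3]
      linear_combination sg (D v q x) * h2
    have h2 : ∑ x, sg (D v q x) * (W (x + v) - 1) = ∑ x, sg (D v q x) * (W x - 1) := by
      rw [← Equiv.sum_comp (Equiv.addRight v) fun x => sg (D v q x) * (W x - 1)]
      refine Finset.sum_congr rfl fun x _ => ?_
      rw [Equiv.coe_addRight, D_shift]
    rw [Finset.sum_congr rfl fun x _ => h1 x, Finset.sum_add_distrib, Finset.sum_add_distrib, h2,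
      hS0] at hf1
    have h3 : ∑ x, sg (D v q x) * (W x - 1) = 0 := by omega
    have h4 : ∑ y : K, sg (D v q (x₀ + y)) * (W (x₀ + y) - 1) =
        ∑ x, sg (D v q x) * (W x - 1) := by
      refine Fintype.sum_of_injective (fun y : K => x₀ + (y : V)) ?_ _ _ ?_ fun y => rfl
      · intro y y' h
        exact Subtype.ext (add_left_cancel h)
      · intro x hx
        have h5 : ¬ (x1 x = e1 ∧ x2 x = e2) := by
          rw [hK0]
          intro h6
          exact hx ⟨⟨x₀ + x, h6⟩, hxx x⟩
        rw [hW1 x h5, sub_self, mul_zero]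
    rw [h3] at h4
    have h5 : ∀ y : K, sg (D v q (x₀ + y)) * (W (x₀ + y) - 1) =
        sg (D v q x₀) * (sg (bK a y) * W (x₀ + y) - sg (bK a y)) := by
      intro y
      rw [hS, hbv y y.2, hbK]
      ring
    have h6 : ∑ y : K, sg (bK a y) = 0 := fc_bal (l := bK a) (z := ⟨z, hz⟩) haz
    rw [Finset.sum_congr rfl fun y _ => h5 y, ← Finset.mul_sum, Finset.sum_sub_distrib, h6,
      sub_zero] at h4
    have h7 : sg (D v q x₀) ≠ 0 := by
      intro h8
      have h9 := sg_mul_self (D v q x₀)
      rw [h8, mul_zero] at h9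
      exact zero_ne_one h9
    exact (mul_eq_zero.1 h4).resolve_left h7
  have hconst : ∀ y : K, W (x₀ + y) = W (x₀ + (0 : K)) := by
    refine fc_fourier bK (fun z hz => ?_) (fun y => W (x₀ + y)) key
    obtain ⟨a, ha, h1⟩ := hND z z.2 fun h => hz (Subtype.ext h)
    refine ⟨⟨a, ha⟩, ?_⟩
    rw [hbK, hbs]
    exact h1
  have hw : ∀ x, x1 x = e1 ∧ x2 x = e2 → f x + q x = f x₀ + q x₀ := by
    intro x hx
    have h1 := hconst ⟨x₀ + x, (hK0 x).1 hx⟩
    change W (x₀ + (x₀ + x)) = W (x₀ + 0) at h1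
    rw [hxx, add_zero] at h1
    apply fc_inj
    rw [sg_add, sg_add]
    exact h1
  have hfin : f = q + fun x => (f x₀ + q x₀) * (x1 x + (e1 + 1)) * (x2 x + (e2 + 1)) := by
    funext x
    rw [Pi.add_apply]
    by_cases hx : x1 x = e1 ∧ x2 x = e2
    · have h1 := hw x hx
      have h2 : e1 + (e1 + 1) = 1 := by rw [← add_assoc, z2_add_self, zero_add]
      have h3 : e2 + (e2 + 1) = 1 := by rw [← add_assoc, z2_add_self, zero_add]
      rw [hx.1, hx.2, h2, h3, mul_one, mul_one, ← h1]
      have h4 := z2_add_self (q x)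
      linear_combination -h4
    · rw [heq x hx]
      have h1 : ∀ s s' t t' k : ZMod 2, ¬ (s = s' ∧ t = t') →
          k * (s + (s' + 1)) * (t + (t' + 1)) = 0 := by decide
      rw [h1 _ _ _ _ _ hx, add_zero]
  rw [hfin]
  exact hq.add (fc_quad x1 x2 _ _ _)

end Pool.Agent.Krd
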