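import Pool.Agent.Krd.FlatB
import Pool.Agent.Krd.FlatC

/-!
# Krd KR26: quadratic outside a flat of codimension two

`finrank V = 2 * m`, `m ≥ 1`, `card I = 2 ^ (2 * m - 1) = M`, all `g i + g j` (`i ≠ j`) bent,
`IsF g o x1 x2 e1 e2 q`. Then all `g i + g j` are `Quad`.

Proof. Fix `i`. Count the triples `(j, a, ν)` with `x1 a = x2 a = 0`, `ν ∈ {x1, x2, x1 + x2}` and
`D x (D a (q i + q j)) z = ν x` for all `x, z`. (No such triple has `j = i` or `a = 0`, since
`ν ≠ 0`; for given `j, a` there is at most one `ν`.) By `flat_unique` the number is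
`3 * (2 ^ (2 * m - 2) - 1) = 3 * (M / 2 - 1)` (`K = ker x1 ⊓ ker x2` has `M / 2` elements, `ν a = 0` for
`a ∈ K`). By `flat_card` it is `3` times the number of `j ≠ i` of the first kind. So `M / 2 - 1` of the
`j ≠ i` are of the first kind and `M / 2` of the second kind; for the latter `g i + g j` is `Quad` by
`quad_of_flat` (with `q = q i + q j`; outside the flat `g i + g j = (g i + g o) + (g j + g o)
= q i + q j`). With `j = i`, the set `Q i = {j | Quad (g i + g j)}` has more than `M / 2` elements for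
every `i`. So `Q i` and `Q i'` meet in some `j` and `g i + g i' = (g i + g j) + (g j + g i')` is `Quad`.
-/

set_option autoImplicit false
set_option linter.unusedSectionVars false

namespace Pool.Agent.Krd

variable {V : Type*} [AddCommGroup V] [Module (ZMod 2) V] [Fintype V]
variable {I : Type*} [Fintype I]

private theorem surj_pair {x1 x2 : V →ₗ[ZMod 2] ZMod 2} (n1 : x1 ≠ 0) (n2 : x2 ≠ 0)
    (n3 : x1 ≠ x2) : Function.Surjective (x1.prod x2) := by
  have hne : ∀ s : ZMod 2, s ≠ 0 → s = 1 := by decide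
  obtain ⟨v1, h1⟩ : ∃ v, x1 v ≠ 0 := by
    by_contra hcon
    push Not at hcon
    exact n1 (LinearMap.ext hcon)
  obtain ⟨v2, h2⟩ : ∃ v, x2 v ≠ 0 := by
    by_contra hcon
    push Not at hcon
    exact n2 (LinearMap.ext hcon)
  obtain ⟨v3, h3⟩ : ∃ v, x1 v ≠ x2 v := by
    by_contra hcon
    push Not at hcon
    exact n3 (LinearMap.ext hcon)
  have h1' := hne _ h1
  have h2' := hne _ h2
  have key : (∃ v, x1 v = 1 ∧ x2 v = 0) ∧ (∃ v, x1 v = 0 ∧ x2 v = 1) := by
    rcases z2_cases (x2 v1) with a | a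
    · refine ⟨⟨v1, h1', a⟩, ?_⟩
      rcases z2_cases (x1 v2) with b | b
      · exact ⟨v2, b, h2'⟩
      · refine ⟨v1 + v2, ?_, ?_⟩
        · rw [map_add, h1', b]; decide
        · rw [map_add, h2', a]; decide
    · rcases z2_cases (x1 v2) with b | b
      · refine ⟨⟨v1 + v2, ?_, ?_⟩, ⟨v2, b, h2'⟩⟩
        · rw [map_add, h1', b]; decide
        · rw [map_add, h2', a]; decide
      · rcases z2_cases (x1 v3) with c | c
        · have d : x2 v3 = 1 := by
            apply hne
            intro d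
            exact h3 (c.trans d.symm)
          refine ⟨⟨v1 + v3, ?_, ?_⟩, ⟨v3, c, d⟩⟩
          · rw [map_add, h1', c]; decide
          · rw [map_add, a, d]; decide
        · have d : x2 v3 = 0 := by
            rcases z2_cases (x2 v3) with d | d
            · exact d
            · exact absurd (c.trans d.symm) h3
          refine ⟨⟨v3, c, d⟩, ⟨v1 + v3, ?_, ?_⟩⟩
          · rw [map_add, h1', c]; decide
          · rw [map_add, a, d]; decide
  obtain ⟨⟨u, u1, u2⟩, ⟨w, w1, w2⟩⟩ := key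
  rintro ⟨s, t⟩
  refine ⟨s • u + t • w, ?_⟩
  rw [LinearMap.prod_apply]
  ext
  · change x1 (s • u + t • w) = s
    rw [map_add, map_smul, map_smul, u1, w1]
    simp
  · change x2 (s • u + t • w) = t
    rw [map_add, map_smul, map_smul, u2, w2]
    simp

private theorem card_K {m : ℕ} (hm : 1 ≤ m) (hV : Module.finrank (ZMod 2) V = 2 * m)
    {x1 x2 : V →ₗ[ZMod 2] ZMod 2} (n1 : x1 ≠ 0) (n2 : x2 ≠ 0) (n3 : x1 ≠ x2) :
    Nat.card {a : V // x1 a = 0 ∧ x2 a = 0} = 2 ^ (2 * m - 2) := by
  have hs := surj_pair n1 n2 n3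
  have h1 := LinearMap.finrank_range_add_finrank_ker (x1.prod x2)
  rw [LinearMap.range_eq_top.2 hs, finrank_top, hV] at h1
  have h2 : Module.finrank (ZMod 2) (ZMod 2 × ZMod 2) = 2 := by
    rw [Module.finrank_prod, Module.finrank_self]
  rw [h2] at h1
  have h3 : Module.finrank (ZMod 2) (LinearMap.ker (x1.prod x2)) = 2 * m - 2 := by omega
  have h4 : Nat.card (LinearMap.ker (x1.prod x2)) = 2 ^ (2 * m - 2) := by
    rw [Module.natCard_eq_pow_finrank (K := ZMod 2), h3, Nat.card_zmod]
  rw [← h4]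
  apply Nat.card_congr
  refine Equiv.subtypeEquivRight (fun a => ?_)
  rw [LinearMap.mem_ker, LinearMap.prod_apply]
  change _ ↔ (x1 a, x2 a) = (0, 0)
  rw [Prod.mk.injEq]

private theorem many_quad {m : ℕ} (hm : 1 ≤ m) (hV : Module.finrank (ZMod 2) V = 2 * m)
    (hI : Fintype.card I = 2 ^ (2 * m - 1)) (g : I → V → ZMod 2)
    (hb : ∀ i j, i ≠ j → Bent (g i + g j)) {o : I}
    {x1 x2 : V →ₗ[ZMod 2] ZMod 2} {e1 e2 : ZMod 2} {q : I → V → ZMod 2}
    (hF : IsF g o x1 x2 e1 e2 q) (i : I) :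
    ∃ Q : Finset I, (∀ j ∈ Q, Quad (g i + g j)) ∧ 2 ^ (2 * m - 1) < 2 * Q.card := by
  classical
  set R : I → V → Prop := fun j a => x1 a = 0 ∧ x2 a = 0 ∧ ∃ ν : V →ₗ[ZMod 2] ZMod 2,
      (ν = x1 ∨ ν = x2 ∨ ν = x1 + x2) ∧ ∀ x z, D x (D a (q i + q j)) z = ν x with hR
  have hνne : ∀ ν : V →ₗ[ZMod 2] ZMod 2, (ν = x1 ∨ ν = x2 ∨ ν = x1 + x2) → ν ≠ 0 := by
    rintro ν (rfl | rfl | rfl)
    · exact hF.ne1
    · exact hF.ne2
    · intro h0
      apply hF.ne
      ext x
      have hx : x1 x + x2 x = 0 := by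
        have := LinearMap.congr_fun h0 x
        rwa [LinearMap.add_apply, LinearMap.zero_apply] at this
      have : ∀ s t : ZMod 2, s + t = 0 → s = t := by decide
      exact this _ _ hx
  have hR0 : ∀ j a, R j a → a ≠ 0 := by
    rintro j a ⟨-, -, ν, hν, h⟩ rfl
    apply hνne ν hν
    ext x
    have h1 := h x 0
    rw [D_comm, D_zero] at h1
    rw [← h1, LinearMap.zero_apply]
  set A : Finset I := Finset.univ.filter (fun j => j ≠ i ∧ Nat.card {a : V // R j a} = 3) with hA
  set Kn : Finset V := Finset.univ.filter (fun a => (x1 a = 0 ∧ x2 a = 0) ∧ a ≠ 0) with hKn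
  have hKc : Kn.card + 1 = 2 ^ (2 * m - 2) := by
    have h1 := card_K hm hV hF.ne1 hF.ne2 hF.ne
    rw [Nat.card_eq_fintype_card, Fintype.card_subtype] at h1
    rw [← h1]
    have h2 : Kn = (Finset.univ.filter (fun a : V => x1 a = 0 ∧ x2 a = 0)).erase 0 := by
      ext a
      rw [hKn, Finset.mem_erase, Finset.mem_filter, Finset.mem_filter]
      tauto
    rw [h2]
    apply Finset.card_erase_add_one
    rw [Finset.mem_filter]
    exact ⟨Finset.mem_univ _, map_zero _, map_zero _⟩
  have hAK : A.card * 3 ≤ Kn.card * 3 := by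
    apply Finset.card_mul_le_card_mul R
    · intro j hj
      have h3 := (Finset.mem_filter.1 hj).2.2
      rw [Nat.card_eq_fintype_card, Fintype.card_subtype] at h3
      rw [← h3]
      apply Finset.card_le_card
      intro a ha
      have ha' := (Finset.mem_filter.1 ha).2
      rw [Finset.mem_bipartiteAbove]
      refine ⟨?_, ha'⟩
      rw [hKn, Finset.mem_filter]
      exact ⟨Finset.mem_univ _, ⟨ha'.1, ha'.2.1⟩, hR0 _ _ ha'⟩
    · intro a ha
      have ha' := (Finset.mem_filter.1 ha).2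
      obtain ⟨j1, -, h1⟩ := flat_unique hm hV hI g hb hF ha'.2 ha'.1.1 ha'.1.2 i x1 ha'.1.1
      obtain ⟨j2, -, h2⟩ := flat_unique hm hV hI g hb hF ha'.2 ha'.1.1 ha'.1.2 i x2 ha'.1.2
      obtain ⟨j3, -, h3⟩ := flat_unique hm hV hI g hb hF ha'.2 ha'.1.1 ha'.1.2 i (x1 + x2)
        (by rw [LinearMap.add_apply, ha'.1.1, ha'.1.2, add_zero])
      refine le_trans (Finset.card_le_card ?_) (Finset.card_le_three (a := j1) (b := j2) (c := j3))
      intro j hj
      rw [Finset.mem_bipartiteBelow] at hj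
      obtain ⟨-, -, -, ν, hν, h⟩ := hj
      rw [Finset.mem_insert, Finset.mem_insert, Finset.mem_singleton]
      rcases hν with rfl | rfl | rfl
      · exact Or.inl (h1 j h)
      · exact Or.inr (Or.inl (h2 j h))
      · exact Or.inr (Or.inr (h3 j h))
  refine ⟨Finset.univ \ A, ?_, ?_⟩
  · intro j hj
    rw [Finset.mem_sdiff] at hj
    have hj := hj.2
    by_cases hij : i = j
    · subst hij
      rw [fun_add_self]
      intro a b c x
      simp [D]
    · rcases flat_card hV g hb hF hij with h | h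
      · exfalso
        apply hj
        rw [hA, Finset.mem_filter]
        exact ⟨Finset.mem_univ _, fun e => hij e.symm, h⟩
      · refine quad_of_flat (hb i j hij) ((hF.quad i).add (hF.quad j)) hF.ne1 hF.ne2 hF.ne
          (e1 := e1) (e2 := e2) ?_ h.2
        intro x hx
        rw [Pi.add_apply, Pi.add_apply, ← hF.eq i x hx, ← hF.eq j x hx]
        have := z2_add_self (g o x)
        linear_combination -this
  · rw [Finset.card_sdiff_of_subset (Finset.subset_univ _), Finset.card_univ, hI]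
    have e : 2 ^ (2 * m - 1) = 2 * 2 ^ (2 * m - 2) := by
      rw [← pow_succ']
      congr 1
      omega
    rw [e]
    omega

theorem quad_of_isF {m : ℕ} (hm : 1 ≤ m) (hV : Module.finrank (ZMod 2) V = 2 * m)
    (hI : Fintype.card I = 2 ^ (2 * m - 1)) (g : I → V → ZMod 2)
    (hb : ∀ i j, i ≠ j → Bent (g i + g j)) {o : I}
    {x1 x2 : V →ₗ[ZMod 2] ZMod 2} {e1 e2 : ZMod 2} {q : I → V → ZMod 2}
    (hF : IsF g o x1 x2 e1 e2 q) (i j : I) : Quad (g i + g j) := by
  classical
  obtain ⟨Q, hQ, hQc⟩ := many_quad hm hV hI g hb hF i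
  obtain ⟨Q', hQ', hQc'⟩ := many_quad hm hV hI g hb hF j
  have hne : (Q ∩ Q').Nonempty := by
    rw [← Finset.card_pos]
    have h1 := Finset.card_union_add_card_inter Q Q'
    have h2 : (Q ∪ Q').card ≤ 2 ^ (2 * m - 1) := by
      rw [← hI]
      exact Finset.card_le_univ _
    omega
  obtain ⟨k, hk⟩ := hne
  rw [Finset.mem_inter] at hk
  have h3 : g i + g j = (g i + g k) + (g j + g k) := by
    funext x
    simp only [Pi.add_apply]
    have := z2_add_self (g k x)
    linear_combination -this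
  rw [h3]
  exact (hQ k hk.1).add (hQ' k hk.2)

end Pool.Agent.Krd
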