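import Pool.Agent.Krd.FlatDefs
import Pool.Agent.Krd.Bil

/-!
# Krd KR23: flat of codimension two, one index for every direction and functional

`finrank V = 2 * m`, `m ≥ 1`, `card I = 2 ^ (2 * m - 1)`, all `g i + g j` (`i ≠ j`) bent,
`IsF g o x1 x2 e1 e2 q`, `K = {a | x1 a = 0 ∧ x2 a = 0}`.

* `flat_ne`: for `a ∈ K`, `a ≠ 0`, `i ≠ j` there are `b, x` with `D b (D a (q i + q j)) x ≠ 0`.
  Otherwise `D a (q i + q j)` is constant `c`; for `x` outside the flat also `x + a` is outside
  (`x1 (x + a) = x1 x`), so `D a (g i + g j) x = c` there, for three quarters of all `x` (the flat has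
  `card V / 4` elements since `x1, x2` are linearly independent), contradiction to `Bent`.
* `flat_unique`: for `a ∈ K`, `a ≠ 0`, `i`, and a functional `φ` with `φ a = 0` there is exactly one
  `j` with `D x (D a (q i + q j)) z = φ x` for all `x, z`. Proof: `q i + q j` is `Quad`, so the second
  derivatives are the values of a linear functional `φ_j` (`exists_bil` with `U = ⊤`), `φ_j a = 0`
  (`D_self`), `φ_j + φ_j'` belongs to `q j + q j'` and is nonzero for `j ≠ j'` by the first item; so
  `j ↦ φ_j` is injective from `I` into `{φ | φ a = 0}`, which has `2 ^ (2 * m - 1) = card I` elements.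
-/

set_option autoImplicit false
set_option linter.unusedSectionVars false

namespace Pool.Agent.Krd

variable {V : Type*} [AddCommGroup V] [Module (ZMod 2) V] [Fintype V]
variable {I : Type*} [Fintype I]

private theorem sg_abs (t : ZMod 2) : sg t = 1 ∨ sg t = -1 := by
  revert t; decide

private theorem z2_ne1 (t : ZMod 2) : t + 1 ≠ t := by
  revert t; decide

private theorem z2_ne2 (t : ZMod 2) : t + (1 + 0) ≠ t := by
  revert t; decide

private theorem exists_dual_pair {x1 x2 : V →ₗ[ZMod 2] ZMod 2} (n1 : x1 ≠ 0) (n2 : x2 ≠ 0)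
    (hne : x1 ≠ x2) : ∃ u v : V, x1 u = 1 ∧ x2 u = 0 ∧ x1 v = 0 ∧ x2 v = 1 := by
  obtain ⟨p, hp⟩ : ∃ p, x1 p ≠ 0 := by
    by_contra h
    push Not at h
    exact n1 (LinearMap.ext h)
  obtain ⟨r, hr⟩ : ∃ r, x2 r ≠ 0 := by
    by_contra h
    push Not at h
    exact n2 (LinearMap.ext h)
  obtain ⟨s, hs⟩ : ∃ s, x1 s ≠ x2 s := by
    by_contra h
    push Not at h
    exact hne (LinearMap.ext h)
  have hp1 : x1 p = 1 := (z2_cases _).resolve_left hp
  have hr1 : x2 r = 1 := (z2_cases _).resolve_left hr
  have key : ∃ u : V, x1 u = 1 ∧ x2 u = 0 := by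
    rcases z2_cases (x1 s) with h1 | h1 <;> rcases z2_cases (x2 s) with h2 | h2
    · exact absurd (h1.trans h2.symm) hs
    · rcases z2_cases (x2 p) with h3 | h3
      · exact ⟨p, hp1, h3⟩
      · refine ⟨p + s, ?_, ?_⟩
        · rw [map_add, hp1, h1, add_zero]
        · rw [map_add, h3, h2]
          decide
    · exact ⟨s, h1, h2⟩
    · exact absurd (h1.trans h2.symm) hs
  have key2 : ∃ v : V, x1 v = 0 ∧ x2 v = 1 := by
    rcases z2_cases (x1 s) with h1 | h1 <;> rcases z2_cases (x2 s) with h2 | h2
    · exact absurd (h1.trans h2.symm) hs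
    · exact ⟨s, h1, h2⟩
    · rcases z2_cases (x1 r) with h3 | h3
      · exact ⟨r, h3, hr1⟩
      · refine ⟨r + s, ?_, ?_⟩
        · rw [map_add, h3, h1]
          decide
        · rw [map_add, hr1, h2, add_zero]
    · exact absurd (h1.trans h2.symm) hs
  obtain ⟨u, hu1, hu2⟩ := key
  obtain ⟨v, hv1, hv2⟩ := key2
  exact ⟨u, v, hu1, hu2, hv1, hv2⟩

theorem flat_ne (g : I → V → ZMod 2) (hb : ∀ i j, i ≠ j → Bent (g i + g j)) {o : I}
    {x1 x2 : V →ₗ[ZMod 2] ZMod 2} {e1 e2 : ZMod 2} {q : I → V → ZMod 2}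
    (hF : IsF g o x1 x2 e1 e2 q) {a : V} (ha : a ≠ 0) (h1 : x1 a = 0) (h2 : x2 a = 0) {i j : I}
    (hij : i ≠ j) : ∃ b x, D b (D a (q i + q j)) x ≠ 0 := by
  by_contra hcon
  push Not at hcon
  -- the derivative of the quadratic function is constant
  have hconst : ∀ x, D a (q i + q j) x = D a (q i + q j) 0 := by
    intro x
    have h := hcon x 0
    rw [D_apply, zero_add] at h
    have h3 := z2_add_self (D a (q i + q j) 0)
    linear_combination h - h3
  set c : ZMod 2 := D a (q i + q j) 0 with hc
  -- outside the flat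
  have hout : ∀ x, ¬ (x1 x = e1 ∧ x2 x = e2) → D a (g i + g j) x = c := by
    intro x hx
    have hx' : ¬ (x1 (x + a) = e1 ∧ x2 (x + a) = e2) := by
      rw [map_add, map_add, h1, h2, add_zero, add_zero]
      exact hx
    have e1' := hF.eq i x hx
    have e2' := hF.eq j x hx
    have e3' := hF.eq i (x + a) hx'
    have e4' := hF.eq j (x + a) hx'
    have h5 := hconst x
    rw [D_apply, Pi.add_apply, Pi.add_apply] at h5 ⊢
    rw [← h5, ← e1', ← e2', ← e3', ← e4']
    have h6 := z2_add_self (g o x)
    have h7 := z2_add_self (g o (x + a))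
    linear_combination -h6 - h7
  obtain ⟨u, v, hu1, hu2, hv1, hv2⟩ := exists_dual_pair hF.ne1 hF.ne2 hF.ne
  -- sum over the four translates
  have hsum := hb i j hij a ha
  have htr : ∀ w : V, ∑ x, sg (D a (g i + g j) (x + w)) = 0 := by
    intro w
    rw [← hsum]
    exact Fintype.sum_equiv (Equiv.addRight w) _ _ fun x => rfl
  have htot : ∑ x, (sg (D a (g i + g j) x) + sg (D a (g i + g j) (x + u)) +
      sg (D a (g i + g j) (x + v)) + sg (D a (g i + g j) (x + (u + v)))) = 0 := by
    rw [Finset.sum_add_distrib, Finset.sum_add_distrib, Finset.sum_add_distrib, hsum, htr u,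
      htr v, htr (u + v)]
    rfl
  have hpt : ∀ x, 2 ≤ sg c * (sg (D a (g i + g j) x) + sg (D a (g i + g j) (x + u)) +
      sg (D a (g i + g j) (x + v)) + sg (D a (g i + g j) (x + (u + v)))) := by
    intro x
    have hcc := sg_mul_self c
    have s0 := sg_abs (D a (g i + g j) x)
    have s1 := sg_abs (D a (g i + g j) (x + u))
    have s2 := sg_abs (D a (g i + g j) (x + v))
    have s3 := sg_abs (D a (g i + g j) (x + (u + v)))
    have sc := sg_abs c
    -- at most one of the four points is in the flat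
    by_cases q0 : x1 x = e1 ∧ x2 x = e2
    · have r1 : ¬ (x1 (x + u) = e1 ∧ x2 (x + u) = e2) := by
        rintro ⟨h, -⟩
        rw [map_add, hu1, q0.1] at h
        exact z2_ne1 _ h
      have r2 : ¬ (x1 (x + v) = e1 ∧ x2 (x + v) = e2) := by
        rintro ⟨-, h⟩
        rw [map_add, hv2, q0.2] at h
        exact z2_ne1 _ h
      have r3 : ¬ (x1 (x + (u + v)) = e1 ∧ x2 (x + (u + v)) = e2) := by
        rintro ⟨h, -⟩
        rw [map_add, map_add, hu1, hv1, q0.1] at h
        exact z2_ne2 _ h
      rw [hout _ r1, hout _ r2, hout _ r3]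
      rcases s0 with h | h <;> rcases sc with h' | h' <;> rw [h, h'] <;> norm_num
    · by_cases q1 : x1 (x + u) = e1 ∧ x2 (x + u) = e2
      · have r2 : ¬ (x1 (x + v) = e1 ∧ x2 (x + v) = e2) := by
          rintro ⟨h, -⟩
          have h8 := q1.1
          rw [map_add, hu1] at h8
          rw [map_add, hv1, ← h8] at h
          exact absurd h (by
            generalize x1 x = t
            revert t; decide)
        have r3 : ¬ (x1 (x + (u + v)) = e1 ∧ x2 (x + (u + v)) = e2) := by
          rintro ⟨-, h⟩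
          have h8 := q1.2
          rw [map_add, hu2] at h8
          rw [map_add, map_add, hu2, hv2, ← h8] at h
          exact absurd h (by
            generalize x2 x = t
            revert t; decide)
        rw [hout _ q0, hout _ r2, hout _ r3]
        rcases s1 with h | h <;> rcases sc with h' | h' <;> rw [h, h'] <;> norm_num
      · by_cases q2 : x1 (x + v) = e1 ∧ x2 (x + v) = e2
        · have r3 : ¬ (x1 (x + (u + v)) = e1 ∧ x2 (x + (u + v)) = e2) := by
            rintro ⟨h, -⟩
            have h8 := q2.1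
            rw [map_add, hv1] at h8
            rw [map_add, map_add, hu1, hv1, ← h8] at h
            exact absurd h (by
              generalize x1 x = t
              revert t; decide)
          rw [hout _ q0, hout _ q1, hout _ r3]
          rcases s2 with h | h <;> rcases sc with h' | h' <;> rw [h, h'] <;> norm_num
        · rw [hout _ q0, hout _ q1, hout _ q2]
          rcases s3 with h | h <;> rcases sc with h' | h' <;> rw [h, h'] <;> norm_num
  have hge : (∑ _x : V, (2 : ℤ)) ≤ sg c * ∑ x, (sg (D a (g i + g j) x) +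
      sg (D a (g i + g j) (x + u)) + sg (D a (g i + g j) (x + v)) +
      sg (D a (g i + g j) (x + (u + v)))) := by
    rw [Finset.mul_sum]
    exact Finset.sum_le_sum fun x _ => hpt x
  rw [htot, mul_zero, Finset.sum_const, Finset.card_univ, nsmul_eq_mul] at hge
  have hcard : 0 < Fintype.card V := Fintype.card_pos_iff.2 ⟨0⟩
  have : (0 : ℤ) < Fintype.card V := by exact_mod_cast hcard
  linarith

private theorem flat_sum (q : I → V → ZMod 2) (i j j' : I) (x u z : V) :
    D x (D u (q j + q j')) z =
      D x (D u (q i + q j)) z + D x (D u (q i + q j')) z := by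
  have h : q j + q j' = (q i + q j) + (q i + q j') := by
    have h1 := fun_add_self (q i)
    calc q j + q j' = 0 + (q j + q j') := (zero_add _).symm
      _ = (q i + q i) + (q j + q j') := by rw [h1]
      _ = (q i + q j) + (q i + q j') := by abel
  rw [h, D_add, D_add, Pi.add_apply]

private theorem flat_ker {m : ℕ} (hV : Module.finrank (ZMod 2) V = 2 * m) {u : V} (hu0 : u ≠ 0) :
    Nat.card {φ : Module.Dual (ZMod 2) V // φ u = 0} = 2 ^ (2 * m - 1) := by
  let ev : Module.Dual (ZMod 2) V →ₗ[ZMod 2] ZMod 2 := Module.Dual.eval (ZMod 2) V u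
  have hev : ∀ φ, ev φ = φ u := fun φ => rfl
  have hsurj : Function.Surjective ev := by
    obtain ⟨φ, hφ⟩ : ∃ φ : Module.Dual (ZMod 2) V, φ u ≠ 0 := by
      by_contra h
      push Not at h
      exact hu0 ((Module.forall_dual_apply_eq_zero_iff (ZMod 2) u).1 h)
    intro c
    rcases z2_cases c with rfl | rfl
    · exact ⟨0, map_zero ev⟩
    · refine ⟨φ, ?_⟩
      rw [hev]
      rcases z2_cases (φ u) with h | h
      · exact absurd h hφ
      · exact h
  have h1 := LinearMap.finrank_range_add_finrank_ker ev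
  rw [LinearMap.range_eq_top.2 hsurj, finrank_top, Module.finrank_self, Subspace.dual_finrank_eq,
    hV] at h1
  have h2 : Nat.card (LinearMap.ker ev) = 2 ^ (2 * m - 1) := by
    rw [Module.natCard_eq_pow_finrank (K := ZMod 2), Nat.card_zmod]
    congr 1
    omega
  rw [← h2]
  exact Nat.card_congr (Equiv.subtypeEquivRight fun φ => by
    rw [LinearMap.mem_ker, hev])

theorem flat_unique {m : ℕ} (hm : 1 ≤ m) (hV : Module.finrank (ZMod 2) V = 2 * m)
    (hI : Fintype.card I = 2 ^ (2 * m - 1)) (g : I → V → ZMod 2)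
    (hb : ∀ i j, i ≠ j → Bent (g i + g j)) {o : I}
    {x1 x2 : V →ₗ[ZMod 2] ZMod 2} {e1 e2 : ZMod 2} {q : I → V → ZMod 2}
    (hF : IsF g o x1 x2 e1 e2 q) {a : V} (ha : a ≠ 0) (h1 : x1 a = 0) (h2 : x2 a = 0) (i : I)
    (φ : V →ₗ[ZMod 2] ZMod 2) (hφ : φ a = 0) :
    ∃! j, ∀ x z, D x (D a (q i + q j)) z = φ x := by
  classical
  have hrad : ∀ j, (⊤ : Submodule (ZMod 2) V) ≤ rad (q i + q j) := fun j =>
    (quad_iff_rad_eq_top.1 ((hF.quad i).add (hF.quad j))).ge
  have hex := fun j => exists_bil (hrad j)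
  choose B hB using hex
  let a' : (⊤ : Submodule (ZMod 2) V) := ⟨a, Submodule.mem_top⟩
  have hF0 : ∀ j, B j a' a = 0 := fun j => by
    rw [← hB j a' a 0]
    exact D_self a _ 0
  let F : I → {φ : Module.Dual (ZMod 2) V // φ a = 0} := fun j => ⟨B j a', hF0 j⟩
  have hinj : Function.Injective F := by
    intro j j' hjj
    by_contra hne
    obtain ⟨b, x, hbx⟩ := flat_ne g hb hF ha h1 h2 hne
    apply hbx
    have h3 := congrArg (fun ψ => ψ.1 b) hjj
    have h4 : B j a' b = B j' a' b := h3
    have h5 := hB j a' b x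
    have h6 := hB j' a' b x
    have h7 : D b (D a (q i + q j)) x = B j a' b := h5
    have h8 : D b (D a (q i + q j')) x = B j' a' b := h6
    rw [flat_sum q i j j', h7, h8, h4, z2_add_self]
  have hcard : Nat.card {φ : Module.Dual (ZMod 2) V // φ a = 0} = Nat.card I := by
    rw [flat_ker hV ha, Nat.card_eq_fintype_card, hI]
  have : Finite {φ : Module.Dual (ZMod 2) V // φ a = 0} := by
    have : Finite (Module.Dual (ZMod 2) V) := Module.finite_of_finite (ZMod 2)
    infer_instance
  have hbij : Function.Bijective F :=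
    (Nat.bijective_iff_injective_and_card F).2 ⟨hinj, hcard.symm⟩
  obtain ⟨j, hj⟩ := hbij.2 ⟨φ, hφ⟩
  have hval : ∀ k, (F k).1 = B k a' := fun k => rfl
  have hB' : ∀ k x z, D x (D a (q i + q k)) z = B k a' x := fun k x z => hB k a' x z
  refine ⟨j, fun x z => ?_, fun k hk => ?_⟩
  · rw [hB' j x z, ← hval, hj]
  · apply hbij.1
    rw [hj]
    refine Subtype.ext (LinearMap.ext fun x => ?_)
    rw [hval, ← hB' k x 0]
    exact hk x 0

end Pool.Agent.Krd
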