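import Pool.Agent.Krd.FlatA
import Pool.Agent.Krd.Parity

/-!
# Krd KR24: flat of codimension two, zero or three directions

`finrank V = 2 * m`, `IsF g o x1 x2 e1 e2 q`, all `g i + g j` (`i ≠ j`) bent,
`K = {a | x1 a = 0 ∧ x2 a = 0}` (dimension `2 * m - 2`), `i ≠ j`, `f = q i + q j` (`Quad`).
The set `S` of all `a ∈ K` with `D x (D a f) z = ν x` for all `x, z` for some
`ν ∈ {x1, x2, x1 + x2}` has `3` or `0` elements.

Proof. Let `B` be the bilinear form of `f` (`exists_bil`, `U = ⊤`). `R = {a ∈ K | ∀ b ∈ K, B a b = 0}`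
is `K ⊓ orth f K` (up to symmetry, `bil_symm`), of even dimension (`even_finrank` with `U = K`:
`finrank K = 2 * m - 2` is even). A functional vanishing on `K` is one of `0, x1, x2, x1 + x2`, so for
`a ∈ R`: `B a ∈ {0, x1, x2, x1 + x2}`, and `a ↦ B a` is injective on `K` (`flat_ne`). So
`card R ≤ 4`, `finrank R ∈ {0, 2}`, and `S = R \ {0}` (elements `a` of `S` satisfy `B a ≠ 0`, so
`a ≠ 0`). So `card S = 0` or `3`.
The last statement: if `S` is empty then `B` restricted to `K` is nondegenerate: for every `a ∈ K`,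
`a ≠ 0`, there is `b ∈ K` with `B a b = 1`.
-/

set_option autoImplicit false
set_option linter.unusedSectionVars false

namespace Pool.Agent.Krd

variable {V : Type*} [AddCommGroup V] [Module (ZMod 2) V] [Fintype V]
variable {I : Type*} [Fintype I]

private theorem exists_one_zero {x1 x2 : V →ₗ[ZMod 2] ZMod 2} (h1 : x1 ≠ 0) (h : x1 ≠ x2) :
    ∃ b, x1 b = 1 ∧ x2 b = 0 := by
  have hv : ∃ v, x1 v ≠ x2 v := by
    by_contra hc
    push Not at hc
    exact h (LinearMap.ext hc)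
  have hw : ∃ w, x1 w = 1 := by
    by_contra hc
    push Not at hc
    refine h1 (LinearMap.ext fun w => ?_)
    rcases z2_cases (x1 w) with h2 | h2
    · exact h2
    · exact absurd h2 (hc w)
  obtain ⟨v, hv⟩ := hv
  obtain ⟨w, hw⟩ := hw
  rcases z2_cases (x1 v) with a | a <;> rcases z2_cases (x2 v) with b | b
  · exact absurd (a.trans b.symm) hv
  · rcases z2_cases (x2 w) with c | c
    · exact ⟨w, hw, c⟩
    · refine ⟨v + w, ?_, ?_⟩
      · rw [map_add, a, hw, zero_add]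
      · rw [map_add, b, c]
        rfl
  · exact ⟨v, a, b⟩
  · exact absurd (a.trans b.symm) hv

private theorem bil_top {f : V → ZMod 2} (hq : Quad f) :
    ∃ B : V →ₗ[ZMod 2] V →ₗ[ZMod 2] ZMod 2, ∀ a x y, D x (D a f) y = B a x := by
  obtain ⟨B, hB⟩ := exists_bil (f := f) (U := ⊤) (quad_iff_rad_eq_top.1 hq).ge
  exact ⟨B.comp (Submodule.topEquiv.symm : V ≃ₗ[ZMod 2] (⊤ : Submodule (ZMod 2) V)).toLinearMap,
    fun a x y => hB (Submodule.topEquiv.symm a) x y⟩

private theorem finrank_two {x1 x2 : V →ₗ[ZMod 2] ZMod 2} {b c : V} (hb1 : x1 b = 1)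
    (hb2 : x2 b = 0) (hc1 : x1 c = 0) (hc2 : x2 c = 1) :
    Module.finrank (ZMod 2) V =
      Module.finrank (ZMod 2) ↥(LinearMap.ker x1 ⊓ LinearMap.ker x2) + 2 := by
  let T : V →ₗ[ZMod 2] (ZMod 2 × ZMod 2) := x1.prod x2
  have hker : LinearMap.ker T = LinearMap.ker x1 ⊓ LinearMap.ker x2 := by
    ext v
    rw [LinearMap.mem_ker, Submodule.mem_inf, LinearMap.mem_ker, LinearMap.mem_ker]
    change (x1 v, x2 v) = ((0 : ZMod 2), (0 : ZMod 2)) ↔ _
    rw [Prod.mk.injEq]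
  have hsurj : Function.Surjective T := by
    rintro ⟨p, q⟩
    refine ⟨p • b + q • c, ?_⟩
    change (x1 _, x2 _) = _
    simp only [map_add, map_smul, smul_eq_mul, hb1, hb2, hc1, hc2]
    refine Prod.ext ?_ ?_
    · change p * 1 + q * 0 = p
      ring
    · change p * 0 + q * 1 = q
      ring
  have h3 := LinearMap.finrank_range_add_finrank_ker T
  rw [LinearMap.range_eq_top.2 hsurj, finrank_top, hker] at h3
  have h4 : Module.finrank (ZMod 2) (ZMod 2 × ZMod 2) = 2 := by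
    rw [Module.finrank_prod, Module.finrank_self]
  omega

private theorem four_cases {x1 x2 : V →ₗ[ZMod 2] ZMod 2} {b c : V} (hb1 : x1 b = 1)
    (hb2 : x2 b = 0) (hc1 : x1 c = 0) (hc2 : x2 c = 1) (ν : V →ₗ[ZMod 2] ZMod 2)
    (hν : ∀ a, x1 a = 0 → x2 a = 0 → ν a = 0) :
    ν = 0 ∨ ν = x1 ∨ ν = x2 ∨ ν = x1 + x2 := by
  have h1 : ∀ v, ν v = x1 v * ν b + x2 v * ν c := by
    intro v
    have h2 := hν (v - x1 v • b - x2 v • c)
      (by rw [map_sub, map_sub, map_smul, map_smul, smul_eq_mul, smul_eq_mul, hb1, hc1]; ring)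
      (by rw [map_sub, map_sub, map_smul, map_smul, smul_eq_mul, smul_eq_mul, hb2, hc2]; ring)
    rw [map_sub, map_sub, map_smul, map_smul, smul_eq_mul, smul_eq_mul] at h2
    linear_combination h2
  rcases z2_cases (ν b) with h3 | h3 <;> rcases z2_cases (ν c) with h4 | h4
  · left
    refine LinearMap.ext fun v => ?_
    rw [h1, h3, h4, mul_zero, mul_zero, add_zero]
    rfl
  · right; right; left
    refine LinearMap.ext fun v => ?_
    rw [h1, h3, h4, mul_zero, mul_one, zero_add]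
  · right; left
    refine LinearMap.ext fun v => ?_
    rw [h1, h3, h4, mul_zero, mul_one, add_zero]
  · right; right; right
    refine LinearMap.ext fun v => ?_
    rw [h1, h3, h4, mul_one, mul_one]
    rfl

theorem flat_card {m : ℕ} (hV : Module.finrank (ZMod 2) V = 2 * m)
    (g : I → V → ZMod 2) (hb : ∀ i j, i ≠ j → Bent (g i + g j)) {o : I}
    {x1 x2 : V →ₗ[ZMod 2] ZMod 2} {e1 e2 : ZMod 2} {q : I → V → ZMod 2}
    (hF : IsF g o x1 x2 e1 e2 q) {i j : I} (hij : i ≠ j) :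
    Nat.card {a : V // x1 a = 0 ∧ x2 a = 0 ∧ ∃ ν : V →ₗ[ZMod 2] ZMod 2,
      (ν = x1 ∨ ν = x2 ∨ ν = x1 + x2) ∧ ∀ x z, D x (D a (q i + q j)) z = ν x} = 3 ∨
    (Nat.card {a : V // x1 a = 0 ∧ x2 a = 0 ∧ ∃ ν : V →ₗ[ZMod 2] ZMod 2,
      (ν = x1 ∨ ν = x2 ∨ ν = x1 + x2) ∧ ∀ x z, D x (D a (q i + q j)) z = ν x} = 0 ∧
      ∀ a, x1 a = 0 → x2 a = 0 → a ≠ 0 →
        ∃ b, x1 b = 0 ∧ x2 b = 0 ∧ ∀ z, D b (D a (q i + q j)) z = 1) := by
  have hq : Quad (q i + q j) := (hF.quad i).add (hF.quad j)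
  have hne : ∀ a, x1 a = 0 → x2 a = 0 → a ≠ 0 → ∃ b x, D b (D a (q i + q j)) x ≠ 0 :=
    fun a h1 h2 h3 => flat_ne g hb hF h3 h1 h2 hij
  generalize q i + q j = f at hq hne ⊢
  obtain ⟨B, hB⟩ := bil_top hq
  obtain ⟨b, hb1, hb2⟩ := exists_one_zero hF.ne1 hF.ne
  obtain ⟨c, hc2, hc1⟩ := exists_one_zero hF.ne2 hF.ne.symm
  have hKf := finrank_two hb1 hb2 hc1 hc2
  have heven := even_finrank (f := f) (U := LinearMap.ker x1 ⊓ LinearMap.ker x2)
    (by rw [quad_iff_rad_eq_top.1 hq]; exact le_top)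
  have hK : ∀ a, a ∈ LinearMap.ker x1 ⊓ LinearMap.ker x2 ↔ x1 a = 0 ∧ x2 a = 0 := fun a => by
    rw [Submodule.mem_inf, LinearMap.mem_ker, LinearMap.mem_ker]
  generalize LinearMap.ker x1 ⊓ LinearMap.ker x2 = K at hKf heven hK
  have hRm : ∀ a, a ∈ K ⊓ orth f K ↔ (x1 a = 0 ∧ x2 a = 0) ∧ ∀ u ∈ K, B a u = 0 := by
    intro a
    rw [Submodule.mem_inf, hK, mem_orth]
    refine and_congr_right fun _ => ⟨fun h u hu => ?_, fun h u hu y => ?_⟩
    · rw [← hB a u 0, D_comm]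
      exact h u hu 0
    · rw [D_comm, hB a u y]
      exact h u hu
  generalize K ⊓ orth f K = R at heven hRm
  have hinj : ∀ a, x1 a = 0 → x2 a = 0 → B a = 0 → a = 0 := by
    intro a h1 h2 h3
    by_contra h4
    obtain ⟨b', x, h5⟩ := hne a h1 h2 h4
    apply h5
    rw [hB, h3]
    rfl
  have h4c : ∀ a ∈ R, B a = 0 ∨ B a = x1 ∨ B a = x2 ∨ B a = x1 + x2 := by
    intro a ha
    exact four_cases hb1 hb2 hc1 hc2 (B a) fun u h1 h2 => ((hRm a).1 ha).2 u ((hK u).2 ⟨h1, h2⟩)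
  have hRle : Module.finrank (ZMod 2) R ≤ 2 := by
    let φ : R →ₗ[ZMod 2] (ZMod 2 × ZMod 2) := ((B.flip b).prod (B.flip c)).comp R.subtype
    have hφ : Function.Injective φ := by
      rw [← LinearMap.ker_eq_bot, LinearMap.ker_eq_bot']
      rintro ⟨a, ha⟩ h
      have h1 : (B a b, B a c) = ((0 : ZMod 2), (0 : ZMod 2)) := h
      rw [Prod.mk.injEq] at h1
      have h2 : a = 0 := by
        refine hinj a ((hRm a).1 ha).1.1 ((hRm a).1 ha).1.2 ?_
        rcases h4c a ha with h3 | h3 | h3 | h3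
        · exact h3
        · rw [h3, hb1] at h1
          exact absurd h1.1 one_ne_zero
        · rw [h3, hc2] at h1
          exact absurd h1.2 one_ne_zero
        · rw [h3, LinearMap.add_apply, hb1, hb2, add_zero] at h1
          exact absurd h1.1 one_ne_zero
      exact Subtype.ext h2
    have h1 := LinearMap.finrank_le_finrank_of_injective hφ
    rwa [Module.finrank_prod, Module.finrank_self] at h1
  have hset : {a : V | x1 a = 0 ∧ x2 a = 0 ∧ ∃ ν : V →ₗ[ZMod 2] ZMod 2,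
      (ν = x1 ∨ ν = x2 ∨ ν = x1 + x2) ∧ ∀ x z, D x (D a f) z = ν x} = (R : Set V) \ {0} := by
    ext a
    rw [Set.mem_ofPred_eq, Set.mem_sdiff, Set.mem_singleton_iff, SetLike.mem_coe, hRm]
    constructor
    · rintro ⟨h1, h2, ν, hν, h⟩
      have hBν : B a = ν := LinearMap.ext fun x => (hB a x 0).symm.trans (h x 0)
      refine ⟨⟨⟨h1, h2⟩, fun u hu => ?_⟩, ?_⟩
      · have h3 := (hK u).1 hu
        rw [hBν]
        rcases hν with rfl | rfl | rfl
        · exact h3.1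
        · exact h3.2
        · rw [LinearMap.add_apply, h3.1, h3.2, add_zero]
      · rintro rfl
        rw [map_zero] at hBν
        rcases hν with h3 | h3 | h3
        · exact hF.ne1 (hBν.trans h3).symm
        · exact hF.ne2 (hBν.trans h3).symm
        · have h4 := LinearMap.congr_fun (hBν.trans h3) b
          rw [LinearMap.add_apply, hb1, hb2, add_zero] at h4
          exact zero_ne_one h4
    · rintro ⟨⟨h1, h2⟩, h3⟩
      refine ⟨h1.1, h1.2, B a, ?_, fun x z => hB a x z⟩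
      rcases h4c a ((hRm a).2 ⟨h1, h2⟩) with h4 | h4
      · exact absurd (hinj a h1.1 h1.2 h4) h3
      · exact h4
  have hcard : Nat.card R = 2 ^ Module.finrank (ZMod 2) R := by
    rw [Module.natCard_eq_pow_finrank (K := ZMod 2), Nat.card_zmod]
  have hS : Nat.card {a : V // x1 a = 0 ∧ x2 a = 0 ∧ ∃ ν : V →ₗ[ZMod 2] ZMod 2,
      (ν = x1 ∨ ν = x2 ∨ ν = x1 + x2) ∧ ∀ x z, D x (D a f) z = ν x} =
      2 ^ Module.finrank (ZMod 2) R - 1 := by
    rw [← Set.coe_ofPred, Nat.card_coe_set_eq, hset, Set.ncard_sdiff_singleton_of_mem (zero_mem R),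
      ← hcard, ← Nat.card_coe_set_eq]
    rfl
  rw [hS]
  have hfr : Module.finrank (ZMod 2) R = 0 ∨ Module.finrank (ZMod 2) R = 2 := by
    obtain ⟨k, hk⟩ := heven
    omega
  rcases hfr with h0 | h0
  · right
    rw [h0]
    refine ⟨rfl, fun a h1 h2 h3 => ?_⟩
    by_contra hcon
    push Not at hcon
    apply h3
    have h4 : a ∈ R := by
      rw [hRm]
      refine ⟨⟨h1, h2⟩, fun u hu => ?_⟩
      obtain ⟨z, hz⟩ := hcon u ((hK u).1 hu).1 ((hK u).1 hu).2
      rw [hB] at hz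
      exact (z2_cases (B a u)).resolve_right hz
    have h5 : R = ⊥ := Submodule.finrank_eq_zero.1 h0
    rw [h5, Submodule.mem_bot] at h4
    exact h4
  · left
    rw [h0]
    rfl

end Pool.Agent.Krd
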