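import Pool.Agent.Krd.Defs

/-!
# Krd: the situation of a flat of codimension two

All `g i + g o` agree with quadratic functions `q i` outside the flat
`{x | x1 x = e1 ∧ x2 x = e2}`.
-/

set_option autoImplicit false
set_option linter.unusedSectionVars false

namespace Pool.Agent.Krd

/-- Outside the flat `{x | x1 x = e1 ∧ x2 x = e2}` of codimension two the functions `g i + g o`
agree with the quadratic functions `q i`. -/
structure IsF {V : Type*} [AddCommGroup V] [Module (ZMod 2) V] {I : Type*} (g : I → V → ZMod 2)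
    (o : I) (x1 x2 : V →ₗ[ZMod 2] ZMod 2) (e1 e2 : ZMod 2) (q : I → V → ZMod 2) : Prop where
  ne1 : x1 ≠ 0
  ne2 : x2 ≠ 0
  ne : x1 ≠ x2
  quad : ∀ i, Quad (q i)
  eq : ∀ i x, ¬ (x1 x = e1 ∧ x2 x = e2) → g i x + g o x = q i x

end Pool.Agent.Krd
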