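import Pool.Agent.Krd.Orth

/-!
# Krd KR3: a bent function is bent on the cosets of `orth f U` modulo `U`

`V` finite vector space over `ZMod 2`, `f` bent, `U ≤ rad f`, `W = orth f U`, `R = U ⊓ W`,
`w ∈ W`, `w ∉ U`. Claim: `∑ w' : W, sg (D w f (y + w')) = 0` for every `y`.

Proof. For `u ∈ U` we have `D u (D w f) = D w (D u f) = 0`, so `D w f (x + u) = D w f x` (`shift_eq`).
For `r ∈ R`: `D (w + r) f x = D w f (x + r) + D r f x = D w f x + D r f x` (`D_add_dir`). `D r f` is
affine, so `D r f x = D r f 0 + D x (D r f) 0` (`shift_eq`) `= D r f 0 + B r x` with the bilinear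
`B` of `exists_bil`. As `w ∉ U`, `w + r ≠ 0`, and bentness gives
`0 = ∑ x, sg (D (w + r) f x) = sg (D r f 0) * ∑ x, sg (D w f x) * sg (B r x)`, so
(1) `∑ x, sg (D w f x) * sg (B r x) = 0` for all `r ∈ R`.
Multiply (1) by `sg (B r y)` and sum over `r ∈ R`: `∑ x, sg (D w f x) * ∑ r : R, sg (B r (x + y)) = 0`.
The inner sum is `card R` if `B r (x + y) = 0` for all `r ∈ R` and `0` otherwise (sum of the values of
a nontrivial character: choose `r0` with value `1` and use the bijection `r ↦ r + r0`). By
`mem_sup_orth` the condition is `x + y ∈ U ⊔ W`. So `∑ over x with x + y ∈ U ⊔ W of sg (D w f x) = 0`,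
i.e. `∑ z : ↥(U ⊔ W), sg (D w f (y + z)) = 0`. Finally the map `U × W → U ⊔ W`, `(u, w') ↦ u + w'`
is surjective and all its fibres have `card R` elements, and `D w f (y + u + w') = D w f (y + w')`
(invariance under `U`). So `card R * 0 = card U * ∑ w' : W, sg (D w f (y + w'))` and the claim follows.
-/

set_option autoImplicit false
set_option linter.unusedSectionVars false

namespace Pool.Agent.Krd

variable {V : Type*} [AddCommGroup V] [Module (ZMod 2) V] [Fintype V]

theorem key_sum {f : V → ZMod 2} (hf : Bent f) {U : Submodule (ZMod 2) V} (hU : U ≤ rad f)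
    [Fintype (orth f U)] {w : V} (hw : w ∈ orth f U) (hwU : w ∉ U) (y : V) :
    ∑ w' : orth f U, sg (D w f (y + (w' : V))) = 0 := by
  classical
  obtain ⟨B, hB⟩ := exists_bil hU
  -- invariance of `D w f` under `U`
  have hinv : ∀ u : U, ∀ x, D w f (x + (u : V)) = D w f x := by
    intro u x
    rw [shift_eq (u : V) (D w f) x, D_comm, hw (u : V) u.2 x, add_zero]
  -- the values of `D u f`
  have hval : ∀ u : U, ∀ x, D (u : V) f x = D (u : V) f 0 + B u x := by
    intro u x
    have h := shift_eq x (D (u : V) f) 0
    rw [hB u x 0, zero_add] at h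
    exact h
  -- all character sums vanish
  have hS : ∀ u : U, ∑ x, sg (D w f x) * sg (B u x) = 0 := by
    intro u
    by_cases hu : (u : V) ∈ orth f U
    · have hne : w + (u : V) ≠ 0 := by
        intro h0
        apply hwU
        have h1 : w = (u : V) := by
          have h2 := add_self' (u : V)
          have h3 : w + (u : V) = (u : V) + (u : V) := by rw [h0, h2]
          exact add_right_cancel h3
        rw [h1]
        exact u.2
      have h := hf _ hne
      have h2 : ∀ x, sg (D (w + (u : V)) f x) =
          sg (D (u : V) f 0) * (sg (D w f x) * sg (B u x)) := by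
        intro x
        rw [D_add_dir, hinv u x, hval u x, sg_add, sg_add]
        ring
      rw [Finset.sum_congr rfl (fun x _ => h2 x), ← Finset.mul_sum] at h
      rcases mul_eq_zero.1 h with h3 | h3
      · exfalso
        have h4 := sg_mul_self (D (u : V) f 0)
        rw [h3] at h4
        norm_num at h4
      · exact h3
    · have hex : ∃ v : U, B u v = 1 := by
        by_contra hcon
        push Not at hcon
        apply hu
        intro v hv z
        have h1 := hB ⟨v, hv⟩ (u : V) z
        rw [h1]
        have h2 := bil_symm hB ⟨v, hv⟩ u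
        rw [h2]
        rcases z2_cases (B u ((⟨v, hv⟩ : U) : V)) with h3 | h3
        · exact h3
        · exact absurd h3 (hcon ⟨v, hv⟩)
      obtain ⟨v, hv⟩ := hex
      have h1 : ∑ x, sg (D w f x) * sg (B u x) =
          ∑ x, sg (D w f (x + (v : V))) * sg (B u (x + (v : V))) :=
        (Equiv.sum_comp (Equiv.addRight (v : V)) (fun x => sg (D w f x) * sg (B u x))).symm
      have h2 : ∑ x, sg (D w f (x + (v : V))) * sg (B u (x + (v : V))) =
          -∑ x, sg (D w f x) * sg (B u x) := by
        rw [← Finset.sum_neg_distrib]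
        refine Finset.sum_congr rfl (fun x _ => ?_)
        rw [hinv v x, map_add, hv, sg_add, sg_one]
        ring
      have h3 := h1.trans h2
      linarith
  -- the characters detect `orth f U`
  have hchar : ∀ z : V, ∑ u : U, sg (B u z) =
      if z ∈ orth f U then (Fintype.card U : ℤ) else 0 := by
    intro z
    by_cases hz : z ∈ orth f U
    · rw [if_pos hz]
      have h1 : ∀ u : U, sg (B u z) = 1 := by
        intro u
        have h2 := hz (u : V) u.2 0
        rw [hB u z 0] at h2
        rw [h2, sg_zero]
      rw [Finset.sum_congr rfl (fun u _ => h1 u)]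
      simp
    · rw [if_neg hz]
      have hex : ∃ v : U, B v z = 1 := by
        by_contra hcon
        push Not at hcon
        apply hz
        intro v hv t
        rw [hB ⟨v, hv⟩ z t]
        rcases z2_cases (B ⟨v, hv⟩ z) with h3 | h3
        · exact h3
        · exact absurd h3 (hcon ⟨v, hv⟩)
      obtain ⟨v, hv⟩ := hex
      have h1 : ∑ u : U, sg (B u z) = ∑ u : U, sg (B (u + v) z) :=
        (Equiv.sum_comp (Equiv.addRight v) (fun u => sg (B u z))).symm
      have h2 : ∑ u : U, sg (B (u + v) z) = -∑ u : U, sg (B u z) := by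
        rw [← Finset.sum_neg_distrib]
        refine Finset.sum_congr rfl (fun u _ => ?_)
        rw [map_add, LinearMap.add_apply, hv, sg_add, sg_one]
        ring
      have h3 := h1.trans h2
      linarith
  -- double sum
  have hT : ∑ u : U, sg (B u y) * ∑ x, sg (D w f x) * sg (B u x) = 0 := by
    refine Finset.sum_eq_zero (fun u _ => ?_)
    rw [hS u, mul_zero]
  have hT2 : ∑ u : U, sg (B u y) * ∑ x, sg (D w f x) * sg (B u x) =
      ∑ x, sg (D w f x) * ∑ u : U, sg (B u (y + x)) := by
    simp only [Finset.mul_sum]
    rw [Finset.sum_comm]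
    refine Finset.sum_congr rfl (fun x _ => Finset.sum_congr rfl (fun u _ => ?_))
    rw [map_add, sg_add]
    ring
  rw [hT2] at hT
  have hT3 : ∑ x, sg (D w f x) * ∑ u : U, sg (B u (y + x)) =
      ∑ z, sg (D w f (y + z)) * ∑ u : U, sg (B u z) := by
    have h1 := Equiv.sum_comp (Equiv.addLeft y)
      (fun x => sg (D w f x) * ∑ u : U, sg (B u (y + x)))
    rw [← h1]
    refine Finset.sum_congr rfl (fun z _ => ?_)
    have h2 : y + (Equiv.addLeft y) z = z := by
      change y + (y + z) = z
      rw [← add_assoc, add_self', zero_add]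
    rw [h2]
    rfl
  rw [hT3] at hT
  simp only [hchar, mul_ite, mul_zero] at hT
  rw [← Finset.sum_filter, ← Finset.sum_mul] at hT
  have hcard : (Fintype.card U : ℤ) ≠ 0 := by
    have : 0 < Fintype.card U := Fintype.card_pos
    positivity
  have hfin := (mul_eq_zero.1 hT).resolve_right hcard
  rw [← hfin]
  exact (Finset.sum_subtype (Finset.univ.filter (fun z => z ∈ orth f U)) (by simp)
    (fun z => sg (D w f (y + z)))).symm

end Pool.Agent.Krd
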