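import Pool.Agent.Krd.Bil

/-!
# Krd KR2: dimensions of `orth f U`

`V` finite vector space over `ZMod 2`, `f` bent, `U ≤ rad f`, `B` from `exists_bil`. Then
`orth f U = {w | ∀ u : U, B u w = 0}`.

* `finrank_orth`. The linear map `U → Dual V`, `u ↦ B u` is injective (`bil_ne_zero`). Hence its
  transpose `V → Dual U`, `x ↦ (u ↦ B u x)` (that is `B.flip`) is surjective (Mathlib:
  `LinearMap.dualMap_surjective_iff`, `LinearMap.flip`, or by dimensions: the rank of a matrix is the
  rank of its transpose; or: if the range of `B.flip` were a proper subspace of `Dual U` there would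
  be `u ≠ 0` in `U` killed by all `B.flip x`, i.e. `B u = 0`). The kernel of `B.flip` is `orth f U`, so
  `finrank V = finrank U + finrank (orth f U)` by rank-nullity.
* `mem_sup_orth`. Put `R = U ⊓ orth f U` and `X = {y | ∀ r ∈ R, ∀ z, D y (D r f) z = 0}`
  (`= orth f R`, and `R ≤ U ≤ rad f`, so `finrank X = finrank V - finrank R` by `finrank_orth` for
  `R`). `U ≤ X`: for `r ∈ R`, `u ∈ U`: `D u (D r f) = D r (D u f)` (`D_comm`), and this vanishes as
  `r ∈ orth f U`. `orth f U ≤ X`: `w ∈ orth f U`, `r ∈ R ≤ U`. So `U ⊔ orth f U ≤ X`, and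
  `finrank (U ⊔ orth f U) = finrank U + finrank (orth f U) - finrank R = finrank V - finrank R`
  (`Submodule.finrank_sup_add_finrank_inf_eq`). Equal dimensions give equality.
-/

set_option autoImplicit false
set_option linter.unusedSectionVars false

namespace Pool.Agent.Krd

variable {V : Type*} [AddCommGroup V] [Module (ZMod 2) V] [Fintype V]

theorem finrank_orth {f : V → ZMod 2} (hf : Bent f) {U : Submodule (ZMod 2) V} (hU : U ≤ rad f) :
    Module.finrank (ZMod 2) U + Module.finrank (ZMod 2) (orth f U) = Module.finrank (ZMod 2) V := by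
  obtain ⟨B, hB⟩ := exists_bil hU
  have hinj : Function.Injective B := by
    rw [← LinearMap.ker_eq_bot, LinearMap.ker_eq_bot']
    intro u hu
    by_contra h
    exact bil_ne_zero hf hB h hu
  have h1 : (LinearMap.range B).dualCoannihilator = orth f U := by
    ext w
    rw [Submodule.mem_dualCoannihilator, mem_orth]
    constructor
    · intro h u hu y
      have h2 := hB ⟨u, hu⟩ w y
      rw [h2]
      exact h _ ⟨_, rfl⟩
    · rintro h _ ⟨u, rfl⟩
      rw [← hB u w 0]
      exact h u u.2 0
  have h2 := Subspace.finrank_add_finrank_dualCoannihilator_eq (LinearMap.range B)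
  rw [h1, LinearMap.finrank_range_of_inj hinj] at h2
  exact h2

theorem mem_sup_orth {f : V → ZMod 2} (hf : Bent f) {U : Submodule (ZMod 2) V} (hU : U ≤ rad f)
    (y : V) : y ∈ U ⊔ orth f U ↔ ∀ r ∈ U ⊓ orth f U, ∀ z, D y (D r f) z = 0 := by
  have h1 := finrank_orth hf hU
  have h2 := finrank_orth hf (inf_le_left.trans hU : U ⊓ orth f U ≤ rad f)
  have h3 := Submodule.finrank_sup_add_finrank_inf_eq U (orth f U)
  have hle : U ⊔ orth f U ≤ orth f (U ⊓ orth f U) := by
    refine sup_le ?_ ?_
    · intro u hu r hr z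
      rw [D_comm]
      exact hr.2 u hu z
    · intro w hw r hr z
      exact hw r hr.1 z
  have heq := Submodule.eq_of_le_of_finrank_eq hle (by omega)
  rw [heq]
  exact mem_orth

end Pool.Agent.Krd
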