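import Pool.Agent.Krd.Defs

/-!
# Krd KR20: plane sums

`finrank V = 2 * m`, `m ≥ 1`, `card I = 2 ^ (2 * m - 1) = M`, all `g i + g j` (`i ≠ j`) bent. For
`a ≠ 0`, `b ≠ 0`, `a ≠ b` and all `x`: `∑ i, sg (D a (D b (g i)) x) = 0`.

Proof. Put `H i y = sg (D a (g i) y)`, `C y y' = ∑ i, H i y * H i y'`. For `i ≠ j`:
`∑ y, H i y * H j y = ∑ y, sg (D a (g i + g j) y) = 0`, and `∑ y, H i y * H i y = card V = 2 * M`. So
`∑ y, ∑ y', C y y' ^ 2 = ∑ i, ∑ j, (∑ y, H i y * H j y) ^ 2 = M * (2 * M) ^ 2 = 4 * M ^ 3`. On the other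
hand `C y y = M` and `C y (y + a) = M` (`D_shift`), which contributes already
`2 * M * (M ^ 2 + M ^ 2) = 4 * M ^ 3`. So all other `C y y'` vanish. Take `y = x`, `y' = x + b`:
`H i x * H i (x + b) = sg (D a (g i) x + D a (g i) (x + b)) = sg (D b (D a (g i)) x)`.
-/

set_option autoImplicit false
set_option linter.unusedSectionVars false

namespace Pool.Agent.Krd

variable {V : Type*} [AddCommGroup V] [Module (ZMod 2) V] [Fintype V]
variable {I : Type*} [Fintype I]

theorem plane_sum {m : ℕ} (hm : 1 ≤ m) (hV : Module.finrank (ZMod 2) V = 2 * m)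
    (hI : Fintype.card I = 2 ^ (2 * m - 1)) (g : I → V → ZMod 2)
    (hb : ∀ i j, i ≠ j → Bent (g i + g j)) {a b : V} (ha : a ≠ 0) (hb0 : b ≠ 0) (hab : a ≠ b)
    (x : V) : ∑ i, sg (D a (D b (g i)) x) = 0 := by
  classical
  have hcV : (Fintype.card V : ℤ) = 2 * 2 ^ (2 * m - 1) := by
    have h1 : Fintype.card V = 2 ^ (2 * m) := by
      rw [Module.card_eq_pow_finrank (K := ZMod 2) (V := V), hV, ZMod.card]
    rw [h1, ← pow_succ']
    rw [show 2 * m - 1 + 1 = 2 * m by omega]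
    push_cast
    rfl
  obtain ⟨M, hM⟩ : ∃ M : ℤ, M = 2 ^ (2 * m - 1) := ⟨_, rfl⟩
  have hcI : (Fintype.card I : ℤ) = M := by
    rw [hI, hM]
    push_cast
    rfl
  rw [← hM] at hcV
  obtain ⟨H, hH⟩ : ∃ H : I → V → ℤ, ∀ i y, H i y = sg (D a (g i) y) := ⟨_, fun _ _ => rfl⟩
  obtain ⟨C, hC⟩ : ∃ C : V → V → ℤ, ∀ y y', C y y' = ∑ i, H i y * H i y' := ⟨_, fun _ _ => rfl⟩
  have hHH : ∀ i y, H i y * H i y = 1 := by
    intro i y
    rw [hH]
    exact sg_mul_self _
  have hCyy : ∀ y, C y y = M := by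
    intro y
    rw [hC, Finset.sum_congr rfl (fun i _ => hHH i y)]
    simp [hcI]
  have hCya : ∀ y, C y (y + a) = M := by
    intro y
    rw [hC]
    have : ∀ i ∈ (Finset.univ : Finset I), H i y * H i (y + a) = 1 := by
      intro i _
      have h1 : H i (y + a) = H i y := by rw [hH, hH, D_shift]
      rw [h1, hHH]
    rw [Finset.sum_congr rfl this]
    simp [hcI]
  -- the double counting
  have htot : ∑ y, ∑ y', C y y' ^ 2 = ∑ i, ∑ j, (∑ y, H i y * H j y) ^ 2 := by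
    have h1 : ∀ y y', C y y' ^ 2 = ∑ i, ∑ j, (H i y * H j y) * (H i y' * H j y') := by
      intro y y'
      rw [hC, sq, Finset.sum_mul_sum]
      refine Finset.sum_congr rfl (fun i _ => Finset.sum_congr rfl (fun j _ => ?_))
      ring
    have h2 : ∀ i j, (∑ y, H i y * H j y) ^ 2
        = ∑ y, ∑ y', (H i y * H j y) * (H i y' * H j y') := by
      intro i j
      rw [sq, Finset.sum_mul_sum]
    simp only [h1, h2]
    calc ∑ y, ∑ y', ∑ i, ∑ j, (H i y * H j y) * (H i y' * H j y')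
        = ∑ y, ∑ i, ∑ y', ∑ j, (H i y * H j y) * (H i y' * H j y') :=
          Finset.sum_congr rfl (fun y _ => Finset.sum_comm)
      _ = ∑ i, ∑ y, ∑ y', ∑ j, (H i y * H j y) * (H i y' * H j y') := Finset.sum_comm
      _ = ∑ i, ∑ y, ∑ j, ∑ y', (H i y * H j y) * (H i y' * H j y') :=
          Finset.sum_congr rfl (fun i _ => Finset.sum_congr rfl (fun y _ => Finset.sum_comm))
      _ = ∑ i, ∑ j, ∑ y, ∑ y', (H i y * H j y) * (H i y' * H j y') :=
          Finset.sum_congr rfl (fun i _ => Finset.sum_comm)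
  have hoff : ∀ i j, i ≠ j → ∑ y, H i y * H j y = 0 := by
    intro i j hij
    rw [← hb i j hij a ha]
    refine Finset.sum_congr rfl (fun y _ => ?_)
    rw [hH, hH, D_add, Pi.add_apply, sg_add]
  have hdiag : ∀ i, ∑ y, H i y * H i y = 2 * M := by
    intro i
    rw [Finset.sum_congr rfl (fun y _ => hHH i y)]
    simp [hcV]
  have hval : ∑ i, ∑ j, (∑ y, H i y * H j y) ^ 2 = M * (2 * M) ^ 2 := by
    have h1 : ∀ i ∈ (Finset.univ : Finset I), ∑ j, (∑ y, H i y * H j y) ^ 2 = (2 * M) ^ 2 := by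
      intro i _
      rw [Finset.sum_eq_single i]
      · rw [hdiag]
      · intro j _ hj
        rw [hoff i j (Ne.symm hj)]
        norm_num
      · intro h
        exact absurd (Finset.mem_univ i) h
    rw [Finset.sum_congr rfl h1]
    simp [hcI]
  have hlow : ∀ y, M ^ 2 + M ^ 2 ≤ ∑ y', C y y' ^ 2 := by
    intro y
    have hne : y ≠ y + a := fun h => ha (by simpa using h.symm)
    have h1 : ∑ y' ∈ ({y, y + a} : Finset V), C y y' ^ 2 ≤ ∑ y', C y y' ^ 2 :=
      Finset.sum_le_sum_of_subset_of_nonneg (Finset.subset_univ _) (fun _ _ _ => sq_nonneg _)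
    rw [Finset.sum_pair hne, hCyy, hCya] at h1
    exact h1
  have hlowx : M ^ 2 + M ^ 2 + C x (x + b) ^ 2 ≤ ∑ y', C x y' ^ 2 := by
    have hne : x ≠ x + a := fun h => ha (by simpa using h.symm)
    have hnb : x + b ≠ x := fun h => hb0 (by simpa using h)
    have hnab : x + b ≠ x + a := fun h => hab (by simpa using h.symm)
    have h1 : ∑ y' ∈ ({x + b, x, x + a} : Finset V), C x y' ^ 2 ≤ ∑ y', C x y' ^ 2 :=
      Finset.sum_le_sum_of_subset_of_nonneg (Finset.subset_univ _) (fun _ _ _ => sq_nonneg _)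
    rw [Finset.sum_insert (by simp [hb0, Ne.symm hab]), Finset.sum_pair hne, hCyy, hCya] at h1
    linarith
  have hsum : ∑ y, ∑ y', C y y' ^ 2 = ∑ _y : V, (M ^ 2 + M ^ 2) := by
    rw [htot, hval, Finset.sum_const, Finset.card_univ, nsmul_eq_mul, hcV]
    ring
  have heq : ∀ y ∈ (Finset.univ : Finset V), M ^ 2 + M ^ 2 = ∑ y', C y y' ^ 2 :=
    (Finset.sum_eq_sum_iff_of_le (fun y _ => hlow y)).1 hsum.symm
  have hx := heq x (Finset.mem_univ x)
  have hzero : C x (x + b) = 0 := by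
    have h1 : C x (x + b) ^ 2 ≤ 0 := by linarith
    exact pow_eq_zero_iff (two_ne_zero) |>.1 (le_antisymm h1 (sq_nonneg _))
  rw [← hzero, hC]
  refine Finset.sum_congr rfl (fun i _ => ?_)
  rw [hH, hH, ← sg_add, D_comm]
  rfl

end Pool.Agent.Krd
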