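import Pool.Agent.Krd.Key
import Pool.Agent.Krd.Parity
import Pool.Agent.Krd.BFour

/-!
# Krd KR7: codimension four

`f` bent, `U ≤ rad f`, `finrank V = finrank U + 4`, `W = orth f U` (dimension 4 by `finrank_orth`),
`R = U ⊓ W`.

* `inf_ne_bot`: if `f` is not `Quad` then `R ≠ ⊥`. Suppose `R = ⊥`. Then `V = U ⊕ W` (dimensions) and
  every `w ≠ 0` in `W` is not in `U`. For fixed `y` put `F w' = f (y + w')` on `W` (16 elements). By
  `key_sum`, `F` is bent on `W`, so by `quad_of_card_sixteen` all third derivatives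
  `D a (D b (D c f)) y` with `a, b, c ∈ W` vanish. Third derivatives of `f` with one direction in `U`
  vanish (`U ≤ rad f`). Write `a = u + w` etc.; `D (u + w) F z = D u F (z + w) + D w F z` shows that
  all third derivatives vanish: `Quad f`.
* `exists_rad`: if not `W ≤ U` then there is `e ∈ rad f` with `e ∉ U`. Put `d = finrank R`. `d` is
  even here when `finrank V = 2 * m` (`even_finrank`, `finrank U = 2 * m - 4`), and `d < 4`, so
  `d = 0` or `d = 2`. If `d = 0` then `f` is `Quad` (previous item), `rad f = ⊤`, and `e` exists since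
  `finrank U < finrank V`. If `d = 2`: choose `w, w₂` with `W = R ⊕ <w, w₂>`. As in `QThree`
  (`key_sum`, invariance of `D w f` under `R` and `w`): `D w₂ (D w f) y = 1` for all `y`. So, with
  `X = U ⊔ W` (of codimension `4 - 4 + 2 = 2`): (1) `D a (D x (D x' f)) z = 0` for `x, x' ∈ X` and all
  `a, z`. Choose `p, q` with `V = X ⊕ <p, q>`. For `x ∈ X` put `t x = D x (D p (D q f)) 0`. The
  derivative of the function `D x (D p (D q f))` in any direction is zero (direction in `X`: by (1);
  direction `p`, `q` or `p + q`: `D_self`, `D_comm`, `D_add_dir`), so `D x (D p (D q f)) z = t x` for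
  all `z`, `t` is additive on `X` and vanishes on `U`. `X / U` has dimension `2`, so there is `e ∈ X`,
  `e ∉ U`, `t e = 0` (if `t x = t x' = 1` for two independent classes take `x + x'`). Then
  `D e (D a (D b f)) = 0` for all `a, b`: for `a` or `b` in `X` by (1), for `a, b ∈ <p, q>` by `t e = 0`
  (and `D_self`), in general by additivity. So `e ∈ rad f`.
-/

set_option autoImplicit false
set_option linter.unusedSectionVars false

namespace Pool.Agent.Krd

variable {V : Type*} [AddCommGroup V] [Module (ZMod 2) V] [Fintype V]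

private theorem q4_zero {G : V → ZMod 2} (h : ∀ z, G z = 0) (a z : V) : D a G z = 0 := by
  rw [D_apply, h, h, add_zero]

private theorem q4_const {G : V → ZMod 2} {c : ZMod 2} (h : ∀ z, G z = c) (a z : V) :
    D a G z = 0 := by
  rw [D_apply, h, h, z2_add_self]

/-- The directions in which `G` does not change. -/
private def q4I (G : V → ZMod 2) : Submodule (ZMod 2) V where
  carrier := {a | ∀ z, D a G z = 0}
  zero_mem' := fun z => D_zero G z
  add_mem' := by
    intro a b ha hb z
    rw [D_add_dir, ha, hb, add_zero]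
  smul_mem' := by
    intro c a ha
    rcases z2_cases c with rfl | rfl
    · rw [zero_smul]
      exact fun z => D_zero G z
    · rwa [one_smul]

/-- The directions for which the derivative of `G` is constant. -/
private def q4K (G : V → ZMod 2) : Submodule (ZMod 2) V where
  carrier := {x | ∀ a z, D a (D x G) z = 0}
  zero_mem' := fun a z => q4_zero (fun y => D_zero G y) a z
  add_mem' := by
    intro x x' hx hx' a z
    have h1 := hx a (z + x')
    have h2 := hx' a z
    rw [D_apply] at h1 h2
    rw [D_apply, D_add_dir, D_add_dir, add_right_comm z a x']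
    linear_combination h1 + h2
  smul_mem' := by
    intro c x hx
    rcases z2_cases c with rfl | rfl
    · rw [zero_smul]
      exact fun a z => q4_zero (fun y => D_zero G y) a z
    · rwa [one_smul]

private theorem q4_res (W : Submodule (ZMod 2) V) (G : V → ZMod 2) (y : V) (a : W) :
    D a (fun w' : W => G (y + (w' : V))) = fun w' : W => D (a : V) G (y + (w' : V)) := by
  funext w'
  simp only [D, Submodule.coe_add, add_assoc]

private theorem q4_rad {f : V → ZMod 2} {U : Submodule (ZMod 2) V} (hU : U ≤ rad f) {u : V}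
    (hu : u ∈ U) (b c y : V) : D u (D b (D c f)) y = 0 := by
  rw [D_comm u b, D_comm u c]
  exact hU hu b c y

private theorem q4_rad' {f : V → ZMod 2} {U : Submodule (ZMod 2) V} (hU : U ≤ rad f) {u : V}
    (hu : u ∈ U) (b c y : V) : D b (D u (D c f)) y = 0 := by
  rw [D_comm u c]
  exact hU hu b c y

private theorem q4_pair {A B : Submodule (ZMod 2) V} (hAB : A ≤ B)
    (h : Module.finrank (ZMod 2) B = Module.finrank (ZMod 2) A + 2) :
    ∃ p ∈ B, ∃ q ∈ B, p ∉ A ∧ q ∉ A ⊔ Submodule.span (ZMod 2) {p} ∧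
      A ⊔ Submodule.span (ZMod 2) {p} ⊔ Submodule.span (ZMod 2) {q} = B := by
  have h1 : A ≠ B := by
    rintro rfl
    omega
  obtain ⟨p, hp, hpA⟩ := SetLike.exists_of_lt (lt_of_le_of_ne hAB h1)
  have h2 := Submodule.finrank_sup_span_singleton (K := ZMod 2) hpA
  have h3 : A ⊔ Submodule.span (ZMod 2) {p} ≤ B :=
    sup_le hAB ((Submodule.span_singleton_le_iff_mem _ _).2 hp)
  have h4 : A ⊔ Submodule.span (ZMod 2) {p} ≠ B := by
    intro h5
    rw [h5] at h2
    omega
  obtain ⟨q, hq, hqA⟩ := SetLike.exists_of_lt (lt_of_le_of_ne h3 h4)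
  have h5 := Submodule.finrank_sup_span_singleton (K := ZMod 2) hqA
  refine ⟨p, hp, q, hq, hpA, hqA, Submodule.eq_of_le_of_finrank_eq
    (sup_le h3 ((Submodule.span_singleton_le_iff_mem _ _).2 hq)) ?_⟩
  omega

theorem inf_ne_bot {f : V → ZMod 2} (hf : Bent f) {U : Submodule (ZMod 2) V} (hU : U ≤ rad f)
    (hc : Module.finrank (ZMod 2) V = Module.finrank (ZMod 2) U + 4) (hq : ¬ Quad f) :
    U ⊓ orth f U ≠ ⊥ := by
  intro hR
  apply hq
  classical
  have hdim := finrank_orth hf hU
  have hfW : Module.finrank (ZMod 2) (orth f U) = 4 := by omega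
  have : Fintype (orth f U) := Fintype.ofFinite _
  have hcard : Fintype.card (orth f U) = 16 := by
    rw [Module.card_eq_pow_finrank (K := ZMod 2), ZMod.card, hfW]
    norm_num
  have hsup : U ⊔ orth f U = ⊤ := by
    apply Submodule.eq_top_of_finrank_eq
    have h1 := Submodule.finrank_sup_add_finrank_inf_eq U (orth f U)
    rw [hR, finrank_bot] at h1
    omega
  have h1 : ∀ a ∈ orth f U, ∀ b ∈ orth f U, ∀ c ∈ orth f U, ∀ y,
      D a (D b (D c f)) y = 0 := by
    intro a ha b hb c hc y
    have hF : Bent fun w' : orth f U => f (y + (w' : V)) := by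
      intro x hx
      have hxU : (x : V) ∉ U := fun h => hx (by
        have h2 : (x : V) ∈ U ⊓ orth f U := ⟨h, x.2⟩
        rw [hR, Submodule.mem_bot] at h2
        exact Subtype.ext h2)
      rw [q4_res]
      exact key_sum hf hU x.2 hxU y
    have h := quad_of_card_sixteen hcard hF ⟨a, ha⟩ ⟨b, hb⟩ ⟨c, hc⟩ 0
    rw [q4_res, q4_res, q4_res] at h
    simpa using h
  have h2 : ∀ b ∈ orth f U, ∀ c ∈ orth f U, ∀ a y, D a (D b (D c f)) y = 0 := by
    intro b hb c hc a
    have h3 : U ⊔ orth f U ≤ q4I (D b (D c f)) :=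
      sup_le (fun u hu => q4_rad hU hu b c) fun w hw => h1 w hw b hb c hc
    rw [hsup] at h3
    exact h3 (Submodule.mem_top : a ∈ ⊤)
  have h3 : ∀ c ∈ orth f U, ∀ a b y, D b (D a (D c f)) y = 0 := by
    intro c hc a b
    have h4 : U ⊔ orth f U ≤ q4I (D a (D c f)) :=
      sup_le (fun u hu => q4_rad hU hu a c) fun w hw y => by
        rw [D_comm w a]
        exact h2 w hw c hc a y
    rw [hsup] at h4
    exact h4 (Submodule.mem_top : b ∈ ⊤)
  intro a b c x
  have h4 : U ⊔ orth f U ≤ q4I (D a (D b f)) :=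
    sup_le (fun u hu => q4_rad hU hu a b) fun w hw y => by
      rw [D_comm w a, D_comm w b]
      exact h3 w hw b a y
  rw [hsup] at h4
  rw [D_comm b c, D_comm a c]
  exact h4 (Submodule.mem_top : c ∈ ⊤) x

theorem exists_rad {m : ℕ} (hV : Module.finrank (ZMod 2) V = 2 * m) {f : V → ZMod 2}
    (hf : Bent f) {U : Submodule (ZMod 2) V} (hU : U ≤ rad f)
    (hc : Module.finrank (ZMod 2) V = Module.finrank (ZMod 2) U + 4) (hW : ¬ orth f U ≤ U) :
    ∃ e ∈ rad f, e ∉ U := by
  classical
  have hdim := finrank_orth hf hU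
  have hfW : Module.finrank (ZMod 2) (orth f U) = 4 := by omega
  have : Fintype (orth f U) := Fintype.ofFinite _
  have hlt : Module.finrank (ZMod 2) ↥(U ⊓ orth f U) < 4 := by
    have h1 : U ⊓ orth f U < orth f U :=
      lt_of_le_of_ne inf_le_right fun h => hW (by rw [← h]; exact inf_le_left)
    have h2 := Submodule.finrank_lt_finrank_of_lt h1
    omega
  have hev := even_finrank hU
  have hd : Module.finrank (ZMod 2) ↥(U ⊓ orth f U) = 0 ∨
      Module.finrank (ZMod 2) ↥(U ⊓ orth f U) = 2 := by
    obtain ⟨k, hk⟩ := hev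
    omega
  rcases hd with hd | hd
  · have hq : Quad f := by
      by_contra hq
      exact inf_ne_bot hf hU hc hq (Submodule.finrank_eq_zero.1 hd)
    have h1 : U ≠ ⊤ := by
      intro h
      rw [h, finrank_top] at hc
      omega
    obtain ⟨e, -, he⟩ := SetLike.exists_of_lt (lt_top_iff_ne_top.2 h1)
    exact ⟨e, fun a b x => hq a b e x, he⟩
  obtain ⟨w, hw, w₂, hw₂, h1, h2, h3⟩ := q4_pair (A := U ⊓ orth f U) (B := orth f U)
    inf_le_right (by omega)
  have hwU : w ∉ U := fun h => h1 ⟨h, hw⟩
  have hw₂U : w₂ ∉ U := fun h => h2 (Submodule.mem_sup_left ⟨h, hw₂⟩)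
  have hwwU : w + w₂ ∉ U := by
    intro h
    apply h2
    have h4 : w + w₂ ∈ U ⊓ orth f U := ⟨h, (orth f U).add_mem hw hw₂⟩
    have h5 : w₂ = (w + w₂) + w := by
      rw [add_right_comm, add_self' w, zero_add]
    rw [h5]
    exact Submodule.add_mem_sup h4 (Submodule.mem_span_singleton_self w)
  -- the second derivative
  have hone : ∀ y, D w₂ (D w f) y = 1 := by
    intro y
    by_contra hne
    have h0 : D w₂ (D w f) y = 0 := (z2_cases _).resolve_right hne
    have hI : U ⊓ orth f U ⊔ Submodule.span (ZMod 2) {w} ≤ q4I (D w f) := by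
      refine sup_le (fun r hr z => ?_) ((Submodule.span_singleton_le_iff_mem _ _).2
        fun z => D_self w f z)
      rw [D_comm r w]
      exact hw r hr.1 z
    have hall : ∀ w' : orth f U, D w f (y + (w' : V)) = D w f y := by
      intro w'
      have h4 : (w' : V) ∈ U ⊓ orth f U ⊔ Submodule.span (ZMod 2) {w} ⊔
          Submodule.span (ZMod 2) {w₂} := by
        rw [h3]
        exact w'.2
      obtain ⟨i, hi, j, hj, hij⟩ := Submodule.mem_sup.1 h4
      obtain ⟨t, rfl⟩ := Submodule.mem_span_singleton.1 hj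
      have hi' : ∀ z, D i (D w f) z = 0 := hI hi
      rw [← hij, ← add_assoc, add_right_comm, shift_eq i (D w f), hi', add_zero]
      rcases z2_cases t with rfl | rfl
      · rw [zero_smul, add_zero]
      · rw [one_smul, shift_eq w₂ (D w f), h0, add_zero]
    have h4 := key_sum hf hU hw hwU y
    rw [Finset.sum_congr rfl fun w' _ => by rw [hall w'], Finset.sum_const, Finset.card_univ,
      nsmul_eq_mul] at h4
    have h5 : ((Fintype.card (orth f U) : ℕ) : ℤ) ≠ 0 := by
      exact_mod_cast Fintype.card_ne_zero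
    rcases mul_eq_zero.1 h4 with h6 | h6
    · exact h5 h6
    · have h7 := sg_mul_self (D w f y)
      rw [h6] at h7
      norm_num at h7
  -- (1)
  have hWX : ∀ K : Submodule (ZMod 2) V, U ≤ K → w ∈ K → w₂ ∈ K → U ⊔ orth f U ≤ K := by
    intro K hUK h4 h5
    refine sup_le hUK ?_
    rw [← h3]
    exact sup_le (sup_le (inf_le_left.trans hUK)
      ((Submodule.span_singleton_le_iff_mem _ _).2 h4))
      ((Submodule.span_singleton_le_iff_mem _ _).2 h5)
  have hKw : U ⊔ orth f U ≤ q4K (D w f) := hWX _ (fun u hu a z => q4_rad' hU hu a w z)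
    (fun a z => q4_zero (fun y => D_self w f y) a z) fun a z => q4_const hone a z
  have hKw₂ : U ⊔ orth f U ≤ q4K (D w₂ f) := hWX _ (fun u hu a z => q4_rad' hU hu a w₂ z)
    (fun a z => q4_const (c := 1) (fun y => by rw [D_comm]; exact hone y) a z)
    fun a z => q4_zero (fun y => D_self w₂ f y) a z
  have hX : ∀ x ∈ U ⊔ orth f U, ∀ x' ∈ U ⊔ orth f U, ∀ a z, D a (D x (D x' f)) z = 0 := by
    intro x hx x' hx' a z
    have h4 : U ⊔ orth f U ≤ q4K (D x f) := hWX _ (fun u hu a z => q4_rad' hU hu a x z)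
      (fun a z => by rw [D_comm w x]; exact hKw hx a z)
      fun a z => by rw [D_comm w₂ x]; exact hKw₂ hx a z
    rw [D_comm x x']
    exact h4 hx' a z
  have hfX : Module.finrank (ZMod 2) V = Module.finrank (ZMod 2) ↥(U ⊔ orth f U) + 2 := by
    have h4 := Submodule.finrank_sup_add_finrank_inf_eq U (orth f U)
    omega
  obtain ⟨p, -, q, -, -, -, hpq⟩ := q4_pair (A := U ⊔ orth f U) (B := ⊤) le_top
    (by rw [finrank_top]; exact hfX)
  have htop : ∀ K : Submodule (ZMod 2) V, U ⊔ orth f U ≤ K → p ∈ K → q ∈ K → K = ⊤ := by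
    intro K h4 h5 h6
    rw [eq_top_iff, ← hpq]
    exact sup_le (sup_le h4 ((Submodule.span_singleton_le_iff_mem _ _).2 h5))
      ((Submodule.span_singleton_le_iff_mem _ _).2 h6)
  -- the constants
  have ht : ∀ x ∈ U ⊔ orth f U, ∀ z, D x (D p (D q f)) z = D x (D p (D q f)) 0 := by
    intro x hx z
    have h4 : q4I (D x (D p (D q f))) = ⊤ := by
      refine htop _ (fun a ha y => ?_) (fun y => ?_) fun y => ?_
      · rw [D_comm x p, D_comm x q, D_comm a p, D_comm a q]
        exact q4_zero (fun z => hX a ha x hx q z) p y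
      · rw [D_comm x p, D_self]
      · rw [D_comm x p, D_comm x q, D_comm q p]
        exact q4_zero (fun z => D_self q (D x f) z) p y
    have h5 : z ∈ q4I (D x (D p (D q f))) := by
      rw [h4]
      exact Submodule.mem_top
    have h6 := shift_eq z (D x (D p (D q f))) 0
    rw [h5 0, add_zero, zero_add] at h6
    exact h6
  have hmw : w ∈ U ⊔ orth f U := Submodule.mem_sup_right hw
  have hmw₂ : w₂ ∈ U ⊔ orth f U := Submodule.mem_sup_right hw₂
  obtain ⟨e, heX, heU, he⟩ : ∃ e ∈ U ⊔ orth f U, e ∉ U ∧ D e (D p (D q f)) 0 = 0 := by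
    rcases z2_cases (D w (D p (D q f)) 0) with h4 | h4
    · exact ⟨w, hmw, hwU, h4⟩
    rcases z2_cases (D w₂ (D p (D q f)) 0) with h5 | h5
    · exact ⟨w₂, hmw₂, hw₂U, h5⟩
    refine ⟨w + w₂, Submodule.add_mem _ hmw hmw₂, hwwU, ?_⟩
    rw [D_add_dir, ht w hmw, h4, h5]
    rfl
  refine ⟨e, ?_, heU⟩
  have he' : ∀ z, D e (D p (D q f)) z = 0 := fun z => by rw [ht e heX, he]
  have hb : ∀ b ∈ U ⊔ orth f U, ∀ a z, D a (D b (D e f)) z = 0 := fun b hb => hX b hb e heX
  have hp : ∀ a z, D a (D p (D e f)) z = 0 := by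
    intro a
    have h4 : q4I (D p (D e f)) = ⊤ := by
      refine htop _ (fun a ha y => ?_) (fun y => D_self p _ y) fun y => ?_
      · rw [D_comm a p]
        exact hb a ha p y
      · rw [D_comm q p, D_comm q e, D_comm p e]
        exact he' y
    have h5 : a ∈ q4I (D p (D e f)) := by
      rw [h4]
      exact Submodule.mem_top
    exact h5
  have hq : ∀ a z, D a (D q (D e f)) z = 0 := by
    intro a
    have h4 : q4I (D q (D e f)) = ⊤ := by
      refine htop _ (fun a ha y => ?_) (fun y => ?_) fun y => D_self q _ y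
      · rw [D_comm a q]
        exact hb a ha q y
      · rw [D_comm q e, D_comm p e]
        exact he' y
    have h5 : a ∈ q4I (D q (D e f)) := by
      rw [h4]
      exact Submodule.mem_top
    exact h5
  intro a b x
  have h4 : q4I (D a (D e f)) = ⊤ := by
    refine htop _ (fun b hb' y => ?_) (fun y => ?_) fun y => ?_
    · rw [D_comm b a]
      exact hb b hb' a y
    · rw [D_comm p a]
      exact hp a y
    · rw [D_comm q a]
      exact hq a y
  have h5 : b ∈ q4I (D a (D e f)) := by
    rw [h4]
    exact Submodule.mem_top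
  rw [D_comm a b]
  exact h5 x

end Pool.Agent.Krd
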