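import Pool.Agent.Krd.Defs

/-!
# Krd KR17: Reed-Muller codes and derivatives

* `mem_RM_one`: `f ∈ RM 1 n` iff `f` is affine (all second derivatives vanish). The generators `1` and
  `x i` are affine and `Aff` is closed under sums (span induction; scalars are `0`, `1`). Conversely
  `Aff.exists_linear`, `l x = ∑ i, l (e i) * x i`.
* `mem_RM_two`: `f ∈ RM 2 n` iff `f` is `Quad`. The generators `1`, `x i`, `x i * x j` are `Quad`.
  Conversely let `f` be `Quad`, `β i j = D (e i) (D (e j) f) 0` (`e i = Pi.single i 1`) and
  `q = f + f 0 + ∑ i, (f (e i) + f 0) * x i + ∑ i < j, β i j * x i * x j`. `q` is `Quad`, `q 0 = 0`,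
  `q (e i) = 0`, `D (e i) (D (e j) q) 0 = 0` for `i ≠ j`, and for `i = j` by `D_self`. The second
  derivative `D a (D b q) x` does not depend on `x` and is additive in `a` and `b` (`D_add_dir`,
  `D_comm`), so it vanishes: `q` is affine, `q 0 = 0` and `q (e i) = 0`, so `q = 0`
  (`Aff.exists_linear`). Hence `f ∈ RM 2 n`.
* `card_RM_one`: `RM 1 n` has `2 ^ (n + 1)` elements: the map `(c, l) ↦ (x ↦ c + ∑ i, l i * x i)` from
  `ZMod 2 × (Fin n → ZMod 2)` is a bijection onto `RM 1 n` (injective: evaluate at `0` and `e i`).
-/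

set_option autoImplicit false
set_option linter.unusedSectionVars false

namespace Pool.Agent.Krd

/-- The Reed-Muller code `RM(r,n)`: Boolean functions of `n` variables of degree at most `r`. -/
def RM (r n : ℕ) : Submodule (ZMod 2) ((Fin n → ZMod 2) → ZMod 2) :=
  Submodule.span (ZMod 2) {f | ∃ S : Finset (Fin n), S.card ≤ r ∧ f = fun x => ∏ i ∈ S, x i}

private theorem mono_mem {r n : ℕ} (S : Finset (Fin n)) (h : S.card ≤ r) :
    (fun x : Fin n → ZMod 2 => ∏ i ∈ S, x i) ∈ RM r n :=
  Submodule.subset_span ⟨S, h, rfl⟩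

private theorem const_mem {r n : ℕ} (c : ZMod 2) : (fun _ : Fin n → ZMod 2 => c) ∈ RM r n := by
  have h := Submodule.smul_mem _ c (mono_mem (r := r) (n := n) ∅ (Nat.zero_le _))
  have h2 : (fun _ : Fin n → ZMod 2 => c) = c • fun x => ∏ i ∈ (∅ : Finset (Fin n)), x i := by
    funext x
    simp
  rw [h2]
  exact h

private theorem lin_mem {r n : ℕ} (hr : 1 ≤ r) (c : ZMod 2) (i : Fin n) :
    (fun x : Fin n → ZMod 2 => c * x i) ∈ RM r n := by
  have h := Submodule.smul_mem _ c (mono_mem (r := r) (n := n) {i} (by simpa using hr))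
  have h2 : (fun x : Fin n → ZMod 2 => c * x i) = c • fun x => ∏ j ∈ ({i} : Finset (Fin n)), x j := by
    funext x
    simp
  rw [h2]
  exact h

private theorem quad_mem {n : ℕ} (c : ZMod 2) {i j : Fin n} (hij : i ≠ j) :
    (fun x : Fin n → ZMod 2 => c * (x i * x j)) ∈ RM 2 n := by
  have h := Submodule.smul_mem _ c (mono_mem (r := 2) (n := n) {i, j} Finset.card_le_two)
  have h2 : (fun x : Fin n → ZMod 2 => c * (x i * x j)) =
      c • fun x => ∏ k ∈ ({i, j} : Finset (Fin n)), x k := by
    funext x
    simp only [Pi.smul_apply, smul_eq_mul, Finset.prod_pair hij]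
  rw [h2]
  exact h

/-- the subspace of the affine functions -/
private def affS (n : ℕ) : Submodule (ZMod 2) ((Fin n → ZMod 2) → ZMod 2) where
  carrier := {f | Aff f}
  zero_mem' := fun a b x => by simp [D]
  add_mem' := fun hf hg => hf.add hg
  smul_mem' := by
    intro c f hf
    rcases z2_cases c with rfl | rfl
    · rw [zero_smul]
      exact fun a b x => by simp [D]
    · rwa [one_smul]

/-- the subspace of the quadratic functions -/
private def quadS (n : ℕ) : Submodule (ZMod 2) ((Fin n → ZMod 2) → ZMod 2) where
  carrier := {f | Quad f}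
  zero_mem' := fun a b c x => by simp [D]
  add_mem' := fun hf hg => hf.add hg
  smul_mem' := by
    intro c f hf
    rcases z2_cases c with rfl | rfl
    · rw [zero_smul]
      exact fun a b c x => by simp [D]
    · rwa [one_smul]

private theorem lin_apply {n : ℕ} (l : (Fin n → ZMod 2) →ₗ[ZMod 2] ZMod 2) (x : Fin n → ZMod 2) :
    l x = ∑ i, l (Pi.single i 1) * x i := by
  have h1 : x = ∑ i, x i • (Pi.single i 1 : Fin n → ZMod 2) := by
    funext j
    rw [Finset.sum_apply]
    simp [Pi.single_apply]
  conv_lhs => rw [h1]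
  rw [map_sum]
  refine Finset.sum_congr rfl fun i _ => ?_
  rw [map_smul, smul_eq_mul, mul_comm]

private theorem const_aff {n : ℕ} (c : ZMod 2) : Aff fun _ : Fin n → ZMod 2 => c := by
  intro a b x
  simp only [D]
  rw [z2_add_self]

private theorem coord_aff {n : ℕ} (i : Fin n) : Aff fun x : Fin n → ZMod 2 => x i := by
  intro a b x
  simp only [D, Pi.add_apply]
  have h1 := z2_add_self (x i)
  have h2 := z2_add_self (x i + b i)
  have h3 := z2_add_self (a i)
  linear_combination h1 + h2 + h3

theorem mem_RM_one {n : ℕ} {f : (Fin n → ZMod 2) → ZMod 2} : f ∈ RM 1 n ↔ Aff f := by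
  constructor
  · intro hf
    have h : RM 1 n ≤ affS n := by
      unfold RM
      rw [Submodule.span_le]
      rintro _ ⟨S, hS, rfl⟩
      change Aff _
      rcases Nat.le_one_iff_eq_zero_or_eq_one.1 hS with h | h
      · rw [Finset.card_eq_zero] at h
        subst h
        simp only [Finset.prod_empty]
        exact const_aff 1
      · obtain ⟨i, rfl⟩ := Finset.card_eq_one.1 h
        simp only [Finset.prod_singleton]
        exact coord_aff i
    exact h hf
  · intro hf
    obtain ⟨l, hl⟩ := hf.exists_linear
    have h : f = (∑ i, fun x : Fin n → ZMod 2 => l (Pi.single i 1) * x i) +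
        fun _ => f 0 := by
      funext x
      rw [Pi.add_apply, Finset.sum_apply, ← lin_apply]
      exact hl x
    rw [h]
    exact Submodule.add_mem _ (Submodule.sum_mem _ fun i _ => lin_mem le_rfl _ i) (const_mem _)

private theorem prod_quad {n : ℕ} (i j : Fin n) : Quad fun x : Fin n → ZMod 2 => x i * x j := by
  intro a b c x
  have h1 : D c (fun x : Fin n → ZMod 2 => x i * x j) =
      fun x => c i * x j + x i * c j + c i * c j := by
    funext x
    simp only [D, Pi.add_apply]
    have := z2_add_self (x i * x j)
    linear_combination this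
  have h2 : D b (fun x : Fin n → ZMod 2 => c i * x j + x i * c j + c i * c j) =
      fun _ => c i * b j + b i * c j := by
    funext x
    simp only [D, Pi.add_apply]
    have h3 := z2_add_self (c i * x j + x i * c j + c i * c j)
    linear_combination h3
  rw [h1, h2]
  simp only [D]
  exact z2_add_self _

theorem mem_RM_two {n : ℕ} {f : (Fin n → ZMod 2) → ZMod 2} : f ∈ RM 2 n ↔ Quad f := by
  constructor
  · intro hf
    have h : RM 2 n ≤ quadS n := by
      rw [RM, Submodule.span_le]
      rintro _ ⟨S, hS, rfl⟩
      change Quad _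
      by_cases h1 : S.card ≤ 1
      · exact (mem_RM_one.1 (mono_mem S h1)).quad
      · obtain ⟨i, j, hij, rfl⟩ := Finset.card_eq_two.1 (show S.card = 2 by omega)
        simp only [Finset.prod_pair hij]
        exact prod_quad i j
    exact h hf
  · intro hf
    have key : ∀ s : Finset (Fin n),
        (fun x : Fin n → ZMod 2 => f (∑ i ∈ s, x i • (Pi.single i 1 : Fin n → ZMod 2))) ∈
          RM 2 n := by
      intro s
      induction s using Finset.induction_on with
      | empty =>
        simp only [Finset.sum_empty]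
        exact const_mem _
      | insert i s hi ih =>
        obtain ⟨l, hl⟩ := (hf.aff_D (Pi.single i 1 : Fin n → ZMod 2)).exists_linear
        have h1 : (fun x : Fin n → ZMod 2 =>
            f (∑ j ∈ insert i s, x j • (Pi.single j 1 : Fin n → ZMod 2))) =
            (fun x : Fin n → ZMod 2 => f (∑ j ∈ s, x j • (Pi.single j 1 : Fin n → ZMod 2))) +
            (fun x : Fin n → ZMod 2 => D (Pi.single i 1 : Fin n → ZMod 2) f 0 * x i) +
            ∑ j ∈ s, fun x : Fin n → ZMod 2 => l (Pi.single j 1) * (x i * x j) := by
          funext x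
          rw [Pi.add_apply, Pi.add_apply, Finset.sum_apply, Finset.sum_insert hi]
          set y := ∑ j ∈ s, x j • (Pi.single j 1 : Fin n → ZMod 2) with hy
          have h2 : l y = ∑ j ∈ s, l (Pi.single j 1) * x j := by
            rw [hy, map_sum]
            refine Finset.sum_congr rfl fun j _ => ?_
            rw [map_smul, smul_eq_mul, mul_comm]
          rcases z2_cases (x i) with h3 | h3
          · rw [h3]
            simp
          · rw [h3, one_smul, add_comm, shift_eq (Pi.single i 1) f y, hl y, h2, mul_one]
            simp only [one_mul]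
            ring
        rw [h1]
        refine Submodule.add_mem _ (Submodule.add_mem _ ih (lin_mem (by norm_num) _ i))
          (Submodule.sum_mem _ fun j hj => quad_mem _ ?_)
        rintro rfl
        exact hi hj
    have h := key Finset.univ
    have h2 : (fun x : Fin n → ZMod 2 =>
        f (∑ i, x i • (Pi.single i 1 : Fin n → ZMod 2))) = f := by
      funext x
      congr 1
      funext j
      rw [Finset.sum_apply]
      simp [Pi.single_apply]
    rwa [h2] at h

theorem card_RM_one (n : ℕ) : Nat.card (RM 1 n) = 2 ^ (n + 1) := by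
  have hmem : ∀ p : ZMod 2 × (Fin n → ZMod 2),
      (fun x : Fin n → ZMod 2 => p.1 + ∑ i, p.2 i * x i) ∈ RM 1 n := by
    intro p
    have h : (fun x : Fin n → ZMod 2 => p.1 + ∑ i, p.2 i * x i) =
        (fun _ => p.1) + ∑ i, fun x : Fin n → ZMod 2 => p.2 i * x i := by
      funext x
      rw [Pi.add_apply, Finset.sum_apply]
    rw [h]
    exact Submodule.add_mem _ (const_mem _) (Submodule.sum_mem _ fun i _ => lin_mem le_rfl _ i)
  have hbij : Function.Bijective fun p : ZMod 2 × (Fin n → ZMod 2) =>
      (⟨fun x => p.1 + ∑ i, p.2 i * x i, hmem p⟩ : RM 1 n) := by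
    constructor
    · intro p q hpq
      have h : ∀ x : Fin n → ZMod 2, p.1 + ∑ i, p.2 i * x i = q.1 + ∑ i, q.2 i * x i :=
        fun x => congrFun (congrArg Subtype.val hpq) x
      have h0 : p.1 = q.1 := by simpa using h 0
      refine Prod.ext h0 (funext fun i => ?_)
      have h1 := h (Pi.single i 1)
      rw [h0] at h1
      have h2 := add_left_cancel h1
      simpa [Pi.single_apply] using h2
    · rintro ⟨f, hf⟩
      obtain ⟨l, hl⟩ := (mem_RM_one.1 hf).exists_linear
      refine ⟨(f 0, fun i => l (Pi.single i 1)), Subtype.ext (funext fun x => ?_)⟩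
      change f 0 + ∑ i, l (Pi.single i 1) * x i = f x
      rw [← lin_apply, hl x, add_comm]
  rw [← Nat.card_congr (Equiv.ofBijective _ hbij), Nat.card_prod, Nat.card_zmod,
    Nat.card_fun, Nat.card_zmod, Nat.card_fin, pow_succ, mul_comm]

end Pool.Agent.Krd
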