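import Pool.Agent.Krd.Bil

/-!
# Krd KR21: quadratic functions which agree with a Kerdock set outside a small set

`E` is a set with `4 * card E < card V`; all `g i + g j` (`i ≠ j`) are bent; the functions `q i` are
`Quad` and `g i x + g o x = q i x` for all `x ∉ E`.

* `exists_ne`: for `a ≠ 0`, `i ≠ j` there are `b, x` with `D b (D a (q i + q j)) x ≠ 0`. Proof.
  Otherwise `D a (q i + q j)` is constant, `= c`. For `x ∉ E`, `x + a ∉ E`:
  `D a (g i + g j) x = D a (q i + q j) x = c` (`g i + g j = (g i + g o) + (g j + g o)`). At most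
  `2 * card E < card V / 2` points `x` are excluded, so `D a (g i + g j)` takes the value `c` more
than
  `card V / 2` times, contradiction to `Bent`.
* `sum_sq`: for `a ≠ 0`, and every `ψ : I → ℤ`: with
  `T b = ∑ i, ψ i * sg (D b (D a (q i)) 0)` we have `∑ b, T b ^ 2 = card V * ∑ i, ψ i ^ 2`. Proof.
  `T b ^ 2 = ∑ i j, ψ i * ψ j * sg (D b (D a (q i + q j)) 0)`; for `i ≠ j` the function
  `b ↦ D b (D a (q i + q j)) 0` is a nonzero linear functional (`exists_bil` with `U = ⊤`,
  `quad_iff_rad_eq_top`, and the first item; the second derivatives of a `Quad` function do not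
depend
  on the point), so its `sg` sums to `0` over `b ∈ V`; for `i = j` the sum is `card V`.
-/

set_option autoImplicit false
set_option linter.unusedSectionVars false

namespace Pool.Agent.Krd

variable {V : Type*} [AddCommGroup V] [Module (ZMod 2) V] [Fintype V]
variable {I : Type*} [Fintype I]

private theorem sg_ge (t : ZMod 2) : -1 ≤ sg t := by
  revert t; decide

private theorem sg_sq_one (t : ZMod 2) : sg (t + t) = 1 := by
  revert t; decide

private theorem z2_sub {p r o s t : ZMod 2} (h1 : p + o = s) (h2 : r + o = t) :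
    p + r = s + t := by
  rw [← h1, ← h2]
  have := z2_add_self o
  linear_combination -this

private theorem bad_card [DecidableEq V] (E : Finset V) (a : V) :
    (Finset.univ.filter (fun x : V => x ∈ E ∨ x + a ∈ E)).card ≤ 2 * E.card := by
  have h : Finset.univ.filter (fun x : V => x ∈ E ∨ x + a ∈ E) ⊆ E ∪ E.image (fun x => x + a) := by
    intro x hx
    rw [Finset.mem_filter] at hx
    rcases hx.2 with h | h
    · exact Finset.mem_union_left _ h
    · refine Finset.mem_union_right _ (Finset.mem_image.2 ⟨x + a, h, ?_⟩)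
      rw [add_assoc, add_self' a, add_zero]
  calc _ ≤ (E ∪ E.image (fun x => x + a)).card := Finset.card_le_card h
    _ ≤ E.card + (E.image (fun x => x + a)).card := Finset.card_union_le _ _
    _ ≤ E.card + E.card := Nat.add_le_add_left Finset.card_image_le _
    _ = 2 * E.card := by ring

theorem exists_ne (g : I → V → ZMod 2) (hb : ∀ i j, i ≠ j → Bent (g i + g j)) (o : I)
    (E : Finset V) (hE : 4 * E.card < Fintype.card V) (q : I → V → ZMod 2) (hq : ∀ i, Quad (q i))
    (hg : ∀ i, ∀ x ∉ E, g i x + g o x = q i x) {a : V} (ha : a ≠ 0) {i j : I} (hij : i ≠ j) :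
    ∃ b x, D b (D a (q i + q j)) x ≠ 0 := by
  classical
  by_contra hcon
  have hcon' : ∀ b x, D b (D a (q i + q j)) x = 0 := by
    intro b x
    by_contra h
    exact hcon ⟨b, x, h⟩
  have hc : ∀ x, D a (q i + q j) x = D a (q i + q j) 0 := by
    intro x
    have h := hcon' x 0
    rw [D_apply, zero_add] at h
    have h2 := z2_add_self (D a (q i + q j) x)
    linear_combination h2 - h
  set c := D a (q i + q j) 0 with hcdef
  have hgood : ∀ x, x ∉ E → x + a ∉ E → D a (g i + g j) x = c := by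
    intro x h1 h2
    rw [← hc x, D_apply, D_apply, Pi.add_apply, Pi.add_apply, Pi.add_apply, Pi.add_apply,
      z2_sub (hg i x h1) (hg j x h1), z2_sub (hg i _ h2) (hg j _ h2)]
  set B := Finset.univ.filter (fun x : V => x ∈ E ∨ x + a ∈ E) with hB
  have hBc : B.card ≤ 2 * E.card := bad_card E a
  have h0 : ∑ x, sg (c + D a (g i + g j) x) = 0 := by
    simp_rw [sg_add]
    rw [← Finset.mul_sum, hb i j hij a ha, mul_zero]
  have h1 : ∑ x : V, (if x ∈ B then (-1 : ℤ) else 1) ≤ ∑ x, sg (c + D a (g i + g j) x) := by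
    refine Finset.sum_le_sum fun x _ => ?_
    by_cases hx : x ∈ B
    · rw [if_pos hx]
      exact sg_ge _
    · rw [if_neg hx]
      have hx' : ¬ (x ∈ E ∨ x + a ∈ E) := by
        intro h
        exact hx (by rw [hB, Finset.mem_filter]; exact ⟨Finset.mem_univ _, h⟩)
      rw [hgood x (fun h => hx' (Or.inl h)) (fun h => hx' (Or.inr h)), sg_sq_one]
  have h2 : ∑ x : V, (if x ∈ B then (-1 : ℤ) else 1) = Fintype.card V - 2 * B.card := by
    have h3 : ∀ x : V, (if x ∈ B then (-1 : ℤ) else 1) = 1 - 2 * (if x ∈ B then 1 else 0) := by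
      intro x
      split_ifs <;> norm_num
    simp_rw [h3]
    rw [Finset.sum_sub_distrib, ← Finset.mul_sum, Finset.sum_ite_mem, Finset.univ_inter]
    simp
  rw [h0, h2] at h1
  have h4 : ((4 * E.card : ℕ) : ℤ) < Fintype.card V := by exact_mod_cast hE
  have h5 : ((B.card : ℕ) : ℤ) ≤ ((2 * E.card : ℕ) : ℤ) := by exact_mod_cast hBc
  push_cast at h4 h5
  linarith

private theorem sum_sg_linear (M : V →ₗ[ZMod 2] ZMod 2) {v : V} (hv : M v ≠ 0) :
    ∑ b, sg (M b) = 0 := by
  have h1 : M v = 1 := (z2_cases (M v)).resolve_left hv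
  have h2 : ∑ b, sg (M (b + v)) = ∑ b, sg (M b) :=
    Fintype.sum_equiv (Equiv.addRight v) _ _ fun b => rfl
  simp_rw [map_add, sg_add, h1, sg_one, mul_neg, mul_one] at h2
  rw [Finset.sum_neg_distrib] at h2
  linarith

theorem sum_sq (g : I → V → ZMod 2) (hb : ∀ i j, i ≠ j → Bent (g i + g j)) (o : I)
    (E : Finset V) (hE : 4 * E.card < Fintype.card V) (q : I → V → ZMod 2) (hq : ∀ i, Quad (q i))
    (hg : ∀ i, ∀ x ∉ E, g i x + g o x = q i x) {a : V} (ha : a ≠ 0) (ψ : I → ℤ) :
    ∑ b, (∑ i, ψ i * sg (D b (D a (q i)) 0)) ^ 2 = Fintype.card V * ∑ i, ψ i ^ 2 := by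
  classical
  have hL : ∀ i, ∃ L : V →ₗ[ZMod 2] ZMod 2, ∀ b x, D b (D a (q i)) x = L b := by
    intro i
    obtain ⟨B, hB⟩ := exists_bil (f := q i) (U := ⊤) (quad_iff_rad_eq_top.1 (hq i)).ge
    exact ⟨B ⟨a, Submodule.mem_top⟩, fun b x => hB ⟨a, Submodule.mem_top⟩ b x⟩
  choose L hL using hL
  have hcross : ∀ i j, i ≠ j → ∑ b, sg (L i b) * sg (L j b) = 0 := by
    intro i j hij
    obtain ⟨v, x, hv⟩ := exists_ne g hb o E hE q hq hg ha hij
    rw [D_add, D_add, Pi.add_apply, hL, hL] at hv
    have := sum_sg_linear (L i + L j) (v := v) hv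
    simp_rw [LinearMap.add_apply, sg_add] at this
    exact this
  have hdiag : ∀ i, ∑ b, sg (L i b) * sg (L i b) = Fintype.card V := by
    intro i
    simp_rw [sg_mul_self]
    simp
  have h1 : ∀ b, (∑ i, ψ i * sg (D b (D a (q i)) 0)) ^ 2
      = ∑ i, ∑ j, ψ i * ψ j * (sg (L i b) * sg (L j b)) := by
    intro b
    rw [sq, Finset.sum_mul_sum]
    refine Finset.sum_congr rfl fun i _ => Finset.sum_congr rfl fun j _ => ?_
    rw [hL, hL]
    ring
  simp_rw [h1]
  rw [Finset.sum_comm, Finset.mul_sum]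
  refine Finset.sum_congr rfl fun i _ => ?_
  rw [Finset.sum_comm]
  simp_rw [← Finset.mul_sum]
  rw [Finset.sum_eq_single i]
  · rw [hdiag]
    ring
  · intro j _ hji
    rw [hcross i j (Ne.symm hji), mul_zero]
  · intro h
    exact absurd (Finset.mem_univ i) h

end Pool.Agent.Krd
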