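import Pool.Agent.Krd.Plane
import Pool.Agent.Krd.RobA

/-!
# Krd KR22: a Kerdock set cannot be changed on less than a quarter of the points

`finrank V = 2 * m`, `m ≥ 1`, `card I = 2 ^ (2 * m - 1) = M` (so `card V = 2 * M`), all `g i + g j`
(`i ≠ j`) bent, `4 * card E < card V`, the functions `q i` are `Quad` and `g i x + g o x = q i x` for
`x ∉ E`. Then all `g i + g j` are `Quad`.

Proof. Put `h i x = g i x + g o x + q i x`, zero for `x ∉ E`. Claim: `h i x = h j x` for all `i, j, x`.
Clear for `x ∉ E`; let `x ∈ E`, `ψ i = sg (h i x)`, `E' = {a | x + a ∈ E}` (`0 ∈ E'`,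
`card E' = card E`), `T a b = ∑ i, ψ i * sg (D b (D a (q i)) 0)`. `T a b = T b a` (`D_comm`),
`T a (a + b) = T a b` (`D_add_dir`, `D_self`; second derivatives of `q i` do not depend on the point),
`T a 0 = T a a = T₀ := ∑ i, ψ i`. Put `s = 2 * M ^ 2 - 2 * T₀ ^ 2 ≥ 0` (`T₀ ^ 2 ≤ M ^ 2` because
`ψ i = 1` or `-1`). By `sum_sq`, for every `a ≠ 0`:
(1) `∑ over b ∉ {0, a} of T a b ^ 2 = s`.
If `a ≠ 0`, `b ≠ 0`, `a ≠ b` and `x + a, x + b, x + a + b ∉ E` then `T a b = 0`: by `plane_sum` and
`D a (D b (g i)) x = D a (D b (g o)) x + D a (D b (q i)) x + h i x` (because `g i = g o + q i + h i` and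
`h i` vanishes at the three other points of the plane), so
`0 = sg (D a (D b (g o)) x) * T a b`.
Hence for `a ∉ E'`: (2) `s = ∑ over b ∉ {0, a} with b ∈ E' or a + b ∈ E' of T a b ^ 2
≤ 2 * ∑ over b ∈ E', b ≠ 0 of T a b ^ 2` (use `T a (a + b) = T a b`; note `a ∉ E'`, so `b = a` is not
in `E'`).
Sum (2) over all `a ∉ E'`: `(card V - card E) * s ≤ 2 * ∑ over b ∈ E', b ≠ 0, ∑ over a ∉ E' of
T b a ^ 2 ≤ 2 * (card E - 1) * s` by (1) (for `b` in the role of `a`; `a ∉ E'` implies `a ≠ 0`,
`a ≠ b`). If `s > 0` then `card V - card E ≤ 2 * card E - 2`, so `card V + 2 ≤ 3 * card E`,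
contradiction to `4 * card E < card V`. So `s = 0`, `T₀ ^ 2 = M ^ 2`, all `ψ i` are equal (`ψ i = ± 1`,
`M` of them). This is the claim.
So `g i + g j = (g i + g o) + (g j + g o) = q i + h i + q j + h j = q i + q j`, which is `Quad`.
-/

set_option autoImplicit false
set_option linter.unusedSectionVars false

namespace Pool.Agent.Krd

variable {V : Type*} [AddCommGroup V] [Module (ZMod 2) V] [Fintype V]
variable {I : Type*} [Fintype I]

private theorem D2_point {f : V → ZMod 2} (hf : Quad f) (a b x : V) :
    D a (D b f) x = D b (D a f) 0 := by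
  have h := hf x a b 0
  rw [D_apply, zero_add] at h
  have h2 := z2_add_self (D a (D b f) x)
  rw [D_comm b a]
  linear_combination h2 - h

private theorem sg_inj {s t : ZMod 2} (h : sg s = sg t) : s = t := by
  revert s t; decide

private theorem sg_ne_zero (s : ZMod 2) : sg s ≠ 0 := by
  revert s; decide

private theorem sg_sq (s : ZMod 2) : sg s ^ 2 = 1 := by
  revert s; decide

/-- the numerical identity behind `s ≥ 0` and behind the case `s = 0`. -/
private theorem sum_diff_sq (ψ : I → ℤ) (hψ : ∀ i, ψ i ^ 2 = 1) :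
    ∑ i, ∑ j, (ψ i - ψ j) ^ 2 = 2 * (Fintype.card I : ℤ) ^ 2 - 2 * (∑ i, ψ i) ^ 2 := by
  have h1 : ∀ i, ∑ j, (ψ i - ψ j) ^ 2 = 2 * (Fintype.card I : ℤ) - 2 * (ψ i * ∑ j, ψ j) := by
    intro i
    have h2 : ∀ j, (ψ i - ψ j) ^ 2 = 2 - 2 * (ψ i * ψ j) := by
      intro j
      linear_combination hψ i + hψ j
    simp only [h2, Finset.sum_sub_distrib, Finset.sum_const, Finset.card_univ, nsmul_eq_mul,
      ← Finset.mul_sum]
    ring
  simp only [h1, Finset.sum_sub_distrib, Finset.sum_const, Finset.card_univ, nsmul_eq_mul,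
    ← Finset.mul_sum, ← Finset.sum_mul]
  ring

/-- the counting argument, for an abstract symmetric function `T`. -/
private theorem count_arg [DecidableEq V] (T : V → V → ℤ) (s : ℤ) (F : Finset V) (h0 : (0 : V) ∈ F)
    (hF : 4 * F.card < Fintype.card V) (hsym : ∀ a b, T a b = T b a)
    (hadd : ∀ a b, T a (a + b) = T a b)
    (h1 : ∀ a, a ≠ 0 → ∑ b ∈ Finset.univ.filter (fun b => b ≠ 0 ∧ b ≠ a), T a b ^ 2 = s)
    (h2 : ∀ a b, a ∉ F → b ≠ 0 → a ≠ b → b ∉ F → a + b ∉ F → T a b = 0) : s = 0 := by
  have hone : ∀ a, a ∉ F → s ≤ 2 * ∑ b ∈ F.erase 0, T a b ^ 2 := by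
    intro a ha
    have ha0 : a ≠ 0 := fun h => ha (h ▸ h0)
    have h3 : ∑ b ∈ Finset.univ.filter (fun b => b ≠ 0 ∧ b ≠ a), T a b ^ 2 ≤
        ∑ b, ((if b ∈ F.erase 0 then T a b ^ 2 else 0) +
          (if a + b ∈ F.erase 0 then T a b ^ 2 else 0)) := by
      calc ∑ b ∈ Finset.univ.filter (fun b => b ≠ 0 ∧ b ≠ a), T a b ^ 2 ≤
          ∑ b ∈ Finset.univ.filter (fun b => b ≠ 0 ∧ b ≠ a),
            ((if b ∈ F.erase 0 then T a b ^ 2 else 0) +
            (if a + b ∈ F.erase 0 then T a b ^ 2 else 0)) := by
            apply Finset.sum_le_sum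
            intro b hb
            rw [Finset.mem_filter] at hb
            obtain ⟨-, hb0, hba⟩ := hb
            have hab0 : a + b ≠ 0 := by
              intro h
              apply hba
              have h4 := add_self' b
              have h5 : a + b = b + b := by rw [h, h4]
              exact (add_right_cancel h5).symm
            by_cases hbF : b ∈ F
            · rw [if_pos (Finset.mem_erase.2 ⟨hb0, hbF⟩)]
              have : (0 : ℤ) ≤ if a + b ∈ F.erase 0 then T a b ^ 2 else 0 := by
                split_ifs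
                · positivity
                · exact le_rfl
              linarith
            · by_cases habF : a + b ∈ F
              · rw [if_pos (Finset.mem_erase.2 ⟨hab0, habF⟩)]
                have : (0 : ℤ) ≤ if b ∈ F.erase 0 then T a b ^ 2 else 0 := by
                  split_ifs
                  · positivity
                  · exact le_rfl
                linarith
              · rw [h2 a b ha hb0 (Ne.symm hba) hbF habF]
                simp
        _ ≤ _ := by
            apply Finset.sum_le_sum_of_subset_of_nonneg (Finset.filter_subset _ _)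
            intro b _ _
            apply add_nonneg
            · split_ifs
              · positivity
              · exact le_rfl
            · split_ifs
              · positivity
              · exact le_rfl
    rw [h1 a ha0, Finset.sum_add_distrib] at h3
    have h4 : ∑ b, (if b ∈ F.erase 0 then T a b ^ 2 else 0) = ∑ b ∈ F.erase 0, T a b ^ 2 := by
      rw [← Finset.sum_filter]
      congr 1
      ext b
      simp
    have h5 : ∑ b, (if a + b ∈ F.erase 0 then T a b ^ 2 else 0) =
        ∑ b, (if b ∈ F.erase 0 then T a b ^ 2 else 0) := by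
      rw [← Equiv.sum_comp (Equiv.addLeft a)
        (fun b => if b ∈ F.erase 0 then T a b ^ 2 else 0)]
      apply Finset.sum_congr rfl
      intro b _
      simp only [Equiv.coe_addLeft, hadd]
    rw [h5, h4] at h3
    linarith
  have hsum : ∑ a ∈ Fᶜ, s ≤ ∑ a ∈ Fᶜ, 2 * ∑ b ∈ F.erase 0, T a b ^ 2 :=
    Finset.sum_le_sum fun a ha => hone a (Finset.mem_compl.1 ha)
  rw [← Finset.mul_sum, Finset.sum_comm] at hsum
  have htwo : ∀ b ∈ F.erase 0, ∑ a ∈ Fᶜ, T a b ^ 2 ≤ s := by
    intro b hb
    rw [Finset.mem_erase] at hb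
    rw [← h1 b hb.1]
    have h3 : ∑ a ∈ Fᶜ, T a b ^ 2 = ∑ a ∈ Fᶜ, T b a ^ 2 :=
      Finset.sum_congr rfl fun a _ => by rw [hsym]
    rw [h3]
    apply Finset.sum_le_sum_of_subset_of_nonneg
    · intro a ha
      rw [Finset.mem_compl] at ha
      rw [Finset.mem_filter]
      exact ⟨Finset.mem_univ _, fun h => ha (h ▸ h0), fun h => ha (h ▸ hb.2)⟩
    · intro a _ _
      positivity
  have hthree : ∑ b ∈ F.erase 0, ∑ a ∈ Fᶜ, T a b ^ 2 ≤ ∑ b ∈ F.erase 0, s :=
    Finset.sum_le_sum htwo
  rw [Finset.sum_const, Finset.card_erase_of_mem h0, nsmul_eq_mul] at hthree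
  rw [Finset.sum_const, Finset.card_compl, nsmul_eq_mul] at hsum
  have hpos : 1 ≤ F.card := Finset.card_pos.2 ⟨0, h0⟩
  have hs0 : 0 ≤ s := by
    obtain ⟨a, ha⟩ : ∃ a, a ∉ F := by
      by_contra hcon
      push Not at hcon
      have : F = Finset.univ := Finset.eq_univ_iff_forall.2 hcon
      rw [this, Finset.card_univ] at hF
      omega
    rw [← h1 a (fun h => ha (h ▸ h0))]
    apply Finset.sum_nonneg
    intro b _
    positivity
  by_contra hs
  have hs1 : 0 < s := lt_of_le_of_ne hs0 (Ne.symm hs)
  have h6 : ((Fintype.card V - F.card : ℕ) : ℤ) * s ≤ (2 * ((F.card - 1 : ℕ) : ℤ)) * s := by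
    linarith
  have h7 := le_of_mul_le_mul_right h6 hs1
  have h8 : F.card ≤ Fintype.card V := by omega
  omega

theorem quad_of_small {m : ℕ} (hm : 1 ≤ m) (hV : Module.finrank (ZMod 2) V = 2 * m)
    (hI : Fintype.card I = 2 ^ (2 * m - 1)) (g : I → V → ZMod 2)
    (hb : ∀ i j, i ≠ j → Bent (g i + g j)) (o : I) (E : Finset V)
    (hE : 4 * E.card < Fintype.card V) (q : I → V → ZMod 2) (hq : ∀ i, Quad (q i))
    (hg : ∀ i, ∀ x ∉ E, g i x + g o x = q i x) (i j : I) : Quad (g i + g j) := by
  classical
  have key : ∀ x, ∀ i j, g i x + g o x + q i x = g j x + g o x + q j x := by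
    intro x
    by_cases hx : x ∉ E
    · intro i j
      rw [hg i x hx, hg j x hx, z2_add_self, z2_add_self]
    push Not at hx
    set h : I → ZMod 2 := fun i => g i x + g o x + q i x with hh
    set T : V → V → ℤ := fun a b => ∑ i, sg (h i) * sg (D b (D a (q i)) 0) with hT
    set F : Finset V := Finset.univ.filter (fun a => x + a ∈ E) with hFdef
    have hF0 : (0 : V) ∈ F := by
      rw [hFdef, Finset.mem_filter, add_zero]
      exact ⟨Finset.mem_univ _, hx⟩
    have hFc : F.card = E.card := by
      apply Finset.card_bij (fun a _ => x + a)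
      · intro a ha
        rw [hFdef, Finset.mem_filter] at ha
        exact ha.2
      · intro a _ b _ hab
        exact add_left_cancel hab
      · intro y hy
        refine ⟨x + y, ?_, ?_⟩
        · rw [hFdef, Finset.mem_filter, ← add_assoc, add_self', zero_add]
          exact ⟨Finset.mem_univ _, hy⟩
        · rw [← add_assoc, add_self', zero_add]
    have hcV : Fintype.card V = 2 * 2 ^ (2 * m - 1) := by
      rw [Module.card_eq_pow_finrank (K := ZMod 2) (V := V), ZMod.card, hV, ← pow_succ']
      congr 1
      omega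
    have hTa0 : ∀ a, T a 0 = ∑ i, sg (h i) := by
      intro a
      simp only [hT]
      apply Finset.sum_congr rfl
      intro i _
      rw [D_zero, sg_zero, mul_one]
    have hTaa : ∀ a, T a a = ∑ i, sg (h i) := by
      intro a
      simp only [hT]
      apply Finset.sum_congr rfl
      intro i _
      rw [D_self, sg_zero, mul_one]
    have hs := count_arg T (2 * (Fintype.card I : ℤ) ^ 2 - 2 * (∑ i, sg (h i)) ^ 2) F hF0
      (by rw [hFc]; exact hE)
      (by
        intro a b
        simp only [hT]
        apply Finset.sum_congr rfl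
        intro i _
        rw [D_comm a b])
      (by
        intro a b
        simp only [hT]
        apply Finset.sum_congr rfl
        intro i _
        rw [D_add_dir, D_self, zero_add])
      (by
        intro a ha
        have h1 := sum_sq g hb o E hE q hq hg ha (fun i => sg (h i))
        have h2 : ∑ i, sg (h i) ^ 2 = (Fintype.card I : ℤ) := by
          simp only [sg_sq, Finset.sum_const, Finset.card_univ, nsmul_eq_mul, mul_one]
        rw [h2, hcV, ← hI] at h1
        push_cast at h1
        have h3 : ∑ b, T a b ^ 2 =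
            T a 0 ^ 2 + (T a a ^ 2 +
              ∑ b ∈ Finset.univ.filter (fun b => b ≠ 0 ∧ b ≠ a), T a b ^ 2) := by
          rw [← Finset.add_sum_erase Finset.univ _ (Finset.mem_univ (0 : V))]
          rw [← Finset.add_sum_erase (Finset.univ.erase (0 : V)) _
            (Finset.mem_erase.2 ⟨ha, Finset.mem_univ a⟩)]
          congr 3
          ext b
          simp only [Finset.mem_erase, Finset.mem_univ, Finset.mem_filter, true_and, and_true]
          exact and_comm
        have h4 : ∑ b, T a b ^ 2 = 2 * (Fintype.card I : ℤ) * (Fintype.card I : ℤ) := h1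
        rw [h3, hTa0, hTaa] at h4
        linarith)
      (by
        intro a b ha hb0 hab hbF habF
        have ha0 : a ≠ 0 := fun h => ha (h ▸ hF0)
        have hxa : x + a ∉ E := fun h => ha (by
          rw [hFdef, Finset.mem_filter]; exact ⟨Finset.mem_univ _, h⟩)
        have hxb : x + b ∉ E := fun h => hbF (by
          rw [hFdef, Finset.mem_filter]; exact ⟨Finset.mem_univ _, h⟩)
        have hxab : x + a + b ∉ E := fun h => habF (by
          rw [hFdef, Finset.mem_filter, ← add_assoc]; exact ⟨Finset.mem_univ _, h⟩)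
        have h1 := plane_sum hm hV hI g hb ha0 hb0 hab x
        have h2 : ∀ i, sg (D a (D b (g i)) x) =
            sg (D a (D b (g o)) x) * (sg (h i) * sg (D b (D a (q i)) 0)) := by
          intro i
          rw [← D2_point (hq i) a b x, ← sg_add, ← sg_add]
          congr 1
          have e1 := hg i _ hxa
          have e2 := hg i _ hxb
          have e3 := hg i _ hxab
          have e4 := z2_add_self (g o x)
          have e5 := z2_add_self (q i x)
          have e6 := z2_add_self (g o (x + a))
          have e7 := z2_add_self (g o (x + b))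
          have e8 := z2_add_self (g o (x + a + b))
          have e9 : x + a + b = x + a + b := rfl
          change (g i x + g i (x + b)) + (g i (x + a) + g i (x + a + b)) =
            ((g o x + g o (x + b)) + (g o (x + a) + g o (x + a + b))) +
            ((g i x + g o x + q i x) +
              ((q i x + q i (x + b)) + (q i (x + a) + q i (x + a + b))))
          linear_combination e1 + e2 + e3 - e4 - e5 - e6 - e7 - e8
        rw [Finset.sum_congr rfl (fun i _ => h2 i), ← Finset.mul_sum] at h1
        rcases mul_eq_zero.1 h1 with h3 | h3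
        · exact absurd h3 (sg_ne_zero _)
        · exact h3)
    rw [← sum_diff_sq (fun i => sg (h i)) (fun i => sg_sq _)] at hs
    intro i j
    have h1 : ∑ j, (sg (h i) - sg (h j)) ^ 2 = 0 :=
      (Finset.sum_eq_zero_iff_of_nonneg
        (fun i _ => Finset.sum_nonneg fun j _ => sq_nonneg _)).1 hs i (Finset.mem_univ _)
    have h2 : (sg (h i) - sg (h j)) ^ 2 = 0 :=
      (Finset.sum_eq_zero_iff_of_nonneg (fun j _ => sq_nonneg _)).1 h1 j (Finset.mem_univ _)
    have h3 : sg (h i) = sg (h j) := by
      have := pow_eq_zero_iff (two_ne_zero) |>.1 h2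
      linarith
    exact sg_inj h3
  have hfin : g i + g j = q i + q j := by
    funext x
    have h1 := key x i j
    have e1 := z2_add_self (g j x)
    have e2 := z2_add_self (g o x)
    have e3 := z2_add_self (q i x)
    simp only [Pi.add_apply]
    linear_combination h1 + e1 - e3
  rw [hfin]
  exact (hq i).add (hq j)

end Pool.Agent.Krd
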