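import Mathlib

/-!
# Krd KR27: a subspace of codimension two is the common kernel of two functionals (Mathlib only)

`V` finite dimensional over `ZMod 2`, `W` of codimension two. Take two linearly independent elements of
the dual annihilator of `W` (dimension two, `Subspace.finrank_dualAnnihilator_eq` or the dual of the
quotient `V ⧸ W`, which has dimension two: a basis of the quotient and its coordinate functionals
composed with `mkQ`).
-/

set_option autoImplicit false
set_option linter.unusedSectionVars false

namespace Pool.Agent.Krd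

theorem exists_functionals {V : Type*} [AddCommGroup V] [Module (ZMod 2) V]
    [FiniteDimensional (ZMod 2) V] (W : Submodule (ZMod 2) V)
    (hW : Module.finrank (ZMod 2) V = Module.finrank (ZMod 2) W + 2) :
    ∃ x1 x2 : V →ₗ[ZMod 2] ZMod 2, x1 ≠ 0 ∧ x2 ≠ 0 ∧ x1 ≠ x2 ∧
      ∀ a, a ∈ W ↔ x1 a = 0 ∧ x2 a = 0 := by
  have h1 : Module.finrank (ZMod 2) (V ⧸ W) = 2 := by
    have h2 := W.finrank_quotient_add_finrank
    omega
  let b : Module.Basis (Fin 2) (ZMod 2) (V ⧸ W) := Module.finBasisOfFinrankEq (ZMod 2) (V ⧸ W) h1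
  obtain ⟨v0, h0⟩ := W.mkQ_surjective (b 0)
  obtain ⟨v1, h1⟩ := W.mkQ_surjective (b 1)
  have e00 : ((b.coord 0).comp W.mkQ) v0 = 1 := by
    rw [LinearMap.comp_apply, h0, Module.Basis.coord_apply, Module.Basis.repr_self]
    simp
  have e11 : ((b.coord 1).comp W.mkQ) v1 = 1 := by
    rw [LinearMap.comp_apply, h1, Module.Basis.coord_apply, Module.Basis.repr_self]
    simp
  have e10 : ((b.coord 1).comp W.mkQ) v0 = 0 := by
    rw [LinearMap.comp_apply, h0, Module.Basis.coord_apply, Module.Basis.repr_self]
    simp
  refine ⟨(b.coord 0).comp W.mkQ, (b.coord 1).comp W.mkQ, ?_, ?_, ?_, ?_⟩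
  · intro h
    rw [h] at e00
    exact zero_ne_one e00
  · intro h
    rw [h] at e11
    exact zero_ne_one e11
  · intro h
    rw [h, e10] at e00
    exact zero_ne_one e00
  · intro a
    constructor
    · intro ha
      have h2 : W.mkQ a = 0 := (Submodule.Quotient.mk_eq_zero W).2 ha
      rw [LinearMap.comp_apply, LinearMap.comp_apply, h2, map_zero, map_zero]
      exact ⟨rfl, rfl⟩
    · rintro ⟨ha0, ha1⟩
      refine (Submodule.Quotient.mk_eq_zero W).1 ?_
      change W.mkQ a = 0
      refine b.ext_elem fun i => ?_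
      rw [map_zero, Finsupp.zero_apply]
      fin_cases i
      · exact ha0
      · exact ha1

end Pool.Agent.Krd
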