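import Pool.Agent.Krd.TTwoA
import Pool.Agent.Krd.QFour

/-!
# Krd KR10: closed under translations, codimension at most four (theorem T2)

`finrank V = 2 * m`, `m ≥ 2`, `card I = 2 ^ (2 * m - 1) = M`, all `g i + g j` (`i ≠ j`) bent, `U` of
codimension at most 4 with `U ≤ rad (g i + g j)` for all `i, j`. Then all `g i + g j` are `Quad`.

Proof. We may replace `U` by a smaller subspace, so `finrank V = finrank U + 4` (possible as
`finrank V = 2 * m ≥ 4`). Put `T = 2 ^ (2 * m - 4)`, so `M = 8 * T`. Fix `i`. For `j ≠ i` let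
`R_j = U ⊓ orth (g i + g j) U`. Its dimension is even (`even_finrank`), at most 4 (`finrank_orth`); if
`g i + g j` is not `Quad` it is not `0` (`inf_ne_bot`), so `card R_j ≥ 4`; if moreover
`orth (g i + g j) U ≤ U` then `card R_j = 16`. `sum_card` with `s = 4` gives
`∑ j ≠ i, card R_j + T + 16 = 24 * T`. Let `N` be the number of `j` with `g i + g j` not `Quad` and
`N₄` the number of those `j ≠ i` with `orth (g i + g j) U ≤ U`. Then
`(8 T - 1 - N) + 4 N ≤ 23 T - 16`, so (1) `N ≤ 5 T - 5`, and `(8 T - 1 - N₄) + 16 N₄ ≤ 23 T - 16`, so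
(2) `N₄ ≤ T - 1`.
Suppose `g i + g j` is not `Quad` for some `i, j`. The relation `Quad (g i + g k)` is an equivalence
relation on `I` (`Quad.add`), all classes have at least `8 T - (5 T - 5) = 3 T + 5` elements by (1), so
there are at most two classes (`3 * (3 T + 5) > 8 T`): the class `P` of `i` and the class `Q` of `j`.
By (2) (for `i`) and `card Q ≥ 3 T + 5 > T - 1` there is `j' ∈ Q` with not
`orth (g i + g j') U ≤ U`. By `exists_rad` there is `e ∈ rad (g i + g j')`, `e ∉ U`. Now
`e ∈ rad (g k + g l)` for all `k, l`: if `k, l` are in one class, `g k + g l` is `Quad` and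
`rad = ⊤`; if `k ∈ P`, `l ∈ Q` then `g k + g l = (g k + g i) + (g i + g j') + (g j' + g l)` and use
`rad_add`. So `U' = U ⊔ span {e}` satisfies the hypotheses of `quad_of_codim_three`
(`finrank U' = finrank U + 1`), and all `g k + g l` are `Quad`, contradiction.
-/

set_option autoImplicit false
set_option linter.unusedSectionVars false

namespace Pool.Agent.Krd

variable {V : Type*} [AddCommGroup V] [Module (ZMod 2) V] [Fintype V]
variable {I : Type*} [Fintype I]

private theorem tb_sub (U : Submodule (ZMod 2) V) (k : ℕ)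
    (hk : k ≤ Module.finrank (ZMod 2) U) : ∃ U' ≤ U, Module.finrank (ZMod 2) U' = k := by
  induction k with
  | zero => exact ⟨⊥, bot_le, finrank_bot _ _⟩
  | succ k ih =>
    obtain ⟨U', hU', h⟩ := ih (by omega)
    have h1 : U' ≠ U := by
      rintro rfl
      omega
    obtain ⟨u, hu, hu'⟩ := SetLike.exists_of_lt (lt_of_le_of_ne hU' h1)
    refine ⟨U' ⊔ Submodule.span (ZMod 2) {u},
      sup_le hU' ((Submodule.span_singleton_le_iff_mem _ _).2 hu), ?_⟩
    rw [Submodule.finrank_sup_span_singleton hu', h]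

private theorem tb_sum [DecidableEq I] (i : I) (c : I → ℕ) (A : Finset I) (hA : i ∉ A) (k : ℕ)
    (h1 : ∀ j, 1 ≤ c j) (h2 : ∀ j ∈ A, 1 + k ≤ c j) :
    Fintype.card I - 1 + k * A.card ≤ ∑ j ∈ Finset.univ.erase i, c j := by
  have hAe : A ⊆ Finset.univ.erase i := fun j hj =>
    Finset.mem_erase.2 ⟨fun h => hA (h ▸ hj), Finset.mem_univ j⟩
  calc Fintype.card I - 1 + k * A.card =
      ∑ j ∈ Finset.univ.erase i, (1 + if j ∈ A then k else 0) := by
        rw [Finset.sum_add_distrib, Finset.sum_ite_mem, Finset.inter_eq_right.2 hAe,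
          Finset.sum_const, Finset.sum_const, Finset.card_erase_of_mem (Finset.mem_univ i),
          Finset.card_univ, smul_eq_mul, smul_eq_mul, mul_one, mul_comm k]
    _ ≤ _ := Finset.sum_le_sum fun j _ => by
        by_cases hj : j ∈ A
        · rw [if_pos hj]
          exact h2 j hj
        · rw [if_neg hj]
          exact h1 j

private theorem tb_card (U : Submodule (ZMod 2) V) :
    Nat.card ↥U = 2 ^ Module.finrank (ZMod 2) U := by
  rw [Module.natCard_eq_pow_finrank (K := ZMod 2), Nat.card_zmod]

private theorem tb_symm {f g : V → ZMod 2} (h : Quad (f + g)) : Quad (g + f) := by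
  rwa [add_comm]

private theorem tb_add (f g h : V → ZMod 2) : (f + g) + (g + h) = f + h := by
  rw [add_assoc, ← add_assoc g g h, fun_add_self, zero_add]

private theorem tb_trans {f g h : V → ZMod 2} (h1 : Quad (f + g)) (h2 : Quad (g + h)) :
    Quad (f + h) := by
  rw [← tb_add f g h]
  exact h1.add h2

private theorem tb_self (f : V → ZMod 2) : Quad (f + f) := by
  intro a b c x
  rw [fun_add_self]
  simp [D]

private theorem tb_main {m : ℕ} (hm : 2 ≤ m) (hV : Module.finrank (ZMod 2) V = 2 * m)
    (hI : Fintype.card I = 2 ^ (2 * m - 1)) (g : I → V → ZMod 2)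
    (hb : ∀ i j, i ≠ j → Bent (g i + g j)) {U : Submodule (ZMod 2) V}
    (hU : ∀ i j, U ≤ rad (g i + g j))
    (hs : Module.finrank (ZMod 2) V = Module.finrank (ZMod 2) U + 4) (i j : I) :
    Quad (g i + g j) := by
  classical
  by_contra hij
  obtain ⟨T, hT⟩ : ∃ T, T = 2 ^ (2 * m - 4) := ⟨_, rfl⟩
  have hT0 : 1 ≤ T := by
    rw [hT]
    exact Nat.one_le_two_pow
  have hM : 2 ^ (2 * m - 1) = 8 * T := by
    rw [hT, show 2 * m - 1 = 3 + (2 * m - 4) by omega, pow_add]
    norm_num
  have hcard : ∀ i j, 1 ≤ Nat.card ↥(U ⊓ orth (g i + g j) U) := fun i j => by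
    rw [tb_card]
    exact Nat.one_le_two_pow
  have hsum : ∀ i, ∑ j ∈ Finset.univ.erase i, Nat.card ↥(U ⊓ orth (g i + g j) U) + T + 16 =
      24 * T := by
    intro i
    have h1 := sum_card (by omega) hV hI g hb hU hs i
    rw [hM, ← hT] at h1
    omega
  have hne : ∀ i j, ¬ Quad (g i + g j) → i ≠ j := by
    rintro i j h rfl
    exact h (tb_self _)
  -- (1)
  have hN : ∀ i, (Finset.univ.filter fun j => ¬ Quad (g i + g j)).card + 5 ≤ 5 * T := by
    intro i
    have h1 := tb_sum i (fun j => Nat.card ↥(U ⊓ orth (g i + g j) U))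
      (Finset.univ.filter fun j => ¬ Quad (g i + g j))
      (fun h => (Finset.mem_filter.1 h).2 (tb_self _)) 3 (hcard i) fun j hj => by
        have h2 := (Finset.mem_filter.1 hj).2
        have h3 := inf_ne_bot (hb i j (hne i j h2)) (hU i j) hs h2
        have h4 : Module.finrank (ZMod 2) ↥(U ⊓ orth (g i + g j) U) ≠ 0 := fun h =>
          h3 (Submodule.finrank_eq_zero.1 h)
        obtain ⟨k, hk⟩ := even_finrank (hU i j)
        rw [tb_card]
        calc 1 + 3 = 2 ^ 2 := by norm_num
          _ ≤ _ := Nat.pow_le_pow_right (by norm_num) (by omega)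
    have h2 := hsum i
    rw [hI, hM] at h1
    omega
  -- (2)
  have hN4 : ∀ i, (Finset.univ.filter fun j => j ≠ i ∧ orth (g i + g j) U ≤ U).card + 1 ≤
      T := by
    intro i
    have h1 := tb_sum i (fun j => Nat.card ↥(U ⊓ orth (g i + g j) U))
      (Finset.univ.filter fun j => j ≠ i ∧ orth (g i + g j) U ≤ U)
      (fun h => (Finset.mem_filter.1 h).2.1 rfl) 15 (hcard i) fun j hj => by
        obtain ⟨h2, h3⟩ := (Finset.mem_filter.1 hj).2
        have h4 := finrank_orth (hb i j (Ne.symm h2)) (hU i j)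
        have h5 : Module.finrank (ZMod 2) (orth (g i + g j) U) = 4 := by omega
        change 1 + 15 ≤ Nat.card ↥(U ⊓ orth (g i + g j) U)
        rw [inf_eq_right.2 h3, tb_card, h5]
        norm_num
    have h2 := hsum i
    rw [hI, hM] at h1
    omega
  have hQ : ∀ i, 3 * T + 5 ≤ (Finset.univ.filter fun j => Quad (g i + g j)).card := by
    intro i
    have h1 := Finset.card_filter_add_card_filter_not (s := (Finset.univ : Finset I))
      (fun j => Quad (g i + g j))
    rw [Finset.card_univ, hI, hM] at h1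
    have h2 := hN i
    omega
  have htwo : ∀ k, Quad (g i + g k) ∨ Quad (g j + g k) := by
    intro k
    by_contra hk
    push Not at hk
    have hd : ∀ a b, ¬ Quad (g a + g b) → Disjoint
        (Finset.univ.filter fun l => Quad (g a + g l))
        (Finset.univ.filter fun l => Quad (g b + g l)) := by
      intro a b hab
      rw [Finset.disjoint_left]
      intro l h1 h2
      exact hab (tb_trans (Finset.mem_filter.1 h1).2 (tb_symm (Finset.mem_filter.1 h2).2))
    have h1 := Finset.card_union_of_disjoint (hd i j hij)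
    have h2 := Finset.card_union_of_disjoint
      (Finset.disjoint_union_left.2 ⟨hd i k hk.1, hd j k hk.2⟩)
    have h3 := Finset.card_le_univ ((Finset.univ.filter fun l => Quad (g i + g l)) ∪
      (Finset.univ.filter fun l => Quad (g j + g l)) ∪
      (Finset.univ.filter fun l => Quad (g k + g l)))
    rw [h2, h1, hI, hM] at h3
    have h4 := hQ i
    have h5 := hQ j
    have h6 := hQ k
    omega
  obtain ⟨j', hj', hW⟩ : ∃ j', Quad (g j + g j') ∧ ¬ orth (g i + g j') U ≤ U := by
    by_contra hcon
    push Not at hcon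
    have h1 : (Finset.univ.filter fun l => Quad (g j + g l)) ⊆
        Finset.univ.filter fun l => l ≠ i ∧ orth (g i + g l) U ≤ U := by
      intro l hl
      have h2 := (Finset.mem_filter.1 hl).2
      refine Finset.mem_filter.2 ⟨Finset.mem_univ l, ?_, hcon l h2⟩
      rintro rfl
      exact hij (tb_symm h2)
    have h2 := Finset.card_le_card h1
    have h3 := hQ j
    have h4 := hN4 i
    omega
  have hij' : i ≠ j' := by
    rintro rfl
    exact hij (tb_symm hj')
  obtain ⟨e, he, heU⟩ := exists_rad hV (hb i j' hij') (hU i j') hs hW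
  have hei : ∀ k, e ∈ rad (g i + g k) := by
    intro k
    rcases htwo k with h | h
    · rw [quad_iff_rad_eq_top.1 h]
      exact Submodule.mem_top
    · have h1 : Quad (g j' + g k) := tb_trans (tb_symm hj') h
      rw [← tb_add (g i) (g j') (g k)]
      refine rad_add ⟨he, ?_⟩
      rw [quad_iff_rad_eq_top.1 h1]
      exact Submodule.mem_top
  have hekl : ∀ k l, e ∈ rad (g k + g l) := by
    intro k l
    rw [← tb_add (g k) (g i) (g l), add_comm (g k) (g i)]
    exact rad_add ⟨hei k, hei l⟩
  apply hij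
  refine quad_of_codim_three hm hV hI g hb (U := U ⊔ Submodule.span (ZMod 2) {e})
    (fun k l => sup_le (hU k l) ((Submodule.span_singleton_le_iff_mem _ _).2 (hekl k l))) ?_ i j
  rw [Submodule.finrank_sup_span_singleton heU]
  omega

theorem quad_of_codim_le_four {m : ℕ} (hm : 2 ≤ m) (hV : Module.finrank (ZMod 2) V = 2 * m)
    (hI : Fintype.card I = 2 ^ (2 * m - 1)) (g : I → V → ZMod 2)
    (hb : ∀ i j, i ≠ j → Bent (g i + g j)) {U : Submodule (ZMod 2) V}
    (hU : ∀ i j, U ≤ rad (g i + g j))
    (hs : Module.finrank (ZMod 2) V ≤ Module.finrank (ZMod 2) U + 4) (i j : I) :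
    Quad (g i + g j) := by
  obtain ⟨U', hU', h⟩ := tb_sub U (2 * m - 4) (by omega)
  exact tb_main hm hV hI g hb (fun k l => hU'.trans (hU k l)) (by omega) i j

end Pool.Agent.Krd
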