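import Pool.Agent.Krd.Cls
import Pool.Agent.Krd.AOne
import Pool.Agent.Krd.AThree
import Pool.Agent.Krd.TTwoB

/-!
# Krd KR16: theorem T1

`finrank V = 2 * m`, `m ≥ 2`, `card I = 2 ^ (2 * m - 1) = M`, all `g i + g j` (`i ≠ j`) bent, all
`rad (g i + g j)` of codimension at most 3. Then all `g i + g j` are `Quad`.

Proof. `isA_or_exists`. In the second case `quad_of_codim_le_four`. In the first case fix `i` and for
`j ≠ i` let `S j` be the set of `card_directions`. Count the triples `(j, a, ν)`, `j ∈ I`,
`x1 a = x2 a = 0`, `ν ∈ {x1, x2, x1 + x2}` (three different functionals), with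
`D x (D a (g i + g j)) z = ν x` for all `x, z`. (For `j = i` or `a = 0` there is none, since the left
side is `0` and `ν ≠ 0`; for given `j, a` there is at most one `ν`.) By `exists_unique_of_isA` the number
is `3 * (2 ^ (2 * m - 2) - 1)` (the space `ker x1 ⊓ ker x2` has `2 ^ (2 * m - 2) = M / 2` elements). On
the other hand it is `∑ j ≠ i, card (S j)`, each term being `3` or `0`. So exactly `M / 2 - 1` of the
`j ≠ i` have `card (S j) = 3`, and `M - 1 - (M / 2 - 1) = M / 2` have `card (S j) = 0`, and for these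
`g i + g j` is `Quad`. Together with `j = i`: the set `Q i = {j | Quad (g i + g j)}` has more than `M / 2`
elements, for every `i`. So `Q i` and `Q i'` meet, and `g i + g i'` is `Quad` (as in `TTwoA`).
-/

set_option autoImplicit false
set_option linter.unusedSectionVars false

namespace Pool.Agent.Krd

variable {V : Type*} [AddCommGroup V] [Module (ZMod 2) V] [Fintype V]
variable {I : Type*} [Fintype I]

/-- The number of the common zeros of two different nonzero functionals. -/
private theorem tone_ker {m : ℕ} (hV : Module.finrank (ZMod 2) V = 2 * m)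
    {x1 x2 : V →ₗ[ZMod 2] ZMod 2} (h1 : x1 ≠ 0) (h2 : x2 ≠ 0) (h12 : x1 ≠ x2) :
    Nat.card {a : V // x1 a = 0 ∧ x2 a = 0} = 2 ^ (2 * m - 2) := by
  classical
  have e1 : Module.finrank (ZMod 2) (LinearMap.ker x1) + 1 = Module.finrank (ZMod 2) V :=
    Module.Dual.finrank_ker_add_one_of_ne_zero h1
  have hne : x2.domRestrict (LinearMap.ker x1) ≠ 0 := by
    intro h0
    have h3 : ∀ v, x1 v = 0 → x2 v = 0 := by
      intro v hv
      have h4 := LinearMap.congr_fun h0 ⟨v, hv⟩
      exact h4
    obtain ⟨v, hv⟩ : ∃ v, x2 v ≠ 0 := by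
      by_contra hcon
      push Not at hcon
      exact h2 (LinearMap.ext hcon)
    have hv1 : x1 v ≠ 0 := fun h => hv (h3 v h)
    apply h12
    refine LinearMap.ext fun w => ?_
    rcases z2_cases (x1 w) with hw | hw
    · rw [hw, h3 w hw]
    · have hv1' : x1 v = 1 := (z2_cases (x1 v)).resolve_left hv1
      have hv2' : x2 v = 1 := (z2_cases (x2 v)).resolve_left hv
      have h5 : x1 (w + v) = 0 := by
        rw [map_add, hw, hv1']
        decide
      have h6 := h3 _ h5
      rw [map_add, hv2'] at h6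
      rw [hw]
      rcases z2_cases (x2 w) with h7 | h7
      · rw [h7] at h6
        exact absurd h6 (by decide)
      · exact h7.symm
  have e2 : Module.finrank (ZMod 2) (LinearMap.ker (x2.domRestrict (LinearMap.ker x1))) + 1 =
      Module.finrank (ZMod 2) (LinearMap.ker x1) :=
    Module.Dual.finrank_ker_add_one_of_ne_zero hne
  have e3 : Nat.card {a : V // x1 a = 0 ∧ x2 a = 0} =
      Nat.card (LinearMap.ker (x2.domRestrict (LinearMap.ker x1))) :=
    Nat.card_congr
      { toFun := fun a => ⟨⟨a.1, a.2.1⟩, a.2.2⟩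
        invFun := fun b => ⟨b.1.1, b.1.2, b.2⟩
        left_inv := fun a => rfl
        right_inv := fun b => rfl }
  have e4 : Nat.card (LinearMap.ker (x2.domRestrict (LinearMap.ker x1))) =
      Nat.card (ZMod 2) ^
        Module.finrank (ZMod 2) (LinearMap.ker (x2.domRestrict (LinearMap.ker x1))) :=
    Module.natCard_eq_pow_finrank
  rw [e3, e4, Nat.card_zmod]
  congr 1
  omega

/-- More than half of the functions `g i + g j` are quadratic. -/
private theorem tone_half {m : ℕ} (hm : 2 ≤ m) (hV : Module.finrank (ZMod 2) V = 2 * m)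
    (hI : Fintype.card I = 2 ^ (2 * m - 1)) (g : I → V → ZMod 2)
    (hb : ∀ i j, i ≠ j → Bent (g i + g j)) {x1 x2 : V →ₗ[ZMod 2] ZMod 2}
    {γ : I → I → V →ₗ[ZMod 2] ZMod 2} (hA : IsA g x1 x2 γ) (i : I)
    (Q : Finset I) (hQ : ∀ j, j ∈ Q ↔ Quad (g i + g j)) :
    2 ^ (2 * m - 1) < 2 * Q.card := by
  classical
  have hq0 : Quad (g i + g i) := by
    rw [fun_add_self]
    intro a b c x
    simp [D]
  have hx12 : x1 + x2 ≠ 0 := by
    intro h
    apply hA.ne
    refine LinearMap.ext fun v => ?_
    have h1 := LinearMap.congr_fun h v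
    rw [LinearMap.add_apply, LinearMap.zero_apply] at h1
    have h2 := z2_add_self (x2 v)
    linear_combination h1 - h2
  set R : I → V → Prop := fun j a => x1 a = 0 ∧ x2 a = 0 ∧ ∃ ν : V →ₗ[ZMod 2] ZMod 2,
    (ν = x1 ∨ ν = x2 ∨ ν = x1 + x2) ∧ ∀ x z, D x (D a (g i + g j)) z = ν x with hR
  have hν0 : ∀ ν : V →ₗ[ZMod 2] ZMod 2, (ν = x1 ∨ ν = x2 ∨ ν = x1 + x2) → ν ≠ 0 := by
    intro ν hν
    rcases hν with e | e | e
    · rw [e]; exact hA.ne1
    · rw [e]; exact hA.ne2
    · rw [e]; exact hx12
  -- the columns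
  have hcol : ∀ a, (x1 a = 0 ∧ x2 a = 0) ∧ a ≠ 0 →
      (Finset.univ.filter fun j => R j a).card = 3 := by
    rintro a ⟨⟨h1, h2⟩, ha⟩
    obtain ⟨j1, hj1, hu1⟩ := exists_unique_of_isA (by omega) hV hI g hb hA ha h1 h2 i x1
      (Or.inl rfl)
    obtain ⟨j2, hj2, hu2⟩ := exists_unique_of_isA (by omega) hV hI g hb hA ha h1 h2 i x2
      (Or.inr (Or.inl rfl))
    obtain ⟨j3, hj3, hu3⟩ := exists_unique_of_isA (by omega) hV hI g hb hA ha h1 h2 i (x1 + x2)
      (Or.inr (Or.inr rfl))
    have hdist : ∀ (j : I) (ν ν' : V →ₗ[ZMod 2] ZMod 2),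
        (∀ x z, D x (D a (g i + g j)) z = ν x) →
        (∀ x z, D x (D a (g i + g j)) z = ν' x) → ν = ν' := by
      intro j ν ν' hn hn'
      exact LinearMap.ext fun x => by rw [← hn x 0, hn' x 0]
    refine Finset.card_eq_three.2 ⟨j1, j2, j3, ?_, ?_, ?_, ?_⟩
    · intro h
      rw [h] at hj1
      exact hA.ne (hdist j2 _ _ hj1 hj2)
    · intro h
      rw [h] at hj1
      have h3 := hdist j3 _ _ hj1 hj3
      exact hA.ne2 (by rwa [left_eq_add] at h3)
    · intro h
      rw [h] at hj2
      have h3 := hdist j3 _ _ hj2 hj3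
      exact hA.ne1 (by rwa [right_eq_add] at h3)
    · ext j
      simp only [Finset.mem_filter, Finset.mem_univ, true_and, Finset.mem_insert,
        Finset.mem_singleton]
      constructor
      · rintro ⟨_, _, ν, hν, h⟩
        rcases hν with e | e | e
        · rw [e] at h
          exact Or.inl (hu1 j h)
        · rw [e] at h
          exact Or.inr (Or.inl (hu2 j h))
        · rw [e] at h
          exact Or.inr (Or.inr (hu3 j h))
      · rintro (rfl | rfl | rfl)
        · exact ⟨h1, h2, x1, Or.inl rfl, hj1⟩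
        · exact ⟨h1, h2, x2, Or.inr (Or.inl rfl), hj2⟩
        · exact ⟨h1, h2, x1 + x2, Or.inr (Or.inr rfl), hj3⟩
  have hcol0 : ∀ a, ¬ ((x1 a = 0 ∧ x2 a = 0) ∧ a ≠ 0) →
      (Finset.univ.filter fun j => R j a).card = 0 := by
    intro a ha
    rw [Finset.card_eq_zero, Finset.filter_eq_empty_iff]
    rintro j - ⟨h1, h2, ν, hν, h⟩
    apply ha
    refine ⟨⟨h1, h2⟩, fun h0 => hν0 ν hν ?_⟩
    refine LinearMap.ext fun x => ?_
    rw [← h x 0, h0, LinearMap.zero_apply]
    simp only [D, add_zero]
    rw [z2_add_self, z2_add_self, add_zero]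
  -- the rows
  have hrow : ∀ j, (Finset.univ.filter fun a => R j a).card = 3 ∨
      ((Finset.univ.filter fun a => R j a).card = 0 ∧ Quad (g i + g j)) := by
    intro j
    have e1 : Nat.card {a : V // R j a} = (Finset.univ.filter fun a => R j a).card := by
      rw [Nat.card_eq_fintype_card, Fintype.card_subtype]
    rw [← e1]
    by_cases hij : i = j
    · right
      refine ⟨?_, hij ▸ hq0⟩
      rw [e1, Finset.card_eq_zero, Finset.filter_eq_empty_iff]
      rintro a - ⟨h1, h2, ν, hν, h⟩
      refine hν0 ν hν (LinearMap.ext fun x => ?_)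
      rw [← h x 0, ← hij, fun_add_self, LinearMap.zero_apply]
      simp [D]
    · exact card_directions hV g hb hA hij
  -- double counting
  have hcount : ∑ j, (Finset.univ.filter fun a => R j a).card =
      ∑ a, (Finset.univ.filter fun j => R j a).card := by
    simp only [Finset.card_filter]
    exact Finset.sum_comm
  set A : Finset I := Finset.univ.filter fun j =>
    (Finset.univ.filter fun a => R j a).card = 3 with hAdef
  have e1 : ∑ j, (Finset.univ.filter fun a => R j a).card = 3 * A.card := by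
    rw [hAdef, Finset.card_filter, Finset.mul_sum]
    refine Finset.sum_congr rfl fun j _ => ?_
    rcases hrow j with h | ⟨h, _⟩
    · rw [if_pos h, h, mul_one]
    · rw [if_neg (by rw [h]; decide), h, mul_zero]
  set K : Finset V := Finset.univ.filter fun a => (x1 a = 0 ∧ x2 a = 0) ∧ a ≠ 0 with hK
  have e2 : ∑ a, (Finset.univ.filter fun j => R j a).card = 3 * K.card := by
    rw [hK, Finset.card_filter, Finset.mul_sum]
    refine Finset.sum_congr rfl fun a _ => ?_
    by_cases h : (x1 a = 0 ∧ x2 a = 0) ∧ a ≠ 0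
    · rw [if_pos h, hcol a h, mul_one]
    · rw [if_neg h, hcol0 a h, mul_zero]
  have e3 : K.card + 1 = 2 ^ (2 * m - 2) := by
    rw [← tone_ker hV hA.ne1 hA.ne2 hA.ne, Nat.card_eq_fintype_card, Fintype.card_subtype]
    have h1 : (Finset.univ.filter fun a : V => x1 a = 0 ∧ x2 a = 0) = insert 0 K := by
      ext a
      simp only [hK, Finset.mem_filter, Finset.mem_univ, true_and, Finset.mem_insert]
      by_cases h0 : a = 0
      · rw [h0]
        simp
      · tauto
    rw [h1, Finset.card_insert_of_notMem]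
    simp [hK]
  have e4 : A.card = K.card := by
    rw [e1, e2] at hcount
    omega
  have e5 : Aᶜ ⊆ Q := by
    intro j hj
    rw [hQ]
    rcases hrow j with h | ⟨_, h⟩
    · rw [Finset.mem_compl, hAdef, Finset.mem_filter] at hj
      exact absurd ⟨Finset.mem_univ _, h⟩ hj
    · exact h
  have e6 := Finset.card_le_card e5
  rw [Finset.card_compl, hI] at e6
  have e7 : 2 ^ (2 * m - 1) = 2 * 2 ^ (2 * m - 2) := by
    rw [← pow_succ']
    congr 1
    omega
  omega

theorem quad_of_rad {m : ℕ} (hm : 2 ≤ m) (hV : Module.finrank (ZMod 2) V = 2 * m)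
    (hI : Fintype.card I = 2 ^ (2 * m - 1)) (g : I → V → ZMod 2)
    (hb : ∀ i j, i ≠ j → Bent (g i + g j))
    (h : ∀ i j, Module.finrank (ZMod 2) V ≤ Module.finrank (ZMod 2) (rad (g i + g j)) + 3)
    (i j : I) : Quad (g i + g j) := by
  classical
  have : Nonempty I := ⟨i⟩
  rcases isA_or_exists g h with ⟨x1, x2, γ, hA⟩ | ⟨U, hU, hle⟩
  · have h1 := tone_half hm hV hI g hb hA i (Finset.univ.filter fun k => Quad (g i + g k))
      (fun k => by simp)
    have h2 := tone_half hm hV hI g hb hA j (Finset.univ.filter fun k => Quad (g j + g k))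
      (fun k => by simp)
    have h3 : ¬ Disjoint (Finset.univ.filter fun k => Quad (g i + g k))
        (Finset.univ.filter fun k => Quad (g j + g k)) := by
      intro hd
      have h4 := Finset.card_union_of_disjoint hd
      have h5 := Finset.card_le_univ ((Finset.univ.filter fun k => Quad (g i + g k)) ∪
        (Finset.univ.filter fun k => Quad (g j + g k)))
      rw [hI] at h5
      omega
    rw [Finset.not_disjoint_iff] at h3
    obtain ⟨k, hk1, hk2⟩ := h3
    have h4 := (Finset.mem_filter.1 hk1).2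
    have h5 := (Finset.mem_filter.1 hk2).2
    have h6 : g i + g j = (g i + g k) + (g j + g k) := by
      funext x
      simp only [Pi.add_apply]
      have h7 := z2_add_self (g k x)
      linear_combination -h7
    rw [h6]
    exact h4.add h5
  · exact quad_of_codim_le_four hm hV hI g hb hle hU i j

end Pool.Agent.Krd
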