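import Pool.Agent.Krd.Cnt
import Pool.Agent.Krd.QThree

/-!
# Krd KR9: closed under translations, codimension three

`finrank V = 2 * m`, `m ≥ 2`, `card I = 2 ^ (2 * m - 1) = M`, all `g i + g j` (`i ≠ j`) bent,
`U ≤ rad (g i + g j)` for all `i, j`, `finrank V = finrank U + 3`. Then all `g i + g j` are `Quad`.

Proof. Fix `i` and let `N` be the number of `j` with `g i + g j` not `Quad` (such `j` are `≠ i`, since
`g i + g i = 0` is `Quad`, `fun_add_self`). For `j ≠ i` the dimension of `R = U ⊓ orth (g i + g j) U`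
is odd (`even_finrank`, `finrank U = 2 * m - 3` is odd), so `card R ≥ 2`; if `g i + g j` is not `Quad`,
then `R = orth (g i + g j) U` (`orth_le_of_not_quad`) has dimension 3 (`finrank_orth`), `card R = 8`.
So `sum_card` with `s = 3` gives `2 * (M - 1 - N) + 8 * N + 2 ^ (2 * m - 3) + 8 ≤ 3 * M`, and with
`M = 4 * 2 ^ (2 * m - 3)`, `T = 2 ^ (2 * m - 3)`: `6 * N ≤ 4 * T - 6 - T = 3 * T - 6`, hence `2 * N < T`
and the set `Q i = {j | Quad (g i + g j)}` has more than `M / 2` elements. For `i, i'` the sets `Q i`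
and `Q i'` meet in some `j`, and `g i + g i' = (g i + g j) + (g j + g i')` is `Quad` (`Quad.add`,
`fun_add_self`, commutativity).
-/

set_option autoImplicit false
set_option linter.unusedSectionVars false

namespace Pool.Agent.Krd

variable {V : Type*} [AddCommGroup V] [Module (ZMod 2) V] [Fintype V]
variable {I : Type*} [Fintype I]

private theorem card_sub (W : Submodule (ZMod 2) V) :
    Nat.card W = 2 ^ Module.finrank (ZMod 2) W := by
  have : Finite V := Finite.of_fintype V
  rw [Module.natCard_eq_pow_finrank (K := ZMod 2), Nat.card_eq_fintype_card, ZMod.card]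

private theorem bad_lt {m : ℕ} (hm : 2 ≤ m) (hV : Module.finrank (ZMod 2) V = 2 * m)
    (hI : Fintype.card I = 2 ^ (2 * m - 1)) (g : I → V → ZMod 2)
    (hb : ∀ i j, i ≠ j → Bent (g i + g j)) {U : Submodule (ZMod 2) V}
    (hU : ∀ i j, U ≤ rad (g i + g j))
    (hs : Module.finrank (ZMod 2) V = Module.finrank (ZMod 2) U + 3) (i : I)
    (B : Finset I) (hB : ∀ j, j ∈ B ↔ ¬ Quad (g i + g j)) : 2 * B.card < 2 ^ (2 * m - 3) := by
  classical
  have hsum := sum_card (by omega) hV hI g hb hU hs i
  have hBi : B ⊆ Finset.univ.erase i := by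
    intro j hj
    rw [Finset.mem_erase]
    refine ⟨?_, Finset.mem_univ j⟩
    rintro rfl
    refine (hB j).1 hj ?_
    rw [fun_add_self]
    intro a b c x
    simp [D]
  have hterm : ∀ j ∈ Finset.univ.erase i, (2 + if j ∈ B then 6 else 0) ≤
      Nat.card ↥(U ⊓ orth (g i + g j) U) := by
    intro j hj
    have hij : i ≠ j := (Finset.ne_of_mem_erase hj).symm
    have hbent := hb i j hij
    split_ifs with h
    · have h1 := orth_le_of_not_quad hV hbent (hU i j) hs ((hB j).1 h)
      have h2 := finrank_orth hbent (hU i j)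
      rw [inf_eq_right.2 h1, card_sub, show Module.finrank (ZMod 2) (orth (g i + g j) U) = 3 by
        omega]
      norm_num
    · have h1 := even_finrank (hU i j)
      have h2 : 1 ≤ Module.finrank (ZMod 2) ↥(U ⊓ orth (g i + g j) U) := by
        by_contra h3
        have h4 : Module.finrank (ZMod 2) ↥(U ⊓ orth (g i + g j) U) = 0 := by omega
        rw [h4] at h1
        obtain ⟨r, hr⟩ := h1
        omega
      rw [card_sub]
      calc 2 + 0 = 2 ^ 1 := by norm_num
        _ ≤ _ := Nat.pow_le_pow_right (by norm_num) h2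
  have h3 := Finset.sum_le_sum hterm
  rw [Finset.sum_add_distrib, Finset.sum_const, Finset.card_erase_of_mem (Finset.mem_univ i),
    Finset.card_univ, hI, ← Finset.sum_filter, Finset.sum_const, smul_eq_mul, smul_eq_mul] at h3
  have h4 : (Finset.univ.erase i).filter (fun j => j ∈ B) = B := by
    rw [Finset.filter_mem_eq_inter, Finset.inter_eq_right.2 hBi]
  rw [h4] at h3
  have h5 : 2 ^ (2 * m - 1) = 4 * 2 ^ (2 * m - 3) := by
    rw [show 2 * m - 1 = 2 * m - 3 + 2 by omega, pow_add]
    ring
  have h6 : 0 < 2 ^ (2 * m - 3) := by positivity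
  rw [h5] at h3 hsum
  omega

theorem quad_of_codim_three {m : ℕ} (hm : 2 ≤ m) (hV : Module.finrank (ZMod 2) V = 2 * m)
    (hI : Fintype.card I = 2 ^ (2 * m - 1)) (g : I → V → ZMod 2)
    (hb : ∀ i j, i ≠ j → Bent (g i + g j)) {U : Submodule (ZMod 2) V}
    (hU : ∀ i j, U ≤ rad (g i + g j))
    (hs : Module.finrank (ZMod 2) V = Module.finrank (ZMod 2) U + 3) (i j : I) :
    Quad (g i + g j) := by
  classical
  have h1 := bad_lt hm hV hI g hb hU hs i (Finset.univ.filter fun k => ¬ Quad (g i + g k))
    (fun k => by simp)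
  have h2 := bad_lt hm hV hI g hb hU hs j (Finset.univ.filter fun k => ¬ Quad (g j + g k))
    (fun k => by simp)
  have h3 : 2 ^ (2 * m - 1) = 4 * 2 ^ (2 * m - 3) := by
    rw [show 2 * m - 1 = 2 * m - 3 + 2 by omega, pow_add]
    ring
  have h4 : ((Finset.univ.filter fun k => ¬ Quad (g i + g k)) ∪
      (Finset.univ.filter fun k => ¬ Quad (g j + g k))).card < Fintype.card I := by
    refine (Finset.card_union_le _ _).trans_lt ?_
    rw [hI, h3]
    omega
  obtain ⟨k, hk⟩ : ∃ k, k ∉ (Finset.univ.filter fun k => ¬ Quad (g i + g k)) ∪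
      (Finset.univ.filter fun k => ¬ Quad (g j + g k)) := by
    by_contra h5
    push Not at h5
    rw [Finset.eq_univ_of_forall h5, Finset.card_univ] at h4
    exact lt_irrefl _ h4
  rw [Finset.mem_union, not_or] at hk
  simp only [Finset.mem_filter, Finset.mem_univ, true_and, not_not] at hk
  have h6 : g i + g j = (g i + g k) + (g j + g k) := by
    have h7 := fun_add_self (g k)
    calc g i + g j = g i + g j + 0 := (add_zero _).symm
      _ = g i + g j + (g k + g k) := by rw [h7]
      _ = (g i + g k) + (g j + g k) := by abel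
  rw [h6]
  exact hk.1.add hk.2

end Pool.Agent.Krd
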